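import Mathlib
import Pool.Agent.Helper70.AC.Defs2

/-!
# Threshold circuits

Boolean functions are maps ` (ι → Bool) → Bool` for a finite set `ι` of input bits. A class of gates
is a predicate `C` on such functions; `SymOf C s`, `MajOf C s` and `ThrOf C s` are the functions
computed by one symmetric gate, one majority gate, one weighted threshold gate applied to at most
`s` functions of the class `C`.
-/

namespace Pool.Agent.Helper99.TH

open Pool.Agent.Helper70.AC

/-- `AC n d s f`: the function `f` of `n` bits is computed by a formula of depth at most `d` and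
size at most `s` with AND and OR gates of unbounded fan-in and with free negations. -/
inductive AC (n : ℕ) : ℕ → ℕ → ((Fin n → Bool) → Bool) → Prop
  | const (b : Bool) : AC n 0 1 (fun _ => b)
  | input (i : Fin n) : AC n 0 1 (fun x => x i)
  | neg {d s : ℕ} {f : (Fin n → Bool) → Bool} (h : AC n d s f) : AC n d s (fun x => !(f x))
  | conj {d k : ℕ} (s : Fin k → ℕ) (f : Fin k → (Fin n → Bool) → Bool)
      (h : ∀ i, AC n d (s i) (f i)) :
      AC n (d + 1) ((∑ i, s i) + 1) (fun x => decide (∀ i, f i x = true))
  | disj {d k : ℕ} (s : Fin k → ℕ) (f : Fin k → (Fin n → Bool) → Bool)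
      (h : ∀ i, AC n d (s i) (f i)) :
      AC n (d + 1) ((∑ i, s i) + 1) (fun x => decide (∃ i, f i x = true))
  | weaken {d s : ℕ} {f : (Fin n → Bool) → Bool} (d' s' : ℕ) (hd : d ≤ d') (hs : s ≤ s')
      (h : AC n d s f) : AC n d' s' f

section
variable {ι : Type}

/-- The function `h` depends on at most `k` bits: an arbitrary gate of fan-in at most `k`. -/
def Junta (k : ℕ) (h : (ι → Bool) → Bool) : Prop :=
  ∃ T : Finset ι, T.card ≤ k ∧ ∀ x y : ι → Bool, (∀ i ∈ T, x i = y i) → h x = h y

/-- The function `h` is an AND of arbitrarily many literals (or the constant `false`). -/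
def IsAnd (h : (ι → Bool) → Bool) : Prop :=
  ∃ (b : Bool) (P N : Finset ι), ∀ x : ι → Bool,
    h x = true ↔ b = true ∧ (∀ i ∈ P, x i = true) ∧ ∀ i ∈ N, x i = false

/-- The function `g` is a threshold gate with arbitrary real weights applied to the input bits. -/
def ThrGate [Fintype ι] (g : (ι → Bool) → Bool) : Prop :=
  ∃ (w : ι → ℝ) (t : ℝ), ∀ x : ι → Bool, g x = true ↔ t ≤ ∑ i, if x i = true then w i else 0

/-- The function `g` is a symmetric gate (its value is an arbitrary function of the number of its
true inputs) applied to at most `s` functions of the class `C`. -/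
def SymOf (C : ((ι → Bool) → Bool) → Prop) (s : ℕ) (g : (ι → Bool) → Bool) : Prop :=
  ∃ r : ℕ, r ≤ s ∧ ∃ (σ : ℕ → Bool) (h : Fin r → (ι → Bool) → Bool), (∀ i, C (h i)) ∧
    ∀ x, g x = σ (Finset.univ.filter (fun i => h i x = true)).card

/-- The function `f` is a majority gate (true if at least half of its inputs are true) applied to
at most `s` functions of the class `C`. -/
def MajOf (C : ((ι → Bool) → Bool) → Prop) (s : ℕ) (f : (ι → Bool) → Bool) : Prop :=
  ∃ r : ℕ, r ≤ s ∧ ∃ g : Fin r → (ι → Bool) → Bool, (∀ i, C (g i)) ∧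
    ∀ x, f x = true ↔ r ≤ 2 * (Finset.univ.filter (fun i => g i x = true)).card

/-- The function `f` is a threshold gate with arbitrary real weights applied to at most `s`
functions of the class `C`. -/
def ThrOf (C : ((ι → Bool) → Bool) → Prop) (s : ℕ) (f : (ι → Bool) → Bool) : Prop :=
  ∃ r : ℕ, r ≤ s ∧ ∃ (w : Fin r → ℝ) (t : ℝ) (g : Fin r → (ι → Bool) → Bool), (∀ i, C (g i)) ∧
    ∀ x, f x = true ↔ t ≤ ∑ i, if g i x = true then w i else 0

end

/-- The words of length `n` of the language `S` are recognized, for all large `n`, by circuits of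
the type `F n s` with `s = 2 ^ l` and `l ^ k ≤ n`, for every `k`: circuits of size
`2 ^ (n ^ o(1))`. -/
def SubExp (F : ∀ n : ℕ, ℕ → ((Fin n → Bool) → Bool) → Prop) (S : Set (List Bool)) : Prop :=
  ∀ k : ℕ, ∃ n0 : ℕ, ∀ n ≥ n0, ∃ l : ℕ, l ^ k ≤ n ∧ F n (2 ^ l) (slice S n)

/-- The words of length `n` of the language `S` are recognized, for all large `n`, by circuits of
the type `F n s` with `s = 2 ^ l` and `k l ≤ (log n) ^ 2`, for every `k`: circuits of size
`n ^ o(log n)`. -/
def QuasiPoly (F : ∀ n : ℕ, ℕ → ((Fin n → Bool) → Bool) → Prop) (S : Set (List Bool)) : Prop :=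
  ∀ k : ℕ, ∃ n0 : ℕ, ∀ n ≥ n0, ∃ l : ℕ, k * l ≤ Nat.log 2 n ^ 2 ∧ F n (2 ^ l) (slice S n)

/-- Type (a): a threshold gate with arbitrary real weights applied to formulas of depth `d`. -/
def TypeA (d : ℕ) (n s : ℕ) : ((Fin n → Bool) → Bool) → Prop := ThrOf (AC n d s) s

/-- Type (b): a threshold gate with arbitrary real weights applied to symmetric gates of
literals. -/
def TypeB (n s : ℕ) : ((Fin n → Bool) → Bool) → Prop := ThrOf (SymOf (Junta 1) s) s

/-- Type (c): a majority gate applied to threshold gates of literals with arbitrary real weights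
and to symmetric gates of arbitrary gates of fan-in at most ` (log n) / 6`. -/
def TypeC (n s : ℕ) : ((Fin n → Bool) → Bool) → Prop :=
  MajOf (fun g => ThrGate g ∨ SymOf (Junta (Nat.log 2 n / 6)) s g) s

/-- Type (d): a majority gate applied to threshold gates of literals with arbitrary real weights
and to symmetric gates of AND gates of arbitrary fan-in. -/
def TypeD (n s : ℕ) : ((Fin n → Bool) → Bool) → Prop :=
  MajOf (fun g => ThrGate g ∨ SymOf IsAnd s g) s

/-- The language `S` has small threshold circuits: circuits of type (a) for some depth `d`, of type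
(b) or of type (c), of size `2 ^ (n ^ o(1))`, or circuits of type (d) of size `n ^ o(log n)`. -/
def SmallThreshold (S : Set (List Bool)) : Prop :=
  (∃ d, SubExp (TypeA d) S) ∨ SubExp TypeB S ∨ SubExp TypeC S ∨ QuasiPoly TypeD S

end Pool.Agent.Helper99.TH
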