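import Mathlib
import Pool.Agent.Helper70.AC.B3
import Pool.Agent.Helper70.AC.A4
import Pool.Agent.Helper70.AC.A6
import Pool.Agent.Helper99.TH.Defs

/-!
# Project TH: statements of the modules

Each `T_XX` is a proposition; module XX proves `theorem t_XX : T_XX` (or from the listed
hypotheses) in the file `Pool/Agent/Helper99/TH/M_XX.lean`.
-/

namespace Pool.Agent.Helper99.TH

open Pool.Agent.Helper70.AC Pool.Agent.Helper72 Finset

/-- `π` is a projection: every output bit is constant, an input bit or a negated input bit. -/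
def IsPr {ι κ : Type} (π : (ι → Bool) → κ → Bool) : Prop :=
  ∀ j, (∃ b, ∀ x, π x j = b) ∨ (∃ i, ∀ x, π x j = x i) ∨ ∃ i, ∀ x, π x j = !(x i)

/-! ### PR: projections -/

/-- PR. All types of circuits are preserved by projections.
Proof. `AC`: copy `Ckt.proj` of `Pool/Agent/Helper70/AC/A7.lean`.
Junta: every output bit of `π` depends on at most one input bit (choose it), take the image of `T`.
IsAnd: for `h` given by ` (b, P, N)`: if some bit of `P` is the constant `false` or some bit of `N` is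
the constant `true`, the composite is constantly false (take `b = false`, `P = N = ∅`). Otherwise
`P' = {i | some j ∈ P has π x j = x i, or some j ∈ N has π x j = !(x i)}`, and symmetrically `N'`
(choose for every `j` one of the three alternatives).
ThrGate: for every `j` there are `c : ℝ` and `e : ι → ℝ` with
` (if π x j then w j else 0) = c + ∑ i, (if x i then e i else 0)` for all `x`; choose and sum over `j`.
SymOf, MajOf, ThrOf: compose all inner functions with `π`. -/
def T_PR : Prop :=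
  (∀ (n m : ℕ) (π : (Fin n → Bool) → Fin m → Bool), IsPr π → ∀ d s f, AC m d s f →
    AC n d s (fun x => f (π x))) ∧
  (∀ (ι κ : Type) (π : (ι → Bool) → κ → Bool), IsPr π → ∀ k h, Junta k h →
    Junta k (fun x => h (π x))) ∧
  (∀ (ι κ : Type) (π : (ι → Bool) → κ → Bool), IsPr π → ∀ h, IsAnd h →
    IsAnd (fun x => h (π x))) ∧
  (∀ (ι κ : Type) [Fintype ι] [Fintype κ] (π : (ι → Bool) → κ → Bool), IsPr π → ∀ h, ThrGate h →
    ThrGate (fun x => h (π x))) ∧
  (∀ (ι κ : Type) (π : (ι → Bool) → κ → Bool) (C : ((κ → Bool) → Bool) → Prop)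
    (C' : ((ι → Bool) → Bool) → Prop), (∀ h, C h → C' (fun x => h (π x))) → ∀ s f,
    (SymOf C s f → SymOf C' s (fun x => f (π x))) ∧
    (MajOf C s f → MajOf C' s (fun x => f (π x))) ∧
    (ThrOf C s f → ThrOf C' s (fun x => f (π x))))

/-! ### ISO: isolation -/

/-- ISO. Isolation by random subsets, derandomized.
Proof. (1) Let `φ J m = 0` if `m = 0`, `1` if `m = 1`, `2/3 - m / 2^J` otherwise. If `A` is a finite
set of at least 2 elements of `Fin k` then `∑_R φ J |A ∩ R| ≥ 2^k φ (J+1) |A|` (sum over all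
`R : Finset (Fin k)`): with `ψ m = 2/3 - m / 2^J` one has `φ J 0 = ψ 0 - 2/3`,
`φ J 1 ≥ ψ 1 + 1/3`, `∑_R ψ |A ∩ R| = 2^k (2/3 - |A| / 2^(J+1))` (every element of `A` lies in half
of the sets `R`), and the number of `R` with `|A ∩ R| = 1` is at least twice the number of `R` with
`A ∩ R = ∅` (for two distinct elements `a, b` of `A` the maps `R ↦ R ∪ {a}`, `R ↦ R ∪ {b}` from the
second set to the first are injective with disjoint images).
(2) By induction on `J`: for every finite family `A x`, `x ∈ X`, of subsets of `Fin k` there are sets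
`S 0, ..., S J` such that the number of `x ∈ X` with `|A x ∩ S j| = 1` for some `j` is at least
`∑_{x ∈ X} φ J |A x|`. `J = 0`: `S 0 = univ`. Step: let `X' = {x ∈ X | |A x| ≠ 1}`; by (1) (and
`φ 0`-terms) there is `R` with `∑_{x ∈ X'} φ J |A x ∩ R| ≥ ∑_{x ∈ X'} φ (J+1) |A x|`; apply the
induction hypothesis to `A x ∩ R`, `x ∈ X'`, take `S 0 = univ`, `S (j+1) = R ∩ S' j`.
(3) With `J = l + 3`, `1 ≤ |A x| ≤ k ≤ 2^l`: `φ J |A x| ≥ 1/2`, so at least half of the `x` are
isolated. Iterate `T` times on the remaining `x`. -/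
def T_ISO : Prop :=
  ∀ (α : Type) (k l T : ℕ), k ≤ 2 ^ l → ∀ (X : Finset α) (A : α → Finset (Fin k)),
    (∀ x ∈ X, (A x).Nonempty) → ∃ S : Fin T → Fin (l + 4) → Finset (Fin k),
      2 ^ T * (X.filter (fun x => ∀ t j, ((A x) ∩ (S t j)).card ≠ 1)).card ≤ X.card

/-! ### AP: approximation by real polynomials -/

/-- AP (from ISO). Formulas of small depth agree with real functions of low degree at most points.
Proof. Induction on the formula as in `Pool/Agent/Helper70/AC/A2.lean` (`approx`), with the field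
`ℝ` (`B3.LF ℝ n D`, `B3.LF_mul`, `B3.LF_prod`, `B3.LF_const`, `B3.LF_mono`, `B3.LF_input` in
`Pool/Agent/Helper70/AC/B3.lean`). For an OR of `f_i`, `i < k` (note `k ≤ ∑ s_i ≤ 2^l` since sizes are
at least 1) with approximations `P_i` of degree `D`: let `X = {x | ∃ i, f_i x}`,
`A x = {i | f_i x}`, `S` from ISO with `T = L`, and
`Q = 1 - ∏_{t < L} ∏_{j < l+4} (1 - ∑_{i ∈ S t j} P_i)`, of degree `L (l + 4) D`. If `P_i x = f_i x` for
all `i` then `Q x = 0` if all `f_i x` are false, and `Q x = 1` if `|A x ∩ S t j| = 1` for some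
`t, j`. So the number of errors is at most `∑_i` (errors of `P_i`) plus `2^n / 2^L`.
AND: negations of the OR of the negations. Negation: `1 - P`. -/
def T_AP : Prop :=
  ∀ (n d s : ℕ) (f : (Fin n → Bool) → Bool), AC n d s f → ∀ l L : ℕ, s ≤ 2 ^ l → 1 ≤ L →
    ∃ P ∈ B3.LF ℝ n ((L * (l + 4)) ^ d),
      2 ^ L * (univ.filter (fun x => P x ≠ B3.be ℝ (f x))).card ≤ s * 2 ^ n

/-! ### SG: sign representations of the parity -/

/-- SG. A real function of degree `D` which represents the parity in sign outside `B`.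
Proof (Aspnes, Beigel, Furst, Rudich). The monomials `B3.mf ℝ A` are linearly independent (evaluate
at the indicators of sets, induction on `|A|`), hence `LF ℝ n e` has dimension at least
`∑_{i ≤ e} C(n, i) > |B|` and contains `q ≠ 0` vanishing on `B`. With `ε x = 1` if `par x`, `-1`
otherwise: `∑_x ε x * g x = 0` for every `g ∈ LF ℝ n (n-1)` (for a monomial `A ≠ univ` use the
involution flipping a bit outside `A`). Apply it to `g = q^2 P`, of degree at most `2 e + D < n`: all
terms `ε x q(x)^2 P(x)` are nonnegative, so they vanish, so `q x = 0` for `x ∉ B` also: `q = 0`. -/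
def T_SG : Prop :=
  ∀ (n D e : ℕ) (P : (Fin n → Bool) → ℝ), P ∈ B3.LF ℝ n D → 2 * e + D < n →
    ∀ B : Finset (Fin n → Bool), B.card < ∑ i ∈ range (e + 1), n.choose i →
      (∀ x, x ∉ B → par x = true → 0 < P x) → (∀ x, x ∉ B → par x = false → P x < 0) → False

/-! ### PH: the parity is hard for type (a) -/

/-- PH (from AP and SG). The parity has no circuits of type (a) of size `2 ^ (n ^ o(1))`.
Proof. Let `f = par`, given by `w, t, g` with `r ≤ 2^l` formulas `g i` of depth `d` and size at most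
`2^l`. Take `L = 2 l + 3` in AP: `P_i ∈ LF ((2l+3)(l+4))^d` with errors at most
`2^l 2^n / 2^(2l+3)`; the set `B` of all errors has at most `2^n / 8` elements. Put
`P = ∑ w_i P_i - t + δ` where `δ > 0` is smaller than all the (finitely many) numbers
`t - ∑ i, (if g i x then w i else 0)` with `par x = false`. Apply SG with
`D = ((2l+3)(l+4))^d`, `e = (n - D - 1) / 2`; since `∑_{i < n/2 + D + 1} C(n,i) ≤ (3/4) 2^n`
(`sum_choose_le` in `Pool/Agent/Helper70/AC/A4.lean`, for `64 (D + 1)^2 ≤ n`) and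
`∑_{i ≤ n} C(n,i) = 2^n`, `C(n,i) = C(n,n-i)`, the sum over `i ≤ e` (note `e ≥ n - (n/2 + D + 1)`) is
at least `2^n / 4`. The numerical condition `64 (D+1)^2 ≤ n` follows from `l^k ≤ 1000 (n+2)^4` for
suitable `k` and large `n`, as in `b5_num` of `Pool/Agent/Helper70/AC/B5.lean` (there with
` (C (l+4))^d`; use ` (2l+3)(l+4) ≤ (2 (l+4))^2` and exponent `2 d`, `C = 2`). -/
def T_PH : Prop :=
  ∀ d : ℕ, ∃ k n0 : ℕ, ∀ n ≥ n0, ∀ l : ℕ, l ^ k ≤ 1000 * (n + 2) ^ 4 →
    ¬ ThrOf (AC n d (2 ^ l)) (2 ^ l) (par (n := n))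

/-! ### Generalized inner product -/

/-- the generalized inner product: parity of the number of columns without a false bit -/
def gip {K m : ℕ} (x : Fin K × Fin m → Bool) : Bool :=
  decide (Odd (univ.filter (fun i : Fin m => ∀ j : Fin K, x (j, i) = true)).card)

/-- the sign of a bit -/
noncomputable def sg (b : Bool) : ℝ := if b = true then -1 else 1

/-- `cos (π / 2 ^ K)`, by recursion -/
noncomputable def cc : ℕ → ℝ
  | 0 => -1
  | K + 1 => Real.sqrt ((1 + cc K) / 2)

/-- BN (Babai, Nisan, Szegedy). Discrepancy of the generalized inner product for cylinder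
intersections.
Proof. Write `x : Fin K → Fin m → Bool` (rows) and for `A : Finset (Fin m)` let
`G_A x = ∏_{i ∈ A} (if ∀ j, x j i then -1 else 1)`; `G_univ = sg ∘ gip`. Claim, for all `K ≥ 0`, all
`A` and all `φ` as in the statement (for curried `x`): `∑_x G_A x ∏_j φ_j x ≤ (2^m)^K (cc K)^|A|`.
`K = 0`: there is one `x` and both sides are ` (-1)^|A|`. Step `K → K+1`: write `x = (x_0, x')`
(`Fin.cons`), `φ_0` depends on `x'` only and `|φ_0| ≤ 1`, so by Cauchy-Schwarz
`S^2 ≤ (2^m)^K ∑_{x'} (∑_{x_0} G_A(x_0,x') ∏_{j ≥ 1} φ_j(x_0,x'))^2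
= (2^m)^K ∑_{x_0,y_0} ∑_{x'} G_{A'}(x') ∏_{j≥1} φ_j(x_0,x') φ_j(y_0,x')` with
`A' = {i ∈ A | x_0 i ≠ y_0 i}` (indeed the product of the two factors at `i` is `1` if
`x_0 i = y_0 i`, and `-1` exactly if `x' j i` is true for all `j` otherwise), which by the induction
hypothesis is at most ` (2^m)^(2K) ∑_{x_0,y_0} (cc K)^|A'| = (2^m)^(2K) 4^m ((1 + cc K)/2)^|A|`
(product over `i` of sums over the pairs of bits). Hence `|S| ≤ (2^m)^(K+1) (cc (K+1))^|A|`, as
`cc (K+1) ≥ 0` and ` (cc (K+1))^2 = (1 + cc K)/2` (`-1 ≤ cc K ≤ 1`). -/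
def T_BN : Prop :=
  ∀ (K m : ℕ), 1 ≤ K → ∀ φ : Fin K → (Fin K × Fin m → Bool) → ℝ,
    (∀ j x, |φ j x| ≤ 1) →
    (∀ j x y, (∀ p : Fin K × Fin m, p.1 ≠ j → x p = y p) → φ j x = φ j y) →
    |∑ x, sg (gip x) * ∏ j, φ j x| ≤ 2 ^ (K * m) * cc K ^ m

/-- SC (from BN). Correlation of the generalized inner product with symmetric gates of gates of
fan-in `k < K`.
Proof. Every `h i` depends on the bits in `T_i`, `|T_i| ≤ k < K`, so there is a row `ρ i` with no bit
of `T_i`. Let `a_j x = #{i | ρ i = j, h i x}`; it does not depend on row `j` and is at most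
`r ≤ s`. The indicator of `g x = σ (∑_j a_j x)` is the sum over `c : Fin K → Fin (s+1)` of
`[σ (∑ c_j)] ∏_j [a_j x = c_j]`, apply BN to each of the ` (s+1)^K` terms. -/
def T_SC : Prop :=
  ∀ (K m k s : ℕ), k < K → ∀ g : (Fin K × Fin m → Bool) → Bool, SymOf (Junta k) s g →
    |∑ x, sg (gip x) * (if g x = true then 1 else 0)| ≤ (s + 1) ^ K * (2 ^ (K * m) * cc K ^ m)

/-! ### Threshold gates -/

/-- ST. Staircases. `p = 0`: at most one `u`, the set of `v ∈ C` with `0 ≤ a u + b v` is a subset of `C`,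
use `hM`. Step: split `R` of size at most `2^(p+1)` into `R1, R2` of size at most `2^p` with
`a u ≤ a w` for `u ∈ R1`, `w ∈ R2` (the `min (2^p) |R|` smallest values). If `R1 = ∅` trivial. Let
`M1` be the maximum of `a` on `R1` and `C1 = {v ∈ C | 0 ≤ M1 + b v}`. The sum over `R x C` is the
staircase over `R1 x C1` (for `v ∉ C1` no `u ∈ R1` contributes) plus the full rectangle `R2 x C1`
(all `u ∈ R2` have `a u ≥ M1`) plus the staircase over `R2 x (C \ C1)`. Bound:
` (p+1) lam (√(|R1||C1|) + √(|R2||C \ C1|)) + lam √(|R2||C1|) ≤ (p+2) lam √(|R||C|)` by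
`√(a b) + √(c d) ≤ √((a + c)(b + d))`. -/
def T_ST : Prop :=
  ∀ (U V : Type) [Fintype U] [Fintype V] (M : U → V → ℝ) (lam : ℝ), 0 ≤ lam →
    (∀ (R : Finset U) (C : Finset V), |∑ u ∈ R, ∑ v ∈ C, M u v| ≤
      lam * Real.sqrt (R.card * C.card)) →
    ∀ (a : U → ℝ) (b : V → ℝ) (p : ℕ) (R : Finset U) (C : Finset V), R.card ≤ 2 ^ p →
      |∑ u ∈ R, ∑ v ∈ C, (if 0 ≤ a u + b v then M u v else 0)| ≤
        (p + 1) * lam * Real.sqrt (R.card * C.card)

/-- RC. Rectangles. For `K ≥ 1` let `M u v = sg` of the parity of `#{i | u i ∧ ∀ j, v (j, i)}`,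
`u : Fin m → Bool`, `v : Fin K × Fin m → Bool`. Then every rectangle sum is at most
`√(2^m (2^K - 1)^m) √(|R||C|)`.
Proof. By Cauchy-Schwarz the square of the sum is at most
`|C| ∑_v (∑_{u ∈ R} M u v)^2 = |C| ∑_{u,u' ∈ R} ∑_v M u v M u' v`, and
`∑_v M u v M u' v = ∏_i (if u i = u' i then 2^K else 2^K - 2) ≥ 0` (product over the columns `i` of
sums over the column `v (·, i)`); the sum over all `u'` is ` (2^K + 2^K - 2)^m = 2^m (2^K - 1)^m`. -/
def T_RC : Prop :=
  ∀ (K m : ℕ), 1 ≤ K → ∀ (R : Finset (Fin m → Bool)) (C : Finset (Fin K × Fin m → Bool)),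
    |∑ u ∈ R, ∑ v ∈ C, sg (decide (Odd (univ.filter
      (fun i : Fin m => u i = true ∧ ∀ j : Fin K, v (j, i) = true)).card))| ≤
      Real.sqrt (2 ^ m * (2 ^ K - 1) ^ m) * Real.sqrt (R.card * C.card)

/-- TC (from ST and RC). Correlation of the generalized inner product with threshold gates.
Proof. `K = K' + 1`, `K' ≥ 1`; a point `x` is a pair ` (u, v)`: `u i = x (0, i)`,
`v (j, i) = x (j+1, i)`; the threshold gate is `0 ≤ a u + b v` with `a u` the part of the weighted
sum of row `0` and `b v` the rest minus `t`. ST with `R = C = univ`, `p = m`, gives the bound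
` (m+1) √(2^m (2^K' - 1)^m) √(2^m 2^(K' m)) = (m+1) 2^(K m) √((1 - (1/2)^(K-1))^m)`. -/
def T_TC : Prop :=
  ∀ (K m : ℕ), 2 ≤ K → ∀ g : (Fin K × Fin m → Bool) → Bool, ThrGate g →
    |∑ x, sg (gip x) * (if g x = true then 1 else 0)| ≤
      (m + 1) * 2 ^ (K * m) * Real.sqrt ((1 - (1 / 2) ^ (K - 1)) ^ m)

/-- MH (from BN, SC and TC). The generalized inner product is not a small majority.
Proof. Suppose `gip = MajOf ...` with `r ≤ s` gates `g i`. Put `P x = 2 #{i | g i x} - r + 1/2`; then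
`P x ≥ 1/2` if `gip x`, `P x ≤ -1/2` otherwise, so `-∑_x sg (gip x) P x ≥ 2^(K m) / 2`. But
`|∑_x sg (gip x) P x| ≤ 2 ∑_i |∑_x sg (gip x) [g i x]| + (r + 1/2) |∑_x sg (gip x)| ≤
(3 s + 1/2) E` with `E = max` of the bounds in SC, TC (for `k = K - 1`) and `E ≥ |∑_x sg (gip x)|`
by BN with `φ = 1` (`cc K ≥ 0` as `K ≥ 1`). The hypotheses say ` (6 s + 2) E < 2^(K m)`. -/
def T_MH : Prop :=
  ∀ (K m s : ℕ), 2 ≤ K → ((6 * s + 2 : ℕ) : ℝ) * ((s + 1) ^ K * cc K ^ m) < 1 →
    ((6 * s + 2 : ℕ) : ℝ) * ((m + 1) * Real.sqrt ((1 - (1 / 2) ^ (K - 1)) ^ m)) < 1 →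
    ¬ MajOf (fun g => ThrGate g ∨ SymOf (Junta (K - 1)) s g) s
      (gip : (Fin K × Fin m → Bool) → Bool)

/-! ### Random restrictions -/

/-- generalized inner product of parities of blocks of `b` bits -/
def gpar {K m b : ℕ} (x : (Fin K × Fin m) × Fin b → Bool) : Bool :=
  gip (fun p => decide (Odd (univ.filter (fun c : Fin b => x (p, c) = true)).card))

/-- RR (from PR). One restriction for one circuit (Razborov, Wigderson).
Proof. For `c : Fin K × Fin m → Fin b` and `a : (Fin K × Fin m) × Fin b → Bool` let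
`π y (p, q) = a (p, q)` if `q ≠ c p`, and `y p xor (parity of a (p, q), q ≠ c p)` if `q = c p`. It is a
projection and `gpar (π y) = gip y`. Threshold gates stay threshold gates under a projection (PR).
Let `h` be an AND of the literals in `P, N` (with constant `b = true`). If some ` (p, q)`, `q ≠ c p`, lies
in `P` with `a (p,q) = false` or in `N` with `a (p,q) = true`, then `h ∘ π` is constant. Otherwise
(the gate is alive) `h ∘ π` depends only on the bits `p` with ` (p, c p) ∈ P ∪ N`; call their number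
`Z`. Give a pair ` (c, a)` which leaves the gate alive the weight ` (b/2)^Z`, the others `0`. The sum
of the weights over all ` (c, a)` is a product over `p`; with `t` the number of `q` with
` (p, q) ∈ P ∪ N` the factor is at most `t 2^(b - t + 1) (b / 2)` (for ` (p, c p) ∈ P ∪ N`; the bits
`a (p, q)`, `q ≠ c p`, ` (p, q) ∈ P ∪ N` are prescribed) plus ` (b - t) 2^(b - t)`, together
`2^(b-t) (t b + b - t) ≤ b 2^b` (as `t b + b - t ≤ b (t + 1) ≤ b 2^t`). So the number of pairs with
the gate alive and `Z ≥ k + 1` is at most ` (2/b)^(k+1)` times the number of all pairs (`b ≥ 2`, if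
`b = 1` the hypothesis gives `s = 0`). There are at most `s * s` AND gates, so by the hypothesis some
` (c, a)` is good for all of them: then all `h ∘ π` are juntas of size at most `k`. -/
def T_RR : Prop :=
  ∀ (K m b k s : ℕ), 1 ≤ b → s * s * 2 ^ (k + 1) < b ^ (k + 1) →
    MajOf (fun g => ThrGate g ∨ SymOf IsAnd s g) s
      (gpar : ((Fin K × Fin m) × Fin b → Bool) → Bool) →
    MajOf (fun g => ThrGate g ∨ SymOf (Junta k) s g) s (gip : (Fin K × Fin m → Bool) → Bool)

/-! ### Encoding in SAT -/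

/-- EN. The satisfiability problem encodes `gpar` by a projection.
Proof. Formula patterns over input bits `ι`: `PF ι = bit i | tt | neg | conj | disj`; the instance of a
pattern at `x : ι → Bool` is the formula (`BForm`) in which `bit i` is replaced by the formula
`b6c (x i)` of `Pool/Agent/Helper70/AC/B6.lean` (constant with value `x i`, code of length 12, every
bit of the code is constant, `x i` or `!(x i)`: `b6cb`, generalize it from `Fin n` to `ι`), `tt` by
`b6c true`. So the code of the instance is a projection of `x` (list of bits as in `b6Phib`), of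
length independent of `x`, and it is in `SAT` iff the value of the pattern is true
(`code_injective`, the value of the instance does not depend on the assignment). Let
`X φ ψ = disj (conj φ (neg ψ)) (conj (neg φ) ψ)` (length `15 + 2|φ| + 2|ψ|`) and
`xt h f o = X (xt (h-1) f o) (xt (h-1) f (o + 2^(h-1)))`, `xt 0 f o = f o`: its value is the parity of
the `f i`, `o ≤ i < o + 2^h`, and its length is at most `4^h (L + 5)` if `|f i| ≤ L`. Use it inside
(blocks, `g`) and outside (columns, `h`), with a `K`-fold `conj` in between (start with `tt`): the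
length is at most `4^h (K (3 + 17 * 4^g) + 12 + 5) ≤ 200 K 4^(h+g)`, and at least `K 2^h 2^g`
(every bit occurs), and one may use `2^h ≤ length` only. -/
def T_EN : Prop :=
  ∀ (K h g : ℕ), 1 ≤ K → ∃ (N : ℕ) (π : ((Fin K × Fin (2 ^ h)) × Fin (2 ^ g) → Bool) →
      Fin N → Bool), 2 ^ h ≤ N ∧ N ≤ 200 * K * 4 ^ (h + g) ∧ IsPr π ∧
    ∀ x, List.ofFn (π x) ∈ SAT ↔ gpar x = true

/-! ### Forster's theorem -/

/-- FA. Forster's isotropic position. `u i` are vectors in general position (every `d` of them with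
distinct indices are linearly independent), `d < m`.
Proof. Minimize `F(B) = ∑_i log (u_i^T B u_i)` over the positive definite matrices `B` with
`det B = 1`. General position gives `c > 0` such that for every orthonormal basis `e_1, ..., e_d` and
every `k < d`, at most `k` of the `u_i` satisfy `|<u_i, e_j>| < c` for all `j > k`... (compactness of
the orthogonal group: for a subspace `W` of dimension `k` at most `k` of the `u_i` lie in `W`), so with
eigenvalues `λ_1 ≥ ... ≥ λ_d` of `B`, for each `k` at least `m - (d - k)` of the `u_i` have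
`u_i^T B u_i ≥ c^2 λ_k`, whence `F(B) ≥ const + ∑_{k} log λ_k + (m - d) log λ_1 =
const + (m - d) log λ_1`, which tends to infinity with `λ_1`. So `F` attains its minimum at some `B`.
Let `B = A^T A`. Replacing `u_i` by `A u_i` we may assume `B = 1`; for a symmetric matrix `H` of trace
`0` the derivative of `F(exp(t H))` (or of `F` at ` (1 + t H) / det(1 + t H)^(1/d)`) at `t = 0` is
`∑_i (u_i^T H u_i) / |u_i|^2 = 0`, so `∑_i u_i u_i^T / |u_i|^2` is orthogonal to all symmetric
matrices of trace `0` and hence a multiple of the identity; the trace gives the multiple `m / d`.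
Any other proof is fine (only the conclusion is used, and an approximate version
`∀ ε > 0 ∃ A, ∀ z, ∑_i <A u_i, z>^2 / |A u_i|^2 ≥ (m/d - ε) |z|^2` would be enough: that is the
statement below). -/
def T_FA : Prop :=
  ∀ (d m : ℕ) (u : Fin m → EuclideanSpace ℝ (Fin d)), 1 ≤ d → d < m →
    (∀ s : Fin d → Fin m, Function.Injective s → LinearIndependent ℝ (fun i => u (s i))) →
    ∀ ε : ℝ, 0 < ε → ∃ A : EuclideanSpace ℝ (Fin d) ≃ₗ[ℝ] EuclideanSpace ℝ (Fin d),
      ∀ z : EuclideanSpace ℝ (Fin d),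
        ((m : ℝ) / d - ε) * ‖z‖ ^ 2 ≤ ∑ i, inner ℝ (A (u i)) z ^ 2 / ‖A (u i)‖ ^ 2

/-- inner product modulo 2 of two words -/
def ip {m : ℕ} (x y : Fin m → Bool) : Bool :=
  decide (Odd (univ.filter (fun i => x i = true ∧ y i = true)).card)

/-- FB (from FA). Forster: sign rank of the inner product matrix.
Proof. Let `M = 2^m` be the number of rows. If `M ≤ d` then `2^m ≤ d ≤ d^2`. If `d = 0` the
hypothesis fails (for `m` arbitrary, the inner product is `0`). Otherwise perturb `u`: replace `u x` by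
`u x + δ w x`, `w x = (1, t_x, ..., t_x^(d-1))` with distinct reals `t_x`; the `d x d` minors are
polynomials in `δ` with leading coefficient a Vandermonde determinant, so for all but finitely many
`δ` the vectors are in general position, and for small `δ` the strict inequalities persist. FA with
`ε` (any `0 < ε < M/d`) gives `A`; replace `u x` by `A (u x) / |A (u x)|` and `v y` by
` (A^T)^{-1} (v y)` normalized (`v y ≠ 0` by strictness): unit vectors with the same signs. Then
`∑_{x,y} sg (ip x y) <u x, v y> ≥ ∑_{x,y} <u x, v y>^2 ≥ M (M/d - ε)` (since `|<u,v>| ≤ 1`), and on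
the other side, with ` (M x M)` matrix `H = sg (ip x y)`, `H^T H = M`, Cauchy-Schwarz coordinatewise:
`∑_{x,y} H_{xy} <u x, v y> ≤ √M * √(∑ |u x|^2) √(∑ |v y|^2) = M √M`. Let `ε → 0`:
`M/d ≤ √M`, i.e. `2^m ≤ d^2`. -/
def T_FB : Prop :=
  ∀ (m d : ℕ) (u v : (Fin m → Bool) → EuclideanSpace ℝ (Fin d)),
    (∀ x y, 0 < sg (ip x y) * inner ℝ (u x) (v y)) → 2 ^ m ≤ d ^ 2

/-- FC (from FB). The inner product has no small circuits of type (b).
Proof. Points of `Fin 2 × Fin m → Bool` are pairs of words ` (x, y)`, `gip (x, y) = ip x y`. Every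
`h i` of a symmetric gate `g` depends on at most one bit, so on `x` only or on `y` only; hence
`#{i | h i} = α x + β y` with `α x ≤ s` and `[g] = ∑_{c ≤ s} [α x = c] [σ (c + β y)]`: a sum of
`s + 1` products. So `ip` is true iff `t ≤ ∑_{j < r (s+1)} p_j x * q_j y`. Adding one coordinate
`δ - t` (`δ > 0` smaller than all positive numbers `t - ∑ ...`) and changing signs gives vectors of
dimension `r (s+1) + 1` with `0 < sg (ip x y) * <u x, v y>` (note `sg = -1` for true). Pad with zeros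
to dimension `s (s+1) + 1`. -/
def T_FC : Prop :=
  ∀ (m s : ℕ), ThrOf (SymOf (Junta 1) s) s (gip : (Fin 2 × Fin m → Bool) → Bool) →
    2 ^ m ≤ (s * (s + 1) + 1) ^ 2

/-! ### Numerics -/

/-- CB. `1 - cc (K+1) ≥ (1 - cc K) / 4` (as `1 - cc(K+1)^2 = (1 - cc K)/2` and
`1 - c^2 = (1-c)(1+c) ≤ 2 (1-c)` for `c ≤ 1`), so `cc K ≤ 1 - 2 / 4^K`. -/
def T_CB : Prop := ∀ K : ℕ, -1 ≤ cc K ∧ cc K ≤ 1 - 2 / 4 ^ K ∧ (1 ≤ K → 0 ≤ cc K)

/-- NC (from CB). Numerical conditions for type (c), `K = 2 h / 5`, `m = 2^h`, `s = 2^l`: for `k`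
large (`k = 60` is enough) `l ^ k ≤ 200 K 4^h` gives `l ≤ 2^(h/20)` for large `h`, while
` (6s+2)((s+1)^K cc K^m) ≤ 2^(l+3) 2^((l+1) K) exp(-2 m / 4^K)` with
`m / 4^K ≥ 2^(h/5)`, and
` (6s+2)(m+1) √((1 - 2^(1-K))^m) ≤ 2^(l+3) 2^(h+1) exp(-m / 2^K)` with `m / 2^K ≥ 2^(3h/5)`.
`Nat.log 2 N / 6 ≤ (2 h + log (200 K)) / 6 ≤ K - 1` for large `h`. -/
def T_NC : Prop :=
  ∃ k h0 : ℕ, ∀ h ≥ h0, ∀ N l : ℕ, N ≤ 200 * (2 * h / 5) * 4 ^ h → l ^ k ≤ N →
    2 ≤ 2 * h / 5 ∧ Nat.log 2 N / 6 ≤ 2 * h / 5 - 1 ∧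
    ((6 * 2 ^ l + 2 : ℕ) : ℝ) *
      (((2 ^ l : ℕ) + 1) ^ (2 * h / 5) * cc (2 * h / 5) ^ (2 ^ h)) < 1 ∧
    ((6 * 2 ^ l + 2 : ℕ) : ℝ) * (((2 ^ h : ℕ) + 1) *
      Real.sqrt ((1 - (1 / 2) ^ (2 * h / 5 - 1)) ^ (2 ^ h))) < 1

/-- ND (from CB). Numerical conditions for type (d), `K = 2 h / 5`, `m = b = 2^h`, `s = 2^l`: for `k`
large (`k = 1000` is enough) `k l ≤ (log N)^2 ≤ (4 h + log (200 K))^2` gives `l ≤ h^2 / 40` for large
`h`; the first two inequalities as in NC (now `l K` is polynomial in `h`), and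
`s s 2^K < 2^(h K)` since `2 l + K < h K`. -/
def T_ND : Prop :=
  ∃ k h0 : ℕ, ∀ h ≥ h0, ∀ N l : ℕ, N ≤ 200 * (2 * h / 5) * 4 ^ (h + h) →
    k * l ≤ Nat.log 2 N ^ 2 →
    2 ≤ 2 * h / 5 ∧ 2 ^ l * 2 ^ l * 2 ^ (2 * h / 5 - 1 + 1) < (2 ^ h) ^ (2 * h / 5 - 1 + 1) ∧
    ((6 * 2 ^ l + 2 : ℕ) : ℝ) *
      (((2 ^ l : ℕ) + 1) ^ (2 * h / 5) * cc (2 * h / 5) ^ (2 ^ h)) < 1 ∧
    ((6 * 2 ^ l + 2 : ℕ) : ℝ) * (((2 ^ h : ℕ) + 1) *
      Real.sqrt ((1 - (1 / 2) ^ (2 * h / 5 - 1)) ^ (2 ^ h))) < 1

/-- NB. Numerical condition for type (b): for `k = 4`, say, `l^4 ≤ 400 * 4^h` gives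
`l ≤ 5 * 2^(h/2)`, and ` (2^l (2^l + 1) + 1)^2 ≤ 2^(4 l + 4) < 2^(2^h)`. -/
def T_NB : Prop :=
  ∃ k h0 : ℕ, ∀ h ≥ h0, ∀ N l : ℕ, N ≤ 200 * 2 * 4 ^ h → l ^ k ≤ N →
    (2 ^ l * (2 ^ l + 1) + 1) ^ 2 < 2 ^ (2 ^ h)

end Pool.Agent.Helper99.TH
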