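import Mathlib
import Pool.Agent.Helper99.TH.St

/-!
# Project TH: a set that agrees with SAT on all long words has no small threshold circuits
-/

namespace Pool.Agent.Helper99.TH

open Pool.Agent.Helper70.AC Pool.Agent.Helper72

/-- the slice of a set that agrees with SAT on long words, composed with an encoding of `f` -/
theorem slice_comp {ι : Type} {N n0 : ℕ} {S : Set (List Bool)}
    (hS : ∀ z : List Bool, n0 ≤ z.length → (z ∈ S ↔ z ∈ SAT)) (hN : n0 ≤ N)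
    {π : (ι → Bool) → Fin N → Bool} {f : (ι → Bool) → Bool}
    (hf : ∀ x, List.ofFn (π x) ∈ SAT ↔ f x = true) : (fun x => slice S N (π x)) = f := by
  classical
  funext x
  have h3 : List.ofFn (π x) ∈ S ↔ f x = true := by
    rw [hS _ (by simpa using hN), hf]
  unfold slice
  by_cases hx : f x = true
  · rw [hx, decide_eq_true (h3.2 hx)]
  · rw [decide_eq_false (fun hc => hx (h3.1 hc))]
    simpa using hx

theorem gpar_one {K m : ℕ} (y : Fin K × Fin m → Bool) :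
    gpar (b := 2 ^ 0) (fun p : (Fin K × Fin m) × Fin (2 ^ 0) => y p.1) = gip y := by
  unfold gpar
  congr 1
  funext p
  cases h : y p <;> simp [h]

/-- encoding of `gip` -/
theorem encode_gip (hEN : T_EN) (K h : ℕ) (hK : 1 ≤ K) :
    ∃ (N : ℕ) (π : (Fin K × Fin (2 ^ h) → Bool) → Fin N → Bool), 2 ^ h ≤ N ∧
      N ≤ 200 * K * 4 ^ h ∧ IsPr π ∧ ∀ x, List.ofFn (π x) ∈ SAT ↔ gip x = true := by
  obtain ⟨N, π, h1, h2, h3, h4⟩ := hEN K h 0 hK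
  refine ⟨N, fun y => π (fun p => y p.1), h1, by simpa using h2, fun j => ?_, fun y => ?_⟩
  · rcases h3 j with ⟨b, hb⟩ | ⟨i, hi⟩ | ⟨i, hi⟩
    · exact Or.inl ⟨b, fun x => hb _⟩
    · exact Or.inr (Or.inl ⟨i.1, fun x => hi _⟩)
    · exact Or.inr (Or.inr ⟨i.1, fun x => hi _⟩)
  · rw [h4, gpar_one]

theorem monoC {ι : Type} {k k' s : ℕ} (hk : k ≤ k') [Fintype ι] {f : (ι → Bool) → Bool}
    (h : MajOf (fun g => ThrGate g ∨ SymOf (Junta k) s g) s f) :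
    MajOf (fun g => ThrGate g ∨ SymOf (Junta k') s g) s f := by
  obtain ⟨r, hr, g, hg, hf⟩ := h
  refine ⟨r, hr, g, fun i => ?_, hf⟩
  rcases hg i with h1 | ⟨r', hr', σ, h', hh, hgg⟩
  · exact Or.inl h1
  · refine Or.inr ⟨r', hr', σ, h', fun j => ?_, hgg⟩
    obtain ⟨T, hT, hT'⟩ := hh j
    exact ⟨T, hT.trans hk, hT'⟩

theorem isPr_of_isProj {n m : ℕ} {π : (Fin n → Bool) → Fin m → Bool} (h : IsProj π) : IsPr π := h

theorem typeA_hard (hPR : T_PR) (hPH : T_PH) {S : Set (List Bool)} {n0 : ℕ}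
    (hS : ∀ z : List Bool, n0 ≤ z.length → (z ∈ S ↔ z ∈ SAT)) (d : ℕ) : ¬ SubExp (TypeA d) S := by
  intro h
  obtain ⟨k, n1, h1⟩ := hPH d
  obtain ⟨n2, h2⟩ := h k
  set n := n0 + n1 + n2 with hn
  obtain ⟨m, π, hnm, hm, hπ, hx⟩ := sat_encodes_par n
  obtain ⟨l, hl, hC⟩ := h2 m (by omega)
  refine h1 n (by omega) l (hl.trans (hm.trans ?_)) ?_
  · exact Nat.mul_le_mul_right _ (by norm_num)
  · have h3 := (hPR.2.2.2.2 (Fin n) (Fin m) π (AC m d (2 ^ l)) (AC n d (2 ^ l))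
      (fun g hg => hPR.1 n m π (isPr_of_isProj hπ) d (2 ^ l) g hg) (2 ^ l) (slice S m)).2.2 hC
    rwa [slice_comp hS (by omega) hx] at h3

theorem typeB_hard (hPR : T_PR) (hEN : T_EN) (hFC : T_FC) (hNB : T_NB) {S : Set (List Bool)}
    {n0 : ℕ} (hS : ∀ z : List Bool, n0 ≤ z.length → (z ∈ S ↔ z ∈ SAT)) : ¬ SubExp TypeB S := by
  intro h
  obtain ⟨k, h0, h1⟩ := hNB
  obtain ⟨n2, h2⟩ := h k
  set n := h0 + n0 + n2 with hn
  obtain ⟨N, π, hnm, hm, hπ, hx⟩ := encode_gip hEN 2 n (by norm_num)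
  have hlt : n < 2 ^ n := Nat.lt_two_pow_self
  obtain ⟨l, hl, hC⟩ := h2 N (by omega)
  have h3 := (hPR.2.2.2.2 _ (Fin N) π (SymOf (Junta 1) (2 ^ l)) (SymOf (Junta 1) (2 ^ l))
      (fun g hg => (hPR.2.2.2.2 _ (Fin N) π (Junta 1) (Junta 1)
        (fun g' hg' => hPR.2.1 _ _ π hπ 1 g' hg') (2 ^ l) g).1 hg) (2 ^ l) (slice S N)).2.2 hC
  rw [slice_comp hS (by omega) hx] at h3
  have h4 := hFC (2 ^ n) (2 ^ l) h3
  have h5 := h1 n (by omega) N l hm hl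
  omega

theorem typeC_hard (hPR : T_PR) (hEN : T_EN) (hMH : T_MH) (hNC : T_NC) {S : Set (List Bool)}
    {n0 : ℕ} (hS : ∀ z : List Bool, n0 ≤ z.length → (z ∈ S ↔ z ∈ SAT)) : ¬ SubExp TypeC S := by
  intro h
  obtain ⟨k, h0, h1⟩ := hNC
  obtain ⟨n2, h2⟩ := h k
  set n := h0 + n0 + n2 + 5 with hn
  have hK : 1 ≤ 2 * n / 5 := by omega
  obtain ⟨N, π, hnm, hm, hπ, hx⟩ := encode_gip hEN (2 * n / 5) n hK
  have hlt : n < 2 ^ n := Nat.lt_two_pow_self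
  obtain ⟨l, hl, hC⟩ := h2 N (by omega)
  obtain ⟨a1, a2, a3, a4⟩ := h1 n (by omega) N l hm hl
  have h3 := (hPR.2.2.2.2 _ (Fin N) π
      (fun g => ThrGate g ∨ SymOf (Junta (Nat.log 2 N / 6)) (2 ^ l) g)
      (fun g => ThrGate g ∨ SymOf (Junta (Nat.log 2 N / 6)) (2 ^ l) g)
      (fun g hg => by
        rcases hg with hg | hg
        · exact Or.inl (hPR.2.2.2.1 _ _ π hπ g hg)
        · exact Or.inr ((hPR.2.2.2.2 _ (Fin N) π (Junta _) (Junta _)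
            (fun g' hg' => hPR.2.1 _ _ π hπ _ g' hg') (2 ^ l) g).1 hg)) (2 ^ l)
      (slice S N)).2.1 hC
  rw [slice_comp hS (by omega) hx] at h3
  exact hMH (2 * n / 5) (2 ^ n) (2 ^ l) a1 (by exact_mod_cast a3) (by exact_mod_cast a4)
    (monoC a2 h3)

theorem typeD_hard (hPR : T_PR) (hEN : T_EN) (hMH : T_MH) (hRR : T_RR) (hND : T_ND)
    {S : Set (List Bool)} {n0 : ℕ}
    (hS : ∀ z : List Bool, n0 ≤ z.length → (z ∈ S ↔ z ∈ SAT)) : ¬ QuasiPoly TypeD S := by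
  intro h
  obtain ⟨k, h0, h1⟩ := hND
  obtain ⟨n2, h2⟩ := h k
  set n := h0 + n0 + n2 + 5 with hn
  have hK : 1 ≤ 2 * n / 5 := by omega
  obtain ⟨N, π, hnm, hm, hπ, hx⟩ := hEN (2 * n / 5) n n hK
  have hlt : n < 2 ^ n := Nat.lt_two_pow_self
  obtain ⟨l, hl, hC⟩ := h2 N (by omega)
  obtain ⟨a1, a2, a3, a4⟩ := h1 n (by omega) N l hm hl
  have h3 := (hPR.2.2.2.2 _ (Fin N) π
      (fun g => ThrGate g ∨ SymOf IsAnd (2 ^ l) g) (fun g => ThrGate g ∨ SymOf IsAnd (2 ^ l) g)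
      (fun g hg => by
        rcases hg with hg | hg
        · exact Or.inl (hPR.2.2.2.1 _ _ π hπ g hg)
        · exact Or.inr ((hPR.2.2.2.2 _ (Fin N) π IsAnd IsAnd
            (fun g' hg' => hPR.2.2.1 _ _ π hπ g' hg') (2 ^ l) g).1 hg)) (2 ^ l)
      (slice S N)).2.1 hC
  rw [slice_comp hS (by omega) hx] at h3
  have h4 := hRR (2 * n / 5) (2 ^ n) (2 ^ n) (2 * n / 5 - 1) (2 ^ l) (by omega) a2 h3
  exact hMH (2 * n / 5) (2 ^ n) (2 ^ l) a1 (by exact_mod_cast a3) (by exact_mod_cast a4) h4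

end Pool.Agent.Helper99.TH
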