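import Mathlib
import Pool.Agent.Helper99.TH.St

/-!
Module AP: approximation of formulas of small depth by real functions of low degree.
-/

namespace Pool.Agent.Helper99.TH

open Pool.Agent.Helper70.AC Pool.Agent.Helper72 Finset

theorem AP_pos {n d s : ℕ} {f : (Fin n → Bool) → Bool} (h : AC n d s f) : 1 ≤ s := by
  induction h with
  | const b => exact le_rfl
  | input i => exact le_rfl
  | neg _ ih => exact ih
  | conj s f _ _ => exact Nat.le_add_left _ _
  | disj s f _ _ => exact Nat.le_add_left _ _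
  | weaken d' s' hd hs _ ih => exact ih.trans hs

theorem AP_sub_one {n D : ℕ} {P : (Fin n → Bool) → ℝ} (hP : P ∈ B3.LF ℝ n D) :
    (fun x => 1 - P x) ∈ B3.LF ℝ n D :=
  (B3.LF ℝ n D).sub_mem (B3.LF_const D 1) hP

theorem AP_sum_mem {n D : ℕ} {ι : Type*} (s : Finset ι) {f : ι → (Fin n → Bool) → ℝ}
    (hf : ∀ i ∈ s, f i ∈ B3.LF ℝ n D) : (fun x => ∑ i ∈ s, f i x) ∈ B3.LF ℝ n D := by
  have h : (fun x => ∑ i ∈ s, f i x) = ∑ i ∈ s, f i := by
    funext x
    rw [Finset.sum_apply]
  rw [h]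
  exact (B3.LF ℝ n D).sum_mem hf

theorem AP_be_sub (b : Bool) : 1 - B3.be ℝ b = B3.be ℝ (!b) := by
  cases b <;> simp [B3.be]

/-- errors of a family of approximations -/
theorem AP_union {n k L : ℕ} (s : Fin k → ℕ) (f : Fin k → (Fin n → Bool) → Bool)
    (P : Fin k → (Fin n → Bool) → ℝ)
    (h : ∀ i, 2 ^ L * (univ.filter (fun x => P i x ≠ B3.be ℝ (f i x))).card ≤ s i * 2 ^ n)
    (Bad : Finset (Fin n → Bool)) (hBad : 2 ^ L * Bad.card ≤ 2 ^ n) (A : Finset (Fin n → Bool))
    (hA : ∀ x ∈ A, x ∉ Bad → ∃ i, P i x ≠ B3.be ℝ (f i x)) :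
    2 ^ L * A.card ≤ ((∑ i, s i) + 1) * 2 ^ n := by
  classical
  have h1 : A ⊆ Bad ∪ Finset.univ.biUnion
      (fun i => Finset.univ.filter (fun x => P i x ≠ B3.be ℝ (f i x))) := by
    intro x hx
    by_cases hb : x ∈ Bad
    · exact Finset.mem_union_left _ hb
    · obtain ⟨i, hi⟩ := hA x hx hb
      refine Finset.mem_union_right _ (Finset.mem_biUnion.2 ⟨i, Finset.mem_univ _, ?_⟩)
      simpa using hi
  have h2 : A.card ≤ Bad.card + ∑ i, (Finset.univ.filter (fun x => P i x ≠ B3.be ℝ (f i x))).card :=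
    (Finset.card_le_card h1).trans ((Finset.card_union_le _ _).trans
      (Nat.add_le_add_left Finset.card_biUnion_le _))
  calc 2 ^ L * A.card
      ≤ 2 ^ L * (Bad.card + ∑ i, (Finset.univ.filter (fun x => P i x ≠ B3.be ℝ (f i x))).card) :=
        Nat.mul_le_mul_left _ h2
    _ = 2 ^ L * Bad.card +
        ∑ i, 2 ^ L * (Finset.univ.filter (fun x => P i x ≠ B3.be ℝ (f i x))).card := by
        rw [mul_add, Finset.mul_sum]
    _ ≤ 2 ^ n + ∑ i, s i * 2 ^ n := Nat.add_le_add hBad (Finset.sum_le_sum fun i _ => h i)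
    _ = ((∑ i, s i) + 1) * 2 ^ n := by rw [add_mul, Finset.sum_mul]; ring

theorem AP_neg {n D s L : ℕ} {f : (Fin n → Bool) → Bool}
    (ih : ∃ P ∈ B3.LF ℝ n D,
      2 ^ L * (univ.filter (fun x => P x ≠ B3.be ℝ (f x))).card ≤ s * 2 ^ n) :
    ∃ P ∈ B3.LF ℝ n D,
      2 ^ L * (univ.filter (fun x => P x ≠ B3.be ℝ (!(f x)))).card ≤ s * 2 ^ n := by
  obtain ⟨P, hP, hE⟩ := ih
  refine ⟨fun x => 1 - P x, AP_sub_one hP, ?_⟩
  refine le_trans (Nat.mul_le_mul_left _ (Finset.card_le_card ?_)) hE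
  intro x hx
  simp only [Finset.mem_filter, Finset.mem_univ, true_and] at hx ⊢
  intro h
  apply hx
  rw [h, AP_be_sub]

theorem AP_disj (hiso : T_ISO) {n k d l L : ℕ} (s : Fin k → ℕ)
    (f : Fin k → (Fin n → Bool) → Bool) (hk : k ≤ 2 ^ l)
    (ih : ∀ i, ∃ P ∈ B3.LF ℝ n ((L * (l + 4)) ^ d),
      2 ^ L * (univ.filter (fun x => P x ≠ B3.be ℝ (f i x))).card ≤ s i * 2 ^ n) :
    ∃ P ∈ B3.LF ℝ n ((L * (l + 4)) ^ (d + 1)),
      2 ^ L * (univ.filter (fun x => P x ≠ B3.be ℝ (decide (∃ i, f i x = true)))).card ≤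
        ((∑ i, s i) + 1) * 2 ^ n := by
  classical
  choose P hP hE using ih
  let A : (Fin n → Bool) → Finset (Fin k) := fun x => univ.filter (fun i => f i x = true)
  let X : Finset (Fin n → Bool) := univ.filter (fun x => (A x).Nonempty)
  obtain ⟨S, hS⟩ := hiso (Fin n → Bool) k l L hk X A
    (fun x hx => (Finset.mem_filter.1 hx).2)
  refine ⟨fun x => 1 - ∏ t : Fin L, ∏ j : Fin (l + 4), (1 - ∑ i ∈ S t j, P i x), ?_, ?_⟩
  · refine AP_sub_one ?_
    have h1 : ∀ (t : Fin L) (j : Fin (l + 4)),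
        (fun x => 1 - ∑ i ∈ S t j, P i x) ∈ B3.LF ℝ n ((L * (l + 4)) ^ d) := fun t j =>
      AP_sub_one (AP_sum_mem (S t j) fun i _ => hP i)
    have h2 : ∀ t : Fin L, (fun x => ∏ j : Fin (l + 4), (1 - ∑ i ∈ S t j, P i x)) ∈
        B3.LF ℝ n ((univ : Finset (Fin (l + 4))).card * (L * (l + 4)) ^ d) := fun t =>
      B3.LF_prod (Finset.univ : Finset (Fin (l + 4))) fun j _ => h1 t j
    have h3 := B3.LF_prod (Finset.univ : Finset (Fin L)) fun t _ => h2 t
    refine B3.LF_mono (le_of_eq ?_) h3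
    simp only [Finset.card_univ, Fintype.card_fin]
    ring
  · have hXle : X.card ≤ 2 ^ n := by
      refine (Finset.card_le_univ X).trans (le_of_eq ?_)
      simp
    refine AP_union s f P hE (X.filter (fun x => ∀ t j, ((A x) ∩ (S t j)).card ≠ 1))
      (hS.trans hXle) _ ?_
    intro x hx hbad
    by_contra hcon
    push Not at hcon
    have hx' : 1 - ∏ t : Fin L, ∏ j : Fin (l + 4), (1 - ∑ i ∈ S t j, P i x) ≠
        B3.be ℝ (decide (∃ i, f i x = true)) := by simpa using hx
    have hsum : ∀ (t : Fin L) (j : Fin (l + 4)),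
        ∑ i ∈ S t j, P i x = (((A x) ∩ (S t j)).card : ℝ) := by
      intro t j
      have e1 : (A x) ∩ (S t j) = (S t j).filter (fun i => f i x = true) := by
        ext i
        simp [A, and_comm]
      rw [e1, Finset.card_filter]
      push_cast
      refine Finset.sum_congr rfl fun i _ => ?_
      rw [hcon i]
      rfl
    by_cases hex : ∃ i, f i x = true
    · have hxX : x ∈ X := by
        obtain ⟨i, hi⟩ := hex
        exact Finset.mem_filter.2 ⟨Finset.mem_univ _, ⟨i, by simp [A, hi]⟩⟩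
      have h1 : ∃ t j, ((A x) ∩ (S t j)).card = 1 := by
        by_contra hno
        push Not at hno
        exact hbad (Finset.mem_filter.2 ⟨hxX, hno⟩)
      obtain ⟨t, j, htj⟩ := h1
      apply hx'
      have h2 : ∏ t : Fin L, ∏ j : Fin (l + 4), (1 - ∑ i ∈ S t j, P i x) = 0 := by
        refine Finset.prod_eq_zero (Finset.mem_univ t) ?_
        refine Finset.prod_eq_zero (Finset.mem_univ j) ?_
        rw [hsum t j, htj]
        simp
      rw [h2, decide_eq_true hex]
      simp [B3.be]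
    · apply hx'
      have hA : A x = ∅ := by
        refine Finset.filter_eq_empty_iff.2 fun i _ hi => hex ⟨i, hi⟩
      have h2 : ∏ t : Fin L, ∏ j : Fin (l + 4), (1 - ∑ i ∈ S t j, P i x) = 1 := by
        refine Finset.prod_eq_one fun t _ => Finset.prod_eq_one fun j _ => ?_
        rw [hsum t j, hA]
        simp
      rw [h2, decide_eq_false hex]
      simp [B3.be]

theorem t_AP (h : T_ISO) : T_AP := by
  classical
  intro n d s f hf l L hs hL
  have hpos : 1 ≤ L * (l + 4) := Nat.mul_pos hL (by omega)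
  induction hf with
  | const b =>
    refine ⟨fun _ => B3.be ℝ b, B3.LF_const _ _, ?_⟩
    simp
  | input i =>
    refine ⟨fun x => B3.be ℝ (x i), B3.LF_input (by simp) i, ?_⟩
    simp
  | neg _ ih => exact AP_neg (ih hs)
  | @conj d k s f hh ih =>
    have hsi : ∀ i, s i ≤ 2 ^ l := fun i =>
      (Finset.single_le_sum (f := s) (fun _ _ => Nat.zero_le _) (Finset.mem_univ i)).trans
        ((Nat.le_succ _).trans hs)
    have hk : k ≤ 2 ^ l := by
      have h1 : k ≤ ∑ i, s i := by
        have h2 : ∑ i : Fin k, 1 ≤ ∑ i, s i := Finset.sum_le_sum fun i _ => AP_pos (hh i)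
        simpa using h2
      omega
    have h2 := AP_disj h s (fun i x => !(f i x)) hk (fun i => AP_neg (ih i (hsi i)))
    obtain ⟨P, hP, hE⟩ := AP_neg h2
    refine ⟨P, hP, ?_⟩
    have hfe : ∀ x, decide (∀ i, f i x = true) = !decide (∃ i, (!f i x) = true) := by
      intro x
      by_cases hall : ∀ i, f i x = true
      · have : ¬ ∃ i, (!(f i x)) = true := by
          rintro ⟨i, hi⟩
          rw [hall i] at hi
          simp at hi
        rw [decide_eq_true hall, decide_eq_false this]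
        rfl
      · have : ∃ i, (!(f i x)) = true := by
          push Not at hall
          obtain ⟨i, hi⟩ := hall
          exact ⟨i, by simpa using hi⟩
        rw [decide_eq_false hall, decide_eq_true this]
        rfl
    refine le_trans (Nat.mul_le_mul_left _ (Finset.card_le_card ?_)) hE
    intro x hx
    simp only [Finset.mem_filter, Finset.mem_univ, true_and] at hx ⊢
    rw [← hfe x]
    exact hx
  | @disj d k s f hh ih =>
    have hsi : ∀ i, s i ≤ 2 ^ l := fun i =>
      (Finset.single_le_sum (f := s) (fun _ _ => Nat.zero_le _) (Finset.mem_univ i)).trans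
        ((Nat.le_succ _).trans hs)
    have hk : k ≤ 2 ^ l := by
      have h1 : k ≤ ∑ i, s i := by
        have h2 : ∑ i : Fin k, 1 ≤ ∑ i, s i := Finset.sum_le_sum fun i _ => AP_pos (hh i)
        simpa using h2
      omega
    exact AP_disj h s f hk (fun i => ih i (hsi i))
  | weaken d' s' hd hs' _ ih =>
    obtain ⟨P, hP, hE⟩ := ih (hs'.trans hs)
    exact ⟨P, B3.LF_mono (Nat.pow_le_pow_right hpos hd) hP,
      hE.trans (Nat.mul_le_mul_right _ hs')⟩

end Pool.Agent.Helper99.TH
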