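import Pool.Agent.Helper99.TH.St

/-!
# Project TH, module BN: discrepancy of the generalized inner product
-/

namespace Pool.Agent.Helper99.TH

open Pool.Agent.Helper70.AC Pool.Agent.Helper72 Finset

theorem BN_cc_bd (K : ℕ) : -1 ≤ cc K ∧ cc K ≤ 1 := by
  induction K with
  | zero => simp only [cc]; constructor <;> norm_num
  | succ K ih =>
    simp only [cc]
    constructor
    · exact le_trans (by norm_num) (Real.sqrt_nonneg _)
    · rw [Real.sqrt_le_one]
      linarith [ih.2]

theorem BN_cc_sq (K : ℕ) : cc (K + 1) ^ 2 = (1 + cc K) / 2 := by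
  simp only [cc]
  exact Real.sq_sqrt (by linarith [(BN_cc_bd K).1])

theorem BN_cc_nonneg (K : ℕ) : 0 ≤ cc (K + 1) := by
  simp only [cc]
  exact Real.sqrt_nonneg _

/-- the sign function of a set of columns -/
noncomputable def BNG {K m : ℕ} (A : Finset (Fin m)) (x : Fin K → Fin m → Bool) : ℝ :=
  ∏ i ∈ A, if ∀ j, x j i = true then (-1 : ℝ) else 1

theorem BNG_mul {K m : ℕ} (A : Finset (Fin m)) (x' : Fin K → Fin m → Bool)
    (x0 y0 : Fin m → Bool) :
    BNG A (Fin.cons x0 x' : Fin (K + 1) → Fin m → Bool) *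
      BNG A (Fin.cons y0 x' : Fin (K + 1) → Fin m → Bool) =
      BNG (A.filter fun i => x0 i ≠ y0 i) x' := by
  unfold BNG
  rw [← Finset.prod_mul_distrib, Finset.prod_filter]
  refine Finset.prod_congr rfl fun i _ => ?_
  simp only [Fin.forall_fin_succ, Fin.cons_zero, Fin.cons_succ]
  by_cases hP : ∀ j, x' j i = true
  · cases hx : x0 i <;> cases hy : y0 i <;> simp [hP]
  · simp [hP]

theorem BN_sum_pow {m : ℕ} (A : Finset (Fin m)) (c : ℝ) (x0 : Fin m → Bool) :
    ∑ y0 : Fin m → Bool, c ^ (A.filter fun i => x0 i ≠ y0 i).card =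
      2 ^ m * ((1 + c) / 2) ^ A.card := by
  have h1 : ∀ y0 : Fin m → Bool, c ^ (A.filter fun i => x0 i ≠ y0 i).card =
      ∏ i : Fin m, (fun (i : Fin m) (b : Bool) =>
        if i ∈ A then (if x0 i ≠ b then c else 1) else (1 : ℝ)) i (y0 i) := by
    intro y0
    rw [← Finset.prod_const, Finset.prod_filter]
    simp only
    rw [Finset.prod_ite_mem, Finset.univ_inter]
  have h2 := Fintype.prod_sum (fun (i : Fin m) (b : Bool) =>
        if i ∈ A then (if x0 i ≠ b then c else 1) else (1 : ℝ))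
  rw [Finset.sum_congr rfl fun y0 _ => h1 y0, ← h2]
  have h3 : ∀ i : Fin m, (∑ b : Bool, if i ∈ A then (if x0 i ≠ b then c else 1) else (1 : ℝ)) =
      2 * if i ∈ A then (1 + c) / 2 else 1 := by
    intro i
    by_cases hi : i ∈ A
    · simp only [hi, if_true, Fintype.sum_bool]
      cases x0 i <;> simp <;> ring
    · simp only [hi, if_false, Fintype.sum_bool]
      norm_num
  rw [Finset.prod_congr rfl fun i _ => h3 i, Finset.prod_mul_distrib, Finset.prod_const,
    Finset.prod_ite_mem, Finset.univ_inter, Finset.prod_const]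
  simp

theorem BN_main (K m : ℕ) : ∀ (A : Finset (Fin m)) (φ : Fin K → (Fin K → Fin m → Bool) → ℝ),
    (∀ j x, |φ j x| ≤ 1) → (∀ j x y, (∀ k, k ≠ j → x k = y k) → φ j x = φ j y) →
    ∑ x, BNG A x * ∏ j, φ j x ≤ (2 ^ m) ^ K * cc K ^ A.card ∧
    (K ≠ 0 → |∑ x, BNG A x * ∏ j, φ j x| ≤ (2 ^ m) ^ K * cc K ^ A.card) := by
  induction K with
  | zero =>
    intro A φ _ _
    refine ⟨?_, fun h => absurd rfl h⟩
    simp [BNG, cc]
  | succ K ih =>
    intro A φ hb hi
    have hcard : (Fintype.card (Fin m → Bool) : ℝ) = 2 ^ m := by simp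
    set S := ∑ x, BNG A x * ∏ j, φ j x with hS
    -- decomposition
    let c : (Fin K → Fin m → Bool) → ℝ := fun x' => φ 0 (Fin.cons (fun _ => false) x')
    let T : (Fin K → Fin m → Bool) → ℝ := fun x' => ∑ x0 : Fin m → Bool,
      BNG A (Fin.cons x0 x' : Fin (K + 1) → Fin m → Bool) *
        ∏ j : Fin K, φ j.succ (Fin.cons x0 x')
    have hdec : S = ∑ x', c x' * T x' := by
      have e := Fintype.sum_equiv (Fin.consEquiv (fun _ : Fin (K + 1) => (Fin m → Bool)))
        (fun p => BNG A (Fin.cons p.1 p.2 : Fin (K + 1) → Fin m → Bool) *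
          ∏ j, φ j (Fin.cons p.1 p.2)) (fun x => BNG A x * ∏ j, φ j x) (fun p => rfl)
      rw [hS, ← e, Fintype.sum_prod_type_right]
      refine Finset.sum_congr rfl fun x' _ => ?_
      rw [Finset.mul_sum]
      refine Finset.sum_congr rfl fun x0 _ => ?_
      rw [Fin.prod_univ_succ]
      have h0 : φ 0 (Fin.cons x0 x') = c x' := by
        refine hi 0 _ _ fun k hk => ?_
        obtain ⟨k', rfl⟩ := Fin.exists_succ_eq.2 hk
        simp only [Fin.cons_succ]
      simp only at h0 ⊢
      rw [h0]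
      ring
    have hc : ∑ x', c x' ^ 2 ≤ (2 ^ m) ^ K := by
      calc ∑ x', c x' ^ 2 ≤ ∑ x' : Fin K → Fin m → Bool, (1 : ℝ) := by
            refine Finset.sum_le_sum fun x' _ => ?_
            have := hb 0 (Fin.cons (fun _ => false) x')
            rw [← sq_abs]
            exact pow_le_one₀ (abs_nonneg _) this
        _ = (2 ^ m) ^ K := by simp
    have hT : ∑ x', T x' ^ 2 ≤ (2 ^ m) ^ (K + 2) * ((1 + cc K) / 2) ^ A.card := by
      have h1 : ∑ x', T x' ^ 2 = ∑ x0 : Fin m → Bool, ∑ y0 : Fin m → Bool,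
          ∑ x', BNG (A.filter fun i => x0 i ≠ y0 i) x' *
            ∏ j : Fin K, (φ j.succ (Fin.cons x0 x') * φ j.succ (Fin.cons y0 x')) := by
        have h2 : ∀ x', T x' ^ 2 = ∑ x0 : Fin m → Bool, ∑ y0 : Fin m → Bool,
            BNG (A.filter fun i => x0 i ≠ y0 i) x' *
            ∏ j : Fin K, (φ j.succ (Fin.cons x0 x') * φ j.succ (Fin.cons y0 x')) := by
          intro x'
          rw [pow_two, Finset.sum_mul_sum]
          refine Finset.sum_congr rfl fun x0 _ => Finset.sum_congr rfl fun y0 _ => ?_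
          rw [← BNG_mul, Finset.prod_mul_distrib]
          ring
        rw [Finset.sum_congr rfl fun x' _ => h2 x', Finset.sum_comm]
        refine Finset.sum_congr rfl fun x0 _ => ?_
        rw [Finset.sum_comm]
      rw [h1]
      calc ∑ x0 : Fin m → Bool, ∑ y0 : Fin m → Bool,
          ∑ x', BNG (A.filter fun i => x0 i ≠ y0 i) x' *
            ∏ j : Fin K, (φ j.succ (Fin.cons x0 x') * φ j.succ (Fin.cons y0 x'))
          ≤ ∑ x0 : Fin m → Bool, ∑ y0 : Fin m → Bool,
            (2 ^ m) ^ K * cc K ^ (A.filter fun i => x0 i ≠ y0 i).card := by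
            refine Finset.sum_le_sum fun x0 _ => Finset.sum_le_sum fun y0 _ => ?_
            refine (ih _ (fun j x' => φ j.succ (Fin.cons x0 x') * φ j.succ (Fin.cons y0 x'))
              ?_ ?_).1
            · intro j x'
              rw [abs_mul]
              exact mul_le_one₀ (hb _ _) (abs_nonneg _) (hb _ _)
            · intro j x y hxy
              have hh : ∀ z0 : Fin m → Bool, φ j.succ (Fin.cons z0 x) = φ j.succ (Fin.cons z0 y) := by
                intro z0
                refine hi j.succ _ _ fun k hk => ?_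
                refine Fin.cases ?_ (fun k' hk' => ?_) k hk
                · intro _; simp only [Fin.cons_zero]
                · simp only [Fin.cons_succ]
                  exact hxy k' fun h => hk' (by rw [h])
              simp only [hh]
        _ = ∑ x0 : Fin m → Bool, (2 ^ m) ^ K * (2 ^ m * ((1 + cc K) / 2) ^ A.card) := by
            refine Finset.sum_congr rfl fun x0 _ => ?_
            rw [← Finset.mul_sum, BN_sum_pow]
        _ = (2 ^ m) ^ (K + 2) * ((1 + cc K) / 2) ^ A.card := by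
            rw [Finset.sum_const, Finset.card_univ, nsmul_eq_mul, hcard]
            ring
    have hsq : S ^ 2 ≤ ((2 ^ m) ^ (K + 1) * cc (K + 1) ^ A.card) ^ 2 := by
      calc S ^ 2 = (∑ x', c x' * T x') ^ 2 := by rw [hdec]
        _ ≤ (∑ x', c x' ^ 2) * ∑ x', T x' ^ 2 := Finset.sum_mul_sq_le_sq_mul_sq _ _ _
        _ ≤ (2 ^ m) ^ K * ((2 ^ m) ^ (K + 2) * ((1 + cc K) / 2) ^ A.card) :=
            mul_le_mul hc hT (Finset.sum_nonneg fun _ _ => sq_nonneg _) (by positivity)
        _ = ((2 ^ m) ^ (K + 1) * cc (K + 1) ^ A.card) ^ 2 := by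
            rw [← BN_cc_sq]
            ring
    have h0 : 0 ≤ (2 ^ m : ℝ) ^ (K + 1) * cc (K + 1) ^ A.card :=
      mul_nonneg (by positivity) (pow_nonneg (BN_cc_nonneg K) _)
    have habs := abs_le_of_sq_le_sq hsq h0
    exact ⟨(le_abs_self S).trans habs, fun _ => habs⟩

theorem BN_sg {K m : ℕ} (x : Fin K × Fin m → Bool) :
    sg (gip x) = BNG univ (fun j i => x (j, i)) := by
  unfold sg gip BNG
  rw [Finset.prod_ite, Finset.prod_const, Finset.prod_const_one, mul_one]
  by_cases h : Odd (univ.filter (fun i : Fin m => ∀ j : Fin K, x (j, i) = true)).card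
  · rw [h.neg_one_pow]; simp [h]
  · rw [(Nat.not_odd_iff_even.1 h).neg_one_pow]; simp [h]

theorem t_BN : T_BN := by
  intro K m hK φ hb hi
  let e : (Fin K × Fin m → Bool) ≃ (Fin K → Fin m → Bool) := Equiv.curry _ _ _
  have h1 := (BN_main K m univ (fun j x => φ j (e.symm x)) (fun j x => hb j _)
    (fun j x y hxy => hi j _ _ fun p hp => ?_)).2 (by omega)
  · have h2 : ∑ x, sg (gip x) * ∏ j, φ j x =
        ∑ x, BNG univ x * ∏ j, φ j (e.symm x) := by
      refine Fintype.sum_equiv e _ _ fun x => ?_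
      rw [BN_sg, Equiv.symm_apply_apply]
      rfl
    rw [h2]
    refine h1.trans (le_of_eq ?_)
    rw [← pow_mul, mul_comm m K, Finset.card_univ, Fintype.card_fin]
  · have := congrFun (hxy p.1 hp) p.2
    exact this

end Pool.Agent.Helper99.TH
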