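import Pool.Agent.Helper99.TH.St

/-!
# Project TH, module CB
-/

namespace Pool.Agent.Helper99.TH

open Finset

theorem t_CB : T_CB := by
  intro K
  induction K with
  | zero =>
    refine ⟨?_, ?_, ?_⟩
    · simp [cc]
    · simp [cc]; norm_num
    · intro h; omega
  | succ K ih =>
    obtain ⟨h1, h2, _⟩ := ih
    have hcc : cc (K + 1) = Real.sqrt ((1 + cc K) / 2) := rfl
    have h0 : 0 ≤ cc (K + 1) := by rw [hcc]; exact Real.sqrt_nonneg _
    refine ⟨by linarith, ?_, fun _ => h0⟩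
    have he : (0 : ℝ) < 2 / 4 ^ K := by positivity
    have he1 : (2 : ℝ) / 4 ^ K ≤ 2 := by
      rw [div_le_iff₀ (by positivity)]
      have : (1 : ℝ) ≤ 4 ^ K := one_le_pow₀ (by norm_num)
      linarith
    have he2 : (2 : ℝ) / 4 ^ (K + 1) = (2 / 4 ^ K) / 4 := by
      rw [pow_succ]; ring
    rw [hcc, he2]
    rw [Real.sqrt_le_left (by linarith)]
    nlinarith [sq_nonneg ((2 : ℝ) / 4 ^ K)]

end Pool.Agent.Helper99.TH
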