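import Pool.Agent.Helper99.TH.St
import Pool.Agent.Helper70.AC.B6

/-!
# Project TH, module EN (helper76): the satisfiability problem encodes `gpar` by a projection
-/

namespace Pool.Agent.Helper99.TH

open Pool.Agent.Helper70.AC Pool.Agent.Helper72 Finset

namespace EN

/-! ### Bits -/

/-- an output bit of a projection -/
inductive EBit (ι : Type)
  | const (b : Bool)
  | pos (i : ι)
  | neg (i : ι)

/-- the value of an output bit -/
def EBit.val {ι : Type} (x : ι → Bool) : EBit ι → Bool
  | const b => b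
  | pos i => x i
  | neg i => !(x i)

/-- the bits of the code of a fixed formula -/
def ec {ι : Type} (φ : BForm) : List (EBit ι) := φ.code.map EBit.const

theorem ec_val {ι : Type} (x : ι → Bool) (φ : BForm) :
    (ec φ).map (EBit.val x) = φ.code := by
  unfold ec
  rw [List.map_map]
  conv_rhs => rw [← List.map_id φ.code]
  rfl

/-- the bits of the code of `b6c (x i)` -/
def ecb {ι : Type} (i : ι) : List (EBit ι) :=
  [EBit.const true, EBit.pos i, EBit.neg i] ++
    (ec (BForm.var 0) ++ ec (BForm.neg (BForm.var 0)))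

theorem ecb_val {ι : Type} (x : ι → Bool) (i : ι) :
    (ecb i).map (EBit.val x) = (b6c (x i)).code := by
  unfold ecb b6c
  rw [a6op_code]
  simp only [List.map_append, ec_val, List.map_cons, List.map_nil, EBit.val]

theorem ecb_length {ι : Type} (i : ι) : (ecb i).length ≤ 12 := by
  have h := a6_var_length 0
  simp only [ecb, ec, List.length_map, List.length_append, List.length_cons,
    List.length_nil, b6_neg_length]
  omega

/-! ### Patterns -/

/-- formula patterns -/
inductive PF (ι : Type)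
  | bit (i : ι)
  | tt
  | neg (φ : PF ι)
  | conj (φ ψ : PF ι)
  | disj (φ ψ : PF ι)

variable {ι : Type}

/-- the instance of a pattern -/
def PF.inst (x : ι → Bool) : PF ι → BForm
  | bit i => b6c (x i)
  | tt => b6c true
  | neg φ => BForm.neg (φ.inst x)
  | conj φ ψ => BForm.conj (φ.inst x) (ψ.inst x)
  | disj φ ψ => BForm.disj (φ.inst x) (ψ.inst x)

/-- the value of a pattern -/
def PF.ev (x : ι → Bool) : PF ι → Bool
  | bit i => x i
  | tt => true
  | neg φ => !(φ.ev x)
  | conj φ ψ => φ.ev x && ψ.ev x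
  | disj φ ψ => φ.ev x || ψ.ev x

/-- the bits of the code of the instance -/
def PF.bits : PF ι → List (EBit ι)
  | bit i => ecb i
  | tt => ec (b6c true)
  | neg φ => [EBit.const true, EBit.const false, EBit.const false] ++ φ.bits
  | conj φ ψ => [EBit.const true, EBit.const false, EBit.const true] ++ (φ.bits ++ ψ.bits)
  | disj φ ψ => [EBit.const true, EBit.const true, EBit.const false] ++ (φ.bits ++ ψ.bits)

theorem inst_eval (x : ι → Bool) (w : ℕ → Bool) (φ : PF ι) : (φ.inst x).eval w = φ.ev x := by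
  induction φ with
  | bit i => exact b6c_eval _ w
  | tt => exact b6c_eval _ w
  | neg φ ih => simp only [PF.inst, PF.ev, BForm.eval, ih]
  | conj φ ψ ih1 ih2 => simp only [PF.inst, PF.ev, BForm.eval, ih1, ih2]
  | disj φ ψ ih1 ih2 => simp only [PF.inst, PF.ev, BForm.eval, ih1, ih2]

theorem bits_val (x : ι → Bool) (φ : PF ι) : φ.bits.map (EBit.val x) = (φ.inst x).code := by
  induction φ with
  | bit i => exact ecb_val x i
  | tt => exact ec_val x _
  | neg φ ih =>
    simp only [PF.bits, PF.inst, BForm.code, List.map_append, ih, List.map_cons, List.map_nil,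
      EBit.val]
  | conj φ ψ ih1 ih2 =>
    simp only [PF.bits, PF.inst, BForm.code, List.map_append, ih1, ih2, List.map_cons,
      List.map_nil, EBit.val]
  | disj φ ψ ih1 ih2 =>
    simp only [PF.bits, PF.inst, BForm.code, List.map_append, ih1, ih2, List.map_cons,
      List.map_nil, EBit.val]

/-- length of the code -/
def PF.len (φ : PF ι) : ℕ := φ.bits.length

theorem len_bit (i : ι) : (PF.bit i).len ≤ 12 := ecb_length i

theorem len_tt : (PF.tt : PF ι).len ≤ 12 := by
  have h := a6_var_length 0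
  show (ec (b6c true) : List (EBit ι)).length ≤ 12
  simp only [ec, b6c, a6op_code, List.length_map, List.length_append, List.length_cons,
    List.length_nil, b6_neg_length]
  omega

theorem len_bit_pos (i : ι) : 1 ≤ (PF.bit i).len := by
  show 1 ≤ (ecb i).length
  simp only [ecb, List.length_append, List.length_cons, List.length_nil]
  omega

theorem len_tt_pos : 1 ≤ (PF.tt : PF ι).len := by
  show 1 ≤ (ec (b6c true) : List (EBit ι)).length
  simp only [ec, b6c, a6op_code, List.length_map, List.length_append, List.length_cons,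
    List.length_nil]
  omega

theorem len_neg (φ : PF ι) : (PF.neg φ).len = 3 + φ.len := by
  show ([EBit.const true, EBit.const false, EBit.const false] ++ φ.bits).length = _
  simp only [List.length_append, List.length_cons, List.length_nil, PF.len]

theorem len_conj (φ ψ : PF ι) : (PF.conj φ ψ).len = 3 + φ.len + ψ.len := by
  show ([EBit.const true, EBit.const false, EBit.const true] ++ (φ.bits ++ ψ.bits)).length = _
  simp only [List.length_append, List.length_cons, List.length_nil, PF.len]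
  omega

theorem len_disj (φ ψ : PF ι) : (PF.disj φ ψ).len = 3 + φ.len + ψ.len := by
  show ([EBit.const true, EBit.const true, EBit.const false] ++ (φ.bits ++ ψ.bits)).length = _
  simp only [List.length_append, List.length_cons, List.length_nil, PF.len]
  omega

/-! ### Parities -/

/-- exclusive or -/
def X (φ ψ : PF ι) : PF ι := PF.disj (PF.conj φ (PF.neg ψ)) (PF.conj (PF.neg φ) ψ)

theorem X_ev (x : ι → Bool) (φ ψ : PF ι) : (X φ ψ).ev x = xor (φ.ev x) (ψ.ev x) := by
  simp only [X, PF.ev]
  cases φ.ev x <;> cases ψ.ev x <;> rfl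

theorem X_len (φ ψ : PF ι) : (X φ ψ).len = 15 + 2 * φ.len + 2 * ψ.len := by
  unfold X
  rw [len_disj, len_conj, len_conj, len_neg, len_neg]
  omega

/-- parity of `f i`, `o ≤ i < o + 2 ^ h` -/
def xt : ℕ → (ℕ → PF ι) → ℕ → PF ι
  | 0, f, o => f o
  | h + 1, f, o => X (xt h f o) (xt h f (o + 2 ^ h))

theorem odd_add_xor (a b : ℕ) : decide (Odd (a + b)) = xor (decide (Odd a)) (decide (Odd b)) := by
  rcases Nat.even_or_odd a with ha | ha <;> rcases Nat.even_or_odd b with hb | hb
  · rw [decide_eq_false (Nat.not_odd_iff_even.2 ha), decide_eq_false (Nat.not_odd_iff_even.2 hb),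
      decide_eq_false (Nat.not_odd_iff_even.2 (ha.add hb))]
    rfl
  · rw [decide_eq_false (Nat.not_odd_iff_even.2 ha), decide_eq_true hb,
      decide_eq_true (ha.add_odd hb)]
    rfl
  · rw [decide_eq_true ha, decide_eq_false (Nat.not_odd_iff_even.2 hb),
      decide_eq_true (ha.add_even hb)]
    rfl
  · rw [decide_eq_true ha, decide_eq_true hb,
      decide_eq_false (Nat.not_odd_iff_even.2 (ha.add_odd hb))]
    rfl

theorem xt_ev (x : ι → Bool) (f : ℕ → PF ι) (h : ℕ) : ∀ o : ℕ, (xt h f o).ev x =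
    decide (Odd (∑ i ∈ range (2 ^ h), if (f (o + i)).ev x = true then 1 else 0)) := by
  induction h with
  | zero =>
    intro o
    show (f o).ev x = _
    rw [pow_zero, Finset.sum_range_one, add_zero]
    cases (f o).ev x <;> rfl
  | succ h ih =>
    intro o
    show (X (xt h f o) (xt h f (o + 2 ^ h))).ev x = _
    rw [X_ev, ih, ih, ← odd_add_xor]
    have : 2 ^ (h + 1) = 2 ^ h + 2 ^ h := by ring
    rw [this, Finset.sum_range_add]
    simp only [add_assoc]

theorem xt_len_le (f : ℕ → PF ι) (L : ℕ) (hL : ∀ i, (f i).len ≤ L) (h : ℕ) : ∀ o : ℕ,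
    (xt h f o).len + 5 ≤ 4 ^ h * (L + 5) := by
  induction h with
  | zero =>
    intro o
    have := hL o
    show (f o).len + 5 ≤ _
    rw [pow_zero, one_mul]
    omega
  | succ h ih =>
    intro o
    show (X (xt h f o) (xt h f (o + 2 ^ h))).len + 5 ≤ _
    rw [X_len]
    have h1 := ih o
    have h2 := ih (o + 2 ^ h)
    have h3 : 4 ^ (h + 1) * (L + 5) = 4 * (4 ^ h * (L + 5)) := by ring
    rw [h3]
    omega

theorem xt_len_ge (f : ℕ → PF ι) (hL : ∀ i, 1 ≤ (f i).len) (h : ℕ) : ∀ o : ℕ,
    2 ^ h ≤ (xt h f o).len := by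
  induction h with
  | zero =>
    intro o
    rw [pow_zero]
    exact hL o
  | succ h ih =>
    intro o
    show _ ≤ (X (xt h f o) (xt h f (o + 2 ^ h))).len
    rw [X_len]
    have h1 := ih o
    have h2 := ih (o + 2 ^ h)
    have h3 : 2 ^ (h + 1) = 2 ^ h + 2 ^ h := by ring
    rw [h3]
    omega

/-- counting over `range n` and over `Fin n` -/
theorem count_range {n : ℕ} (hn : 0 < n) (F : Fin n → Bool) :
    (∑ i ∈ range n, if F ⟨(0 + i) % n, Nat.mod_lt _ hn⟩ = true then 1 else 0) =
      (univ.filter (fun i : Fin n => F i = true)).card := by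
  rw [Finset.sum_range, Finset.card_filter]
  apply Finset.sum_congr rfl
  intro i _
  have : (⟨(0 + (i : ℕ)) % n, Nat.mod_lt _ hn⟩ : Fin n) = i := by
    apply Fin.ext
    show (0 + (i : ℕ)) % n = i
    rw [zero_add, Nat.mod_eq_of_lt i.2]
  rw [this]

/-- parity over `Fin n`, `n = 2 ^ h` -/
def xf (h : ℕ) (f : Fin (2 ^ h) → PF ι) : PF ι :=
  xt h (fun i => f ⟨i % 2 ^ h, Nat.mod_lt _ (by positivity)⟩) 0

theorem xf_ev (x : ι → Bool) (h : ℕ) (f : Fin (2 ^ h) → PF ι) : (xf h f).ev x =
    decide (Odd (univ.filter (fun i : Fin (2 ^ h) => (f i).ev x = true)).card) := by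
  unfold xf
  rw [xt_ev]
  rw [count_range (by positivity) (fun i => (f i).ev x)]

/-- conjunction over a list -/
def cj {κ : Type} (f : κ → PF ι) : List κ → PF ι
  | [] => PF.tt
  | j :: l => PF.conj (f j) (cj f l)

theorem cj_ev {κ : Type} (x : ι → Bool) (f : κ → PF ι) (l : List κ) :
    (cj f l).ev x = true ↔ ∀ j ∈ l, (f j).ev x = true := by
  induction l with
  | nil => simp [cj, PF.ev]
  | cons j l ih =>
    have h : (cj f (j :: l)).ev x = ((f j).ev x && (cj f l).ev x) := rfl
    rw [h, Bool.and_eq_true, ih]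
    simp only [List.mem_cons, forall_eq_or_imp]

theorem cj_len {κ : Type} (f : κ → PF ι) (L : ℕ) (hL : ∀ j, (f j).len ≤ L) (l : List κ) :
    (cj f l).len ≤ l.length * (3 + L) + 12 := by
  induction l with
  | nil =>
    have := len_tt (ι := ι)
    show (PF.tt : PF ι).len ≤ _
    omega
  | cons j l ih =>
    show (PF.conj (f j) (cj f l)).len ≤ _
    rw [len_conj]
    have := hL j
    have h3 : (j :: l).length * (3 + L) = l.length * (3 + L) + (3 + L) := by
      rw [List.length_cons]; ring
    omega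

theorem cj_len_pos {κ : Type} (f : κ → PF ι) (l : List κ) : 1 ≤ (cj f l).len := by
  cases l with
  | nil => exact len_tt_pos
  | cons j l =>
    show 1 ≤ (PF.conj (f j) (cj f l)).len
    rw [len_conj]
    omega

/-- the parity of a block -/
def blk {K h g : ℕ} (p : Fin K × Fin (2 ^ h)) : PF ((Fin K × Fin (2 ^ h)) × Fin (2 ^ g)) :=
  xf g (fun c => PF.bit (p, c))

/-- the conjunction of a column -/
def col {K h g : ℕ} (i : Fin (2 ^ h)) : PF ((Fin K × Fin (2 ^ h)) × Fin (2 ^ g)) :=
  cj (fun j : Fin K => blk (j, i)) (List.finRange K)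

/-- the whole pattern -/
def all (K h g : ℕ) : PF ((Fin K × Fin (2 ^ h)) × Fin (2 ^ g)) := xf h col

theorem blk_ev {K h g : ℕ} (x : (Fin K × Fin (2 ^ h)) × Fin (2 ^ g) → Bool)
    (p : Fin K × Fin (2 ^ h)) : (blk p).ev x =
      decide (Odd (univ.filter (fun c : Fin (2 ^ g) => x (p, c) = true)).card) :=
  xf_ev x g _

theorem all_ev {K h g : ℕ} (x : (Fin K × Fin (2 ^ h)) × Fin (2 ^ g) → Bool) :
    (all K h g).ev x = gpar x := by
  unfold all
  rw [xf_ev]
  unfold gpar gip
  have : (univ.filter (fun i : Fin (2 ^ h) =>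
      (col i : PF ((Fin K × Fin (2 ^ h)) × Fin (2 ^ g))).ev x = true)) =
      univ.filter (fun i : Fin (2 ^ h) => ∀ j : Fin K,
        decide (Odd (univ.filter (fun c : Fin (2 ^ g) => x ((j, i), c) = true)).card) = true) := by
    ext i
    simp only [Finset.mem_filter, Finset.mem_univ, true_and]
    unfold col
    rw [cj_ev]
    constructor
    · intro h1 j
      rw [← blk_ev]
      exact h1 j (List.mem_finRange j)
    · intro h1 j _
      rw [blk_ev]
      exact h1 j
  rw [this]

theorem blk_len {K h g : ℕ} (p : Fin K × Fin (2 ^ h)) :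
    (blk p : PF ((Fin K × Fin (2 ^ h)) × Fin (2 ^ g))).len ≤ 17 * 4 ^ g := by
  have h1 := xt_len_le (fun i => (PF.bit (p, ⟨i % 2 ^ g, Nat.mod_lt _ (by positivity)⟩) :
    PF ((Fin K × Fin (2 ^ h)) × Fin (2 ^ g)))) 12 (fun i => len_bit _) g 0
  have h2 : (blk p : PF ((Fin K × Fin (2 ^ h)) × Fin (2 ^ g))).len + 5 ≤ 4 ^ g * (12 + 5) := h1
  omega

theorem all_len_le {K h g : ℕ} (hK : 1 ≤ K) : (all K h g).len ≤ 200 * K * 4 ^ (h + g) := by
  have h1 : ∀ i : Fin (2 ^ h), (col i : PF ((Fin K × Fin (2 ^ h)) × Fin (2 ^ g))).len ≤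
      K * (3 + 17 * 4 ^ g) + 12 := by
    intro i
    have := cj_len (fun j : Fin K => (blk (j, i) : PF ((Fin K × Fin (2 ^ h)) × Fin (2 ^ g))))
      (17 * 4 ^ g) (fun j => blk_len _) (List.finRange K)
    rwa [List.length_finRange] at this
  have h2 : (all K h g).len + 5 ≤ 4 ^ h * (K * (3 + 17 * 4 ^ g) + 12 + 5) :=
    xt_len_le (fun i => (col ⟨i % 2 ^ h, Nat.mod_lt _ (by positivity)⟩ :
      PF ((Fin K × Fin (2 ^ h)) × Fin (2 ^ g)))) _ (fun i => h1 _) h 0
  have h3 : 1 ≤ 4 ^ g := Nat.one_le_pow _ _ (by norm_num)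
  have h4 : K * (3 + 17 * 4 ^ g) + 12 + 5 ≤ 200 * K * 4 ^ g := by
    have h5 : 1 ≤ K * 4 ^ g := Nat.mul_pos hK h3
    have h6 : K ≤ K * 4 ^ g := Nat.le_mul_of_pos_right K h3
    have h7 : K * (3 + 17 * 4 ^ g) = 3 * K + 17 * (K * 4 ^ g) := by ring
    have h8 : 200 * K * 4 ^ g = 200 * (K * 4 ^ g) := by ring
    rw [h7, h8]
    omega
  have h5 : 4 ^ h * (K * (3 + 17 * 4 ^ g) + 12 + 5) ≤ 4 ^ h * (200 * K * 4 ^ g) :=
    Nat.mul_le_mul_left _ h4
  have h6 : 4 ^ h * (200 * K * 4 ^ g) = 200 * K * 4 ^ (h + g) := by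
    rw [pow_add]; ring
  omega

theorem all_len_ge {K h g : ℕ} : 2 ^ h ≤ (all K h g).len :=
  xt_len_ge (fun i => (col ⟨i % 2 ^ h, Nat.mod_lt _ (by positivity)⟩ :
      PF ((Fin K × Fin (2 ^ h)) × Fin (2 ^ g)))) (fun i => cj_len_pos _ _) h 0

end EN

open EN in
theorem t_EN : T_EN := by
  intro K h g hK
  refine ⟨(all K h g).bits.length, fun x j => EBit.val x ((all K h g).bits.get j),
    all_len_ge, all_len_le hK, ?_, ?_⟩
  · intro j
    show (∃ b, ∀ x, EBit.val x ((all K h g).bits.get j) = b) ∨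
      (∃ i, ∀ x, EBit.val x ((all K h g).bits.get j) = x i) ∨
      ∃ i, ∀ x, EBit.val x ((all K h g).bits.get j) = !(x i)
    cases (all K h g).bits.get j with
    | const b => exact Or.inl ⟨b, fun x => rfl⟩
    | pos i => exact Or.inr (Or.inl ⟨i, fun x => rfl⟩)
    | neg i => exact Or.inr (Or.inr ⟨i, fun x => rfl⟩)
  · intro x
    have hcode : List.ofFn (fun j => EBit.val x ((all K h g).bits.get j)) =
        ((all K h g).inst x).code := by
      rw [← bits_val]
      have : (fun j => EBit.val x ((all K h g).bits.get j)) =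
          EBit.val x ∘ (all K h g).bits.get := rfl
      rw [this, ← List.map_ofFn, List.ofFn_get]
    rw [hcode, ← all_ev]
    constructor
    · rintro ⟨φ, hφ, w, hw⟩
      rw [code_injective hφ, inst_eval] at hw
      exact hw
    · intro hx
      refine ⟨_, rfl, fun _ => true, ?_⟩
      rw [inst_eval]
      exact hx

end Pool.Agent.Helper99.TH
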