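import Pool.Agent.Helper99.TH.St

/-!
# Module FA: Forster's isotropic position (approximate version)

The potential `Φ A = ∑ log ‖A (u i)‖ - (m / d) log |det A|` is bounded from below (Hadamard's
inequality for the cyclic windows of `d` vectors), and at an approximate minimizer the vectors
`A (u i) / ‖A (u i)‖` are in approximate isotropic position: otherwise a stretching in one direction
decreases `Φ` by a fixed amount.
-/

namespace Pool.Agent.Helper99.TH

open Finset Module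

section
variable {d m : ℕ}

/-- the potential -/
noncomputable def FA_Phi (u : Fin m → EuclideanSpace ℝ (Fin d))
    (A : EuclideanSpace ℝ (Fin d) ≃ₗ[ℝ] EuclideanSpace ℝ (Fin d)) : ℝ :=
  ∑ i, Real.log ‖A (u i)‖ - (m : ℝ) / d * Real.log |LinearMap.det (A : EuclideanSpace ℝ (Fin d) →ₗ[ℝ] EuclideanSpace ℝ (Fin d))|

/-- Hadamard's inequality -/
theorem FA_had (A : EuclideanSpace ℝ (Fin d) →ₗ[ℝ] EuclideanSpace ℝ (Fin d))
    (v : Fin d → EuclideanSpace ℝ (Fin d)) :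
    |LinearMap.det A| * |(EuclideanSpace.basisFun (Fin d) ℝ).toBasis.det v| ≤ ∏ i, ‖A (v i)‖ := by
  have : Fact (finrank ℝ (EuclideanSpace ℝ (Fin d)) = d) := ⟨finrank_euclideanSpace_fin⟩
  let b := EuclideanSpace.basisFun (Fin d) ℝ
  let o : Orientation ℝ (EuclideanSpace ℝ (Fin d)) (Fin d) := b.toBasis.orientation
  have h1 := o.abs_volumeForm_apply_le (A ∘ v)
  rw [o.volumeForm_robust' b, Basis.det_comp, abs_mul] at h1
  exact h1

theorem FA_det_ne (v : Fin d → EuclideanSpace ℝ (Fin d)) (hv : LinearIndependent ℝ v) :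
    (EuclideanSpace.basisFun (Fin d) ℝ).toBasis.det v ≠ 0 := by
  have h : IsUnit ((EuclideanSpace.basisFun (Fin d) ℝ).toBasis.det v) := by
    rw [← Module.Basis.is_basis_iff_det]
    refine ⟨hv, hv.span_eq_top_of_card_eq_finrank' ?_⟩
    rw [finrank_euclideanSpace_fin, Fintype.card_fin]
  exact h.ne_zero

/-- the potential is bounded from below -/
theorem FA_below (u : Fin m → EuclideanSpace ℝ (Fin d)) (hd : 1 ≤ d) (hm : d < m)
    (hu : ∀ s : Fin d → Fin m, Function.Injective s → LinearIndependent ℝ (fun i => u (s i))) :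
    ∃ C : ℝ, ∀ A, C ≤ FA_Phi u A := by
  have : NeZero m := ⟨by omega⟩
  let s : Fin m → Fin d → Fin m := fun j i => j + Fin.castLE hm.le i
  have hs : ∀ j, Function.Injective (s j) := fun j i i' h => by
    have h1 : Fin.castLE hm.le i = Fin.castLE hm.le i' := add_left_cancel h
    exact Fin.castLE_injective _ h1
  let D : Fin m → ℝ := fun j =>
    |(EuclideanSpace.basisFun (Fin d) ℝ).toBasis.det (fun i => u (s j i))|
  have hD : ∀ j, 0 < D j := fun j => abs_pos.2 (FA_det_ne _ (hu _ (hs j)))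
  have hne : ∀ i, u i ≠ 0 := by
    intro i
    have h1 := (hu _ (hs i)).ne_zero (⟨0, hd⟩ : Fin d)
    have h2 : s i ⟨0, hd⟩ = i := by
      change i + Fin.castLE hm.le ⟨0, hd⟩ = i
      have : Fin.castLE hm.le (⟨0, hd⟩ : Fin d) = (0 : Fin m) := by
        ext
        simp
      rw [this, add_zero]
    rwa [h2] at h1
  refine ⟨(∑ j, Real.log (D j)) / d, fun A => ?_⟩
  have hdet : 0 < |LinearMap.det (A : EuclideanSpace ℝ (Fin d) →ₗ[ℝ] EuclideanSpace ℝ (Fin d))| :=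
    abs_pos.2 (LinearEquiv.isUnit_det' A).ne_zero
  have hA : ∀ i, 0 < ‖A (u i)‖ := fun i => norm_pos_iff.2 (by
    simpa using hne i)
  have h1 : ∀ j, Real.log |LinearMap.det (A : EuclideanSpace ℝ (Fin d) →ₗ[ℝ] EuclideanSpace ℝ (Fin d))|
      + Real.log (D j) ≤ ∑ i, Real.log ‖A (u (s j i))‖ := by
    intro j
    rw [← Real.log_mul hdet.ne' (hD j).ne', ← Real.log_prod (fun i _ => (hA _).ne')]
    exact Real.log_le_log (mul_pos hdet (hD j)) (FA_had _ _)
  have h2 : ∑ j, ∑ i, Real.log ‖A (u (s j i))‖ = d * ∑ i, Real.log ‖A (u i)‖ := by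
    rw [sum_comm]
    have h3 : ∀ i : Fin d, ∑ j, Real.log ‖A (u (s j i))‖ = ∑ j, Real.log ‖A (u j)‖ := fun i =>
      Equiv.sum_comp (Equiv.addRight (Fin.castLE hm.le i)) (fun j => Real.log ‖A (u j)‖)
    rw [sum_congr rfl fun i _ => h3 i, sum_const, card_univ, Fintype.card_fin, nsmul_eq_mul]
  have h4 := sum_le_sum fun j (_ : j ∈ univ) => h1 j
  rw [h2, sum_add_distrib, sum_const, card_univ, Fintype.card_fin, nsmul_eq_mul] at h4
  have hd' : (0 : ℝ) < d := by exact_mod_cast hd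
  unfold FA_Phi
  rw [div_le_iff₀ hd', sub_mul]
  have h5 : (m : ℝ) / d * Real.log |LinearMap.det (A : EuclideanSpace ℝ (Fin d) →ₗ[ℝ] EuclideanSpace ℝ (Fin d))| * d
      = m * Real.log |LinearMap.det (A : EuclideanSpace ℝ (Fin d) →ₗ[ℝ] EuclideanSpace ℝ (Fin d))| := by
    field_simp
  rw [h5]
  linarith

/-- stretching in the direction `z` -/
theorem FA_stretch (A : EuclideanSpace ℝ (Fin d) ≃ₗ[ℝ] EuclideanSpace ℝ (Fin d))
    {z : EuclideanSpace ℝ (Fin d)} (hz : z ≠ 0) {t : ℝ} (ht : 0 < t) :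
    ∃ B : EuclideanSpace ℝ (Fin d) ≃ₗ[ℝ] EuclideanSpace ℝ (Fin d),
      LinearMap.det (B : EuclideanSpace ℝ (Fin d) →ₗ[ℝ] EuclideanSpace ℝ (Fin d)) =
        (1 + t) * LinearMap.det (A : EuclideanSpace ℝ (Fin d) →ₗ[ℝ] EuclideanSpace ℝ (Fin d)) ∧
      ∀ x, ‖B x‖ ^ 2 = ‖A x‖ ^ 2 + (2 * t + t ^ 2) * (inner ℝ (A x) z ^ 2 / ‖z‖ ^ 2) := by
  let f : Dual ℝ (EuclideanSpace ℝ (Fin d)) := (t / ‖z‖ ^ 2) • (innerₛₗ ℝ z)
  have hz0 : 0 < ‖z‖ := norm_pos_iff.2 hz
  have hf : ∀ x, f x = t / ‖z‖ ^ 2 * inner ℝ z x := fun x => rfl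
  have hfz : f z = t := by
    rw [hf, real_inner_self_eq_norm_sq]
    field_simp
  have hu : IsUnit (1 + f z) := by
    rw [hfz]
    exact isUnit_iff_ne_zero.2 (by positivity)
  refine ⟨A.trans (LinearEquiv.dilatransvection hu), ?_, fun x => ?_⟩
  · rw [LinearEquiv.coe_trans, LinearMap.det_comp, LinearEquiv.dilatransvection.coe_toLinearMap,
      LinearMap.transvection.det, hfz]
  · rw [LinearEquiv.trans_apply, LinearEquiv.dilatransvection.apply, norm_add_sq_real, norm_smul,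
      inner_smul_right, hf, real_inner_comm z (A x), mul_pow, Real.norm_eq_abs, sq_abs]
    field_simp
    ring

end

/-- one term of the potential -/
theorem FA_term {a b c t Z : ℝ} (ha : 0 < a) (hZ : 0 < Z) (hc : 0 ≤ c) (ht : 0 < t)
    (h : b ^ 2 = a ^ 2 + (2 * t + t ^ 2) * (c / Z)) :
    Real.log b ≤ Real.log a + (t + t ^ 2 / 2) / Z * (c / a ^ 2) := by
  have hx : 0 ≤ (2 * t + t ^ 2) * (c / Z) / a ^ 2 := by positivity
  have h1 : b ^ 2 = a ^ 2 * (1 + (2 * t + t ^ 2) * (c / Z) / a ^ 2) := by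
    rw [h, mul_add, mul_one, mul_div_cancel₀ _ (pow_pos ha 2).ne']
  have h2 : 2 * Real.log b = 2 * Real.log a + Real.log (1 + (2 * t + t ^ 2) * (c / Z) / a ^ 2) := by
    have h3 := congrArg Real.log h1
    rw [Real.log_mul (pow_pos ha 2).ne' (by linarith), Real.log_pow, Real.log_pow] at h3
    exact_mod_cast h3
  have h4 : Real.log (1 + (2 * t + t ^ 2) * (c / Z) / a ^ 2) ≤
      (2 * t + t ^ 2) * (c / Z) / a ^ 2 := by
    have := Real.log_le_sub_one_of_pos
      (show 0 < 1 + (2 * t + t ^ 2) * (c / Z) / a ^ 2 by linarith)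
    linarith
  have h5 : (2 * t + t ^ 2) * (c / Z) / a ^ 2 = 2 * ((t + t ^ 2 / 2) / Z * (c / a ^ 2)) := by
    field_simp
  linarith

theorem FA_num {ε μ t S Z : ℝ} (hε : 0 < ε) (hμ : 0 < μ) (ht : t = ε / (3 * μ)) (hZ : 0 < Z)
    (hS : S < (μ - ε) * Z) :
    (t + t ^ 2 / 2) / Z * S - μ * Real.log (1 + t) ≤ - (t * ε / 2) := by
  have ht0 : 0 < t := by rw [ht]; positivity
  have h1 : (t + t ^ 2 / 2) / Z * S ≤ (t + t ^ 2 / 2) / Z * ((μ - ε) * Z) :=
    mul_le_mul_of_nonneg_left hS.le (by positivity)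
  have h2 : (t + t ^ 2 / 2) / Z * ((μ - ε) * Z) = (t + t ^ 2 / 2) * (μ - ε) := by
    field_simp
  have hlog : t - t ^ 2 ≤ Real.log (1 + t) := by
    have h1 := Real.one_sub_inv_le_log_of_pos (show 0 < 1 + t by linarith)
    have h2 : t - t ^ 2 ≤ 1 - (1 + t)⁻¹ := by
      have h3 : 1 - (1 + t)⁻¹ - (t - t ^ 2) = t ^ 3 / (1 + t) := by
        field_simp
        ring
      have h4 : 0 ≤ t ^ 3 / (1 + t) := by positivity
      linarith
    linarith
  have h3 : μ * (t - t ^ 2) ≤ μ * Real.log (1 + t) := mul_le_mul_of_nonneg_left hlog hμ.le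
  have h4 : t * μ = ε / 3 := by
    rw [ht]
    field_simp
  have h5 : (t + t ^ 2 / 2) * (μ - ε) - μ * (t - t ^ 2) =
      -(t * ε) + 3 / 2 * t * (t * μ) - t ^ 2 * ε / 2 := by ring
  have h6 : 0 ≤ t ^ 2 * ε / 2 := by positivity
  rw [h4] at h5
  linarith

theorem t_FA : T_FA := by
  intro d m u hd hm hu ε hε
  obtain ⟨C, hC⟩ := FA_below u hd hm hu
  have hd' : (0 : ℝ) < d := by exact_mod_cast hd
  have hm' : (0 : ℝ) < m := by
    have : 0 < m := by omega
    exact_mod_cast this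
  have hne : ∀ i, u i ≠ 0 := by
    intro i
    have : NeZero m := ⟨by omega⟩
    have hs : Function.Injective (fun j : Fin d => i + Fin.castLE hm.le j) := fun j j' h =>
      Fin.castLE_injective _ (add_left_cancel h)
    have h1 := (hu _ hs).ne_zero (⟨0, hd⟩ : Fin d)
    have : Fin.castLE hm.le (⟨0, hd⟩ : Fin d) = (0 : Fin m) := by
      ext
      simp
    simpa [this] using h1
  set μ : ℝ := (m : ℝ) / d with hμ
  have hμ0 : 0 < μ := by positivity
  set t : ℝ := ε / (3 * μ) with ht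
  have ht0 : 0 < t := by positivity
  have hbdd : BddBelow (Set.range (FA_Phi u)) := ⟨C, by rintro _ ⟨A, rfl⟩; exact hC A⟩
  obtain ⟨A, hA⟩ := exists_lt_of_ciInf_lt
    (show iInf (FA_Phi u) < iInf (FA_Phi u) + t * ε / 2 by
      have : 0 < t * ε / 2 := by positivity
      linarith)
  refine ⟨A, fun z => ?_⟩
  by_cases hz : z = 0
  · subst hz
    simp
  by_contra hcon
  push Not at hcon
  obtain ⟨B, hBdet, hB⟩ := FA_stretch A hz ht0
  have hBI : iInf (FA_Phi u) ≤ FA_Phi u B := ciInf_le hbdd B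
  have hz0 : 0 < ‖z‖ ^ 2 := by
    have : 0 < ‖z‖ := norm_pos_iff.2 hz
    positivity
  have hApos : ∀ i, 0 < ‖A (u i)‖ := fun i => norm_pos_iff.2 (by simpa using hne i)
  have hdet : 0 < |LinearMap.det (A : EuclideanSpace ℝ (Fin d) →ₗ[ℝ] EuclideanSpace ℝ (Fin d))| :=
    abs_pos.2 (LinearEquiv.isUnit_det' A).ne_zero
  have hterm : ∀ i, Real.log ‖B (u i)‖ ≤ Real.log ‖A (u i)‖ +
      (t + t ^ 2 / 2) / ‖z‖ ^ 2 * (inner ℝ (A (u i)) z ^ 2 / ‖A (u i)‖ ^ 2) := fun i =>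
    FA_term (hApos i) hz0 (sq_nonneg _) ht0 (hB (u i))
  have hsum : ∑ i, Real.log ‖B (u i)‖ ≤ ∑ i, Real.log ‖A (u i)‖ +
      (t + t ^ 2 / 2) / ‖z‖ ^ 2 * ∑ i, inner ℝ (A (u i)) z ^ 2 / ‖A (u i)‖ ^ 2 := by
    rw [mul_sum, ← sum_add_distrib]
    exact sum_le_sum fun i _ => hterm i
  have hnum := FA_num hε hμ0 ht hz0 hcon
  have hPhi : FA_Phi u B = ∑ i, Real.log ‖B (u i)‖ - μ * (Real.log (1 + t) + Real.log
      |LinearMap.det (A : EuclideanSpace ℝ (Fin d) →ₗ[ℝ] EuclideanSpace ℝ (Fin d))|) := by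
    unfold FA_Phi
    rw [hBdet, abs_mul, Real.log_mul (abs_pos.2 (by linarith)).ne' hdet.ne',
      abs_of_pos (show 0 < 1 + t by linarith)]
  have hPhiA : FA_Phi u A = ∑ i, Real.log ‖A (u i)‖ - μ * Real.log
      |LinearMap.det (A : EuclideanSpace ℝ (Fin d) →ₗ[ℝ] EuclideanSpace ℝ (Fin d))| := rfl
  rw [hPhi] at hBI
  rw [hPhiA] at hA
  rw [mul_add] at hBI
  linarith

end Pool.Agent.Helper99.TH
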