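import Mathlib
import Pool.Agent.Helper99.TH.St

/-!
# Module FB: Forster's bound for the sign rank of the inner product matrix
-/

namespace Pool.Agent.Helper99.TH

open Finset

theorem fb_sg_odd (n : ℕ) : sg (decide (Odd n)) = (-1) ^ n := by
  unfold sg
  by_cases h : Odd n
  · rw [if_pos (by simpa using h), h.neg_one_pow]
  · rw [if_neg (by simpa using h), (Nat.not_odd_iff_even.mp h).neg_one_pow]

theorem fb_sg_sq (b : Bool) : sg b * sg b = 1 := by
  cases b <;> simp [sg]

theorem fb_sg_ip {m : ℕ} (x y : Fin m → Bool) :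
    sg (ip x y) = ∏ i, (if x i = true ∧ y i = true then (-1 : ℝ) else 1) := by
  unfold ip
  rw [fb_sg_odd, Finset.prod_ite, Finset.prod_const, Finset.prod_const_one, mul_one]

/-- The inner product matrix is a Hadamard matrix. -/
theorem fb_orth {m : ℕ} (x x' : Fin m → Bool) :
    ∑ y : Fin m → Bool, sg (ip x y) * sg (ip x' y) = if x = x' then (2 : ℝ) ^ m else 0 := by
  have h1 : ∀ y : Fin m → Bool, sg (ip x y) * sg (ip x' y)
      = ∏ i, ((if x i = true ∧ y i = true then (-1 : ℝ) else 1)
        * (if x' i = true ∧ y i = true then (-1 : ℝ) else 1)) := by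
    intro y
    rw [fb_sg_ip, fb_sg_ip, Finset.prod_mul_distrib]
  rw [Finset.sum_congr rfl (fun y _ => h1 y)]
  have h2 : ∑ y : Fin m → Bool, ∏ i, ((if x i = true ∧ y i = true then (-1 : ℝ) else 1)
        * (if x' i = true ∧ y i = true then (-1 : ℝ) else 1))
      = ∏ i, ∑ b : Bool, ((if x i = true ∧ b = true then (-1 : ℝ) else 1)
        * (if x' i = true ∧ b = true then (-1 : ℝ) else 1)) := by
    rw [Finset.prod_univ_sum, Fintype.piFinset_univ]
  rw [h2]
  have h3 : ∀ i, ∑ b : Bool, ((if x i = true ∧ b = true then (-1 : ℝ) else 1)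
        * (if x' i = true ∧ b = true then (-1 : ℝ) else 1)) = if x i = x' i then 2 else 0 := by
    intro i
    rw [Fintype.sum_bool]
    cases x i <;> cases x' i <;> norm_num
  rw [Finset.prod_congr rfl (fun i _ => h3 i)]
  by_cases hx : x = x'
  · rw [if_pos hx]
    subst hx
    simp
  · rw [if_neg hx]
    obtain ⟨i, hi⟩ := Function.ne_iff.mp hx
    exact Finset.prod_eq_zero (mem_univ i) (if_neg hi)

/-- Perturbation to general position. -/
theorem fb_pert (d M : ℕ) (H : Fin M → Fin M → ℝ) (u v : Fin M → EuclideanSpace ℝ (Fin d))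
    (h : ∀ i j, 0 < H i j * inner ℝ (u i) (v j)) :
    ∃ u' : Fin M → EuclideanSpace ℝ (Fin d),
      (∀ i j, 0 < H i j * inner ℝ (u' i) (v j)) ∧
      ∀ s : Fin d → Fin M, Function.Injective s → LinearIndependent ℝ (fun i => u' (s i)) := by
  classical
  set w : Fin M → EuclideanSpace ℝ (Fin d) := fun i => WithLp.toLp 2 (fun j => ((i : ℕ) : ℝ) ^ (j : ℕ))
    with hw
  -- small perturbations keep the signs
  have hsmall : ∀ᶠ δ : ℝ in nhds 0, ∀ i j, 0 < H i j * inner ℝ (u i + δ • w i) (v j) := by
    rw [Filter.eventually_all]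
    intro i
    rw [Filter.eventually_all]
    intro j
    have hcont : Continuous (fun δ : ℝ => H i j * inner ℝ (u i + δ • w i) (v j)) := by
      fun_prop
    have h0 : 0 < (fun δ : ℝ => H i j * inner ℝ (u i + δ • w i) (v j)) 0 := by
      simpa using h i j
    exact hcont.continuousAt.eventually (lt_mem_nhds h0)
  rw [Metric.eventually_nhds_iff] at hsmall
  obtain ⟨η, hη, hsm⟩ := hsmall
  -- the determinants
  set Pl : (Fin d → Fin M) → Polynomial ℝ := fun s =>
    Matrix.det ((Polynomial.X : Polynomial ℝ) • (Matrix.of (fun i j => w (s i) j)).map Polynomial.C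
      + (Matrix.of (fun i j => u (s i) j)).map Polynomial.C) with hPl
  have hPl0 : ∀ s : Fin d → Fin M, Function.Injective s → Pl s ≠ 0 := by
    intro s hs h0
    have h1 := Polynomial.coeff_det_X_add_C_card (Matrix.of (fun i j => w (s i) j) :
      Matrix (Fin d) (Fin d) ℝ) (Matrix.of (fun i j => u (s i) j))
    have h2 : (Matrix.of (fun i j => w (s i) j) : Matrix (Fin d) (Fin d) ℝ)
        = Matrix.vandermonde (fun i => ((s i : ℕ) : ℝ)) := by
      ext i j
      simp [hw, Matrix.vandermonde]
    have h3 : (Matrix.vandermonde (fun i => ((s i : ℕ) : ℝ))).det ≠ 0 := by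
      rw [Matrix.det_vandermonde_ne_zero_iff]
      intro a b hab
      apply hs
      apply Fin.ext
      have hab' : (((s a : Fin M) : ℕ) : ℝ) = (((s b : Fin M) : ℕ) : ℝ) := hab
      exact_mod_cast hab'
    rw [h2] at h1
    apply h3
    rw [← h1]
    have h4 : Pl s = 0 := h0
    rw [hPl] at h4
    simp only at h4
    rw [h2] at h4
    rw [h4, Polynomial.coeff_zero]
  set Q : Polynomial ℝ := ∏ s ∈ univ.filter (fun s : Fin d → Fin M => Function.Injective s), Pl s
    with hQ
  have hQ0 : Q ≠ 0 := by
    rw [hQ, Finset.prod_ne_zero_iff]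
    intro s hs
    exact hPl0 s (Finset.mem_filter.mp hs).2
  have hinf : (Set.Ioo (0 : ℝ) η \ (Q.roots.toFinset : Set ℝ)).Infinite :=
    (Set.Ioo_infinite hη).sdiff (Finset.finite_toSet _)
  obtain ⟨δ, hδ, hroot⟩ := hinf.nonempty
  have hQδ : Q.eval δ ≠ 0 := by
    intro h0
    apply hroot
    simp only [Finset.mem_coe, Multiset.mem_toFinset]
    exact (Polynomial.mem_roots hQ0).mpr h0
  refine ⟨fun i => u i + δ • w i, ?_, ?_⟩
  · apply hsm
    rw [Real.dist_eq, sub_zero, abs_of_pos hδ.1]
    exact hδ.2
  · intro s hs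
    have h5 : (Pl s).eval δ ≠ 0 := by
      intro h0
      apply hQδ
      rw [hQ, Polynomial.eval_prod]
      exact Finset.prod_eq_zero (Finset.mem_filter.mpr ⟨mem_univ s, hs⟩) h0
    have h6 : (Pl s).eval δ
        = Matrix.det (Matrix.of (fun i j => (u (s i) + δ • w (s i)) j) :
          Matrix (Fin d) (Fin d) ℝ) := by
      rw [hPl]
      simp only
      rw [← Polynomial.coe_evalRingHom, RingHom.map_det]
      congr 1
      ext i j
      simp [add_comm]
      exact mul_comm _ _
    rw [h6] at h5
    have h7 := Matrix.linearIndependent_rows_of_det_ne_zero h5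
    exact LinearIndependent.of_comp (WithLp.linearEquiv 2 ℝ (Fin d → ℝ)).toLinearMap h7

/-- The bound for vectors in general position. -/
theorem fb_gen (hFA : T_FA) (d M : ℕ) (hd : 1 ≤ d) (hM : d < M) (H : Fin M → Fin M → ℝ)
    (hH : ∀ i j, H i j * H i j = 1)
    (horth : ∀ i i', ∑ j, H i j * H i' j = if i = i' then (M : ℝ) else 0)
    (u v : Fin M → EuclideanSpace ℝ (Fin d))
    (h : ∀ i j, 0 < H i j * inner ℝ (u i) (v j))
    (hgp : ∀ s : Fin d → Fin M, Function.Injective s → LinearIndependent ℝ (fun i => u (s i))) :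
    M ≤ d ^ 2 := by
  classical
  have hM0 : (0 : ℝ) < M := by exact_mod_cast (by omega : 0 < M)
  have hd0 : (0 : ℝ) < d := by exact_mod_cast (by omega : 0 < d)
  have main : ∀ ε : ℝ, 0 < ε → (M : ℝ) / d ≤ Real.sqrt M + ε := by
    intro ε hε
    obtain ⟨A, hA⟩ := hFA d M u hd hM hgp ε hε
    set U : Fin M → EuclideanSpace ℝ (Fin d) := fun i => A (u i) with hU
    set V : Fin M → EuclideanSpace ℝ (Fin d) := fun j =>
      LinearMap.adjoint (A.symm : EuclideanSpace ℝ (Fin d) →ₗ[ℝ] EuclideanSpace ℝ (Fin d)) (v j)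
      with hV
    have hUV : ∀ i j, inner ℝ (U i) (V j) = inner ℝ (u i) (v j) := by
      intro i j
      rw [hU, hV]
      simp only
      rw [LinearMap.adjoint_inner_right]
      simp
    have hpos : ∀ i j, 0 < H i j * inner ℝ (U i) (V j) := by
      intro i j
      rw [hUV]
      exact h i j
    have hi0 : Fin M := ⟨0, by omega⟩
    have hUne : ∀ i, U i ≠ 0 := by
      intro i h0
      have := hpos i hi0
      rw [h0, inner_zero_left, mul_zero] at this
      exact lt_irrefl _ this
    have hVne : ∀ j, V j ≠ 0 := by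
      intro j h0
      have := hpos hi0 j
      rw [h0, inner_zero_right, mul_zero] at this
      exact lt_irrefl _ this
    -- normalized vectors
    set a : Fin M → EuclideanSpace ℝ (Fin d) := fun i => (‖U i‖⁻¹) • U i with ha
    set b : Fin M → EuclideanSpace ℝ (Fin d) := fun j => (‖V j‖⁻¹) • V j with hb
    have han : ∀ i, ‖a i‖ = 1 := by
      intro i
      rw [ha]
      simp only
      rw [norm_smul, norm_inv, norm_norm, inv_mul_cancel₀ (norm_ne_zero_iff.mpr (hUne i))]
    have hbn : ∀ j, ‖b j‖ = 1 := by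
      intro j
      rw [hb]
      simp only
      rw [norm_smul, norm_inv, norm_norm, inv_mul_cancel₀ (norm_ne_zero_iff.mpr (hVne j))]
    have hab : ∀ i j, 0 < H i j * inner ℝ (a i) (b j) := by
      intro i j
      have e : H i j * inner ℝ (a i) (b j)
          = (‖U i‖⁻¹ * ‖V j‖⁻¹) * (H i j * inner ℝ (U i) (V j)) := by
        rw [ha, hb]
        simp only [inner_smul_left, inner_smul_right]
        simp
        ring
      rw [e]
      apply mul_pos _ (hpos i j)
      exact mul_pos (inv_pos.mpr (norm_pos_iff.mpr (hUne i)))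
        (inv_pos.mpr (norm_pos_iff.mpr (hVne j)))
    have hsq : ∀ i j, (inner ℝ (a i) (b j)) ^ 2 ≤ H i j * inner ℝ (a i) (b j) := by
      intro i j
      have h1 : |inner ℝ (a i) (b j)| ≤ 1 := by
        have := abs_real_inner_le_norm (a i) (b j)
        rw [han, hbn, mul_one] at this
        exact this
      have h2 : H i j * inner ℝ (a i) (b j) = |inner ℝ (a i) (b j)| := by
        have h3 : |H i j * inner ℝ (a i) (b j)| = |inner ℝ (a i) (b j)| := by
          have h4 : |H i j| = 1 := by
            have := hH i j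
            have h5 : |H i j| * |H i j| = 1 := by rw [← abs_mul, this, abs_one]
            nlinarith [abs_nonneg (H i j)]
          rw [abs_mul, h4, one_mul]
        rw [← h3, abs_of_pos (hab i j)]
      rw [h2, ← sq_abs]
      nlinarith [abs_nonneg (inner ℝ (a i) (b j) : ℝ)]
    -- lower bound
    have hlow : (M : ℝ) * ((M : ℝ) / d - ε) ≤ ∑ j, ∑ i, H i j * inner ℝ (a i) (b j) := by
      have h1 : ∀ j, ((M : ℝ) / d - ε) ≤ ∑ i, H i j * inner ℝ (a i) (b j) := by
        intro j
        have h2 := hA (b j)
        rw [hbn, one_pow, mul_one] at h2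
        refine h2.trans ?_
        apply Finset.sum_le_sum
        intro i _
        refine le_trans (le_of_eq ?_) (hsq i j)
        have e : inner ℝ (a i) (b j) = ‖U i‖⁻¹ * inner ℝ (U i) (b j) := by
          rw [ha]
          simp only [inner_smul_left]
          simp
        rw [e, mul_pow, inv_pow, div_eq_mul_inv]
        ring
      calc (M : ℝ) * ((M : ℝ) / d - ε) = ∑ _j : Fin M, ((M : ℝ) / d - ε) := by
            rw [Finset.sum_const]
            simp
        _ ≤ _ := Finset.sum_le_sum (fun j _ => h1 j)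
    -- upper bound
    have hup : ∑ j, ∑ i, H i j * inner ℝ (a i) (b j) ≤ (M : ℝ) * Real.sqrt M := by
      have h1 : ∀ j, ∑ i, H i j * inner ℝ (a i) (b j) ≤ ‖∑ i, H i j • a i‖ := by
        intro j
        have e : ∑ i, H i j * inner ℝ (a i) (b j) = inner ℝ (∑ i, H i j • a i) (b j) := by
          rw [sum_inner]
          apply Finset.sum_congr rfl
          intro i _
          exact (real_inner_smul_left _ _ _).symm
        rw [e]
        refine (real_inner_le_norm _ _).trans ?_
        rw [hbn, mul_one]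
      have h2 : ∑ j, ‖∑ i, H i j • a i‖ ^ 2 = (M : ℝ) * M := by
        have h3 : ∀ j, ‖∑ i, H i j • a i‖ ^ 2
            = ∑ i, ∑ i', (H i j * H i' j) * inner ℝ (a i) (a i') := by
          intro j
          rw [← real_inner_self_eq_norm_sq, sum_inner]
          apply Finset.sum_congr rfl
          intro i _
          rw [inner_sum]
          apply Finset.sum_congr rfl
          intro i' _
          rw [inner_smul_left, inner_smul_right]
          simp
          ring
        rw [Finset.sum_congr rfl (fun j _ => h3 j), Finset.sum_comm]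
        have h4 : ∀ i, ∑ j, ∑ i', (H i j * H i' j) * inner ℝ (a i) (a i') = (M : ℝ) := by
          intro i
          rw [Finset.sum_comm]
          have h5 : ∀ i', ∑ j, (H i j * H i' j) * inner ℝ (a i) (a i')
              = if i = i' then (M : ℝ) else 0 := by
            intro i'
            rw [← Finset.sum_mul, horth]
            by_cases hii : i = i'
            · rw [if_pos hii, ← hii, real_inner_self_eq_norm_sq, han]
              simp
            · rw [if_neg hii, zero_mul]
          rw [Finset.sum_congr rfl (fun i' _ => h5 i'), Finset.sum_ite_eq]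
          simp
        rw [Finset.sum_congr rfl (fun i _ => h4 i), Finset.sum_const]
        simp
      have h6 : (∑ j, ‖∑ i, H i j • a i‖) ^ 2 ≤ (M : ℝ) * ((M : ℝ) * M) := by
        have h7 := sq_sum_le_card_mul_sum_sq (s := (univ : Finset (Fin M)))
          (f := fun j => ‖∑ i, H i j • a i‖)
        rw [h2] at h7
        simpa using h7
      calc ∑ j, ∑ i, H i j * inner ℝ (a i) (b j) ≤ ∑ j, ‖∑ i, H i j • a i‖ :=
            Finset.sum_le_sum (fun j _ => h1 j)
        _ ≤ Real.sqrt ((M : ℝ) * ((M : ℝ) * M)) := Real.le_sqrt_of_sq_le h6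
        _ = (M : ℝ) * Real.sqrt M := by
            rw [show (M : ℝ) * ((M : ℝ) * M) = (M : ℝ) ^ 2 * M by ring,
              Real.sqrt_mul (by positivity), Real.sqrt_sq hM0.le]
    have hfin : (M : ℝ) * ((M : ℝ) / d - ε) ≤ (M : ℝ) * Real.sqrt M := hlow.trans hup
    have := le_of_mul_le_mul_left hfin hM0
    linarith
  have h8 : (M : ℝ) / d ≤ Real.sqrt M := le_of_forall_pos_le_add main
  have h9 : (M : ℝ) ≤ Real.sqrt M * d := (div_le_iff₀ hd0).mp h8
  have h10 : Real.sqrt M * Real.sqrt M = M := Real.mul_self_sqrt hM0.le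
  have h11 : Real.sqrt M ≤ d := by
    have h12 : 0 < Real.sqrt M := Real.sqrt_pos.mpr hM0
    have h13 : Real.sqrt M * Real.sqrt M ≤ Real.sqrt M * d := by rw [h10]; exact h9
    exact le_of_mul_le_mul_left h13 h12
  have h14 : (M : ℝ) ≤ (d : ℝ) ^ 2 := by
    rw [← h10]
    nlinarith [Real.sqrt_nonneg (M : ℝ)]
  exact_mod_cast h14

theorem t_FB (h : T_FA) : T_FB := by
  classical
  intro m d u v huv
  have hd : 1 ≤ d := by
    by_contra hcon
    have hd0 : d = 0 := by omega
    subst hd0
    have h1 := huv (fun _ => false) (fun _ => false)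
    have h2 : u (fun _ => false) = 0 := Subsingleton.elim _ _
    rw [h2, inner_zero_left, mul_zero] at h1
    exact lt_irrefl _ h1
  by_cases hM : d < 2 ^ m
  · set e : Fin (2 ^ m) ≃ (Fin m → Bool) := (Fintype.equivFinOfCardEq (by simp)).symm with he
    set H : Fin (2 ^ m) → Fin (2 ^ m) → ℝ := fun i j => sg (ip (e i) (e j)) with hH
    have hH1 : ∀ i j, H i j * H i j = 1 := fun i j => fb_sg_sq _
    have hH2 : ∀ i i', ∑ j, H i j * H i' j = if i = i' then ((2 ^ m : ℕ) : ℝ) else 0 := by
      intro i i'
      have h1 := fb_orth (e i) (e i')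
      rw [← Equiv.sum_comp e] at h1
      rw [hH]
      simp only
      rw [h1]
      by_cases hii : i = i'
      · rw [if_pos hii, if_pos (by rw [hii])]
        push_cast
        rfl
      · rw [if_neg hii, if_neg (fun hc => hii (e.injective hc))]
    obtain ⟨u', hu', hgp⟩ := fb_pert d (2 ^ m) H (fun i => u (e i)) (fun j => v (e j))
      (fun i j => huv (e i) (e j))
    exact fb_gen h d (2 ^ m) hd hM H hH1 hH2 u' (fun j => v (e j)) hu' hgp
  · have h1 : 2 ^ m ≤ d := by omega
    exact h1.trans (Nat.le_self_pow (by norm_num) d)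

end Pool.Agent.Helper99.TH
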