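import Mathlib
import Pool.Agent.Helper99.TH.St

set_option autoImplicit false

/-! # Module FC: threshold of symmetric gates of literals gives low sign rank -/

namespace Pool.Agent.Helper99.TH

open Finset

/-- the point given by two words -/
def fcpt {m : ℕ} (x y : Fin m → Bool) : Fin 2 × Fin m → Bool :=
  fun p => if p.1 = 0 then x p.2 else y p.2

theorem fc_gip {m : ℕ} (x y : Fin m → Bool) : gip (fcpt x y) = ip x y := by
  unfold gip ip
  congr 3
  ext i
  simp [Fin.forall_fin_two, fcpt]

theorem fc_sym {m s : ℕ} (g : (Fin 2 × Fin m → Bool) → Bool) (hg : SymOf (Junta 1) s g) :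
    ∃ (α β : (Fin m → Bool) → ℕ) (σ : ℕ → Bool), (∀ x, α x ≤ s) ∧
      ∀ x y, g (fcpt x y) = σ (α x + β y) := by
  classical
  obtain ⟨r, hr, σ, h, hJ, hx⟩ := hg
  let P : Fin r → Prop := fun i => ∀ x y y' : Fin m → Bool, h i (fcpt x y) = h i (fcpt x y')
  have hPQ : ∀ i, ¬ P i → ∀ x x' y : Fin m → Bool, h i (fcpt x y) = h i (fcpt x' y) := by
    intro i hP
    obtain ⟨T, hT, hT2⟩ := hJ i
    intro x x' y
    refine hT2 _ _ fun p hp => ?_
    by_cases hp0 : p.1 = 0
    · exfalso
      apply hP
      intro x y y'
      refine hT2 _ _ fun q hq => ?_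
      have : q = p := card_le_one.1 hT q hq p hp
      rw [this]
      simp [fcpt, hp0]
    · simp [fcpt, hp0]
  refine ⟨fun x => (univ.filter (fun i => P i ∧ h i (fcpt x (fun _ => false)) = true)).card,
    fun y => (univ.filter (fun i => ¬ P i ∧ h i (fcpt (fun _ => false) y) = true)).card, σ, ?_, ?_⟩
  · intro x
    refine (card_le_univ _).trans ?_
    rw [Fintype.card_fin]; exact hr
  · intro x y
    rw [hx]
    congr 1
    have h1 := card_filter_add_card_filter_not (s := univ.filter (fun i => h i (fcpt x y) = true))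
      (fun i => P i)
    rw [← h1, filter_filter, filter_filter]
    congr 1
    · congr 1
      ext i
      simp only [mem_filter, mem_univ, true_and]
      constructor
      · rintro ⟨h2, h3⟩
        exact ⟨h3, by rw [← h2]; exact h3 _ _ _⟩
      · rintro ⟨h2, h3⟩
        exact ⟨by rw [← h3]; exact h2 _ _ _, h2⟩
    · congr 1
      ext i
      simp only [mem_filter, mem_univ, true_and]
      constructor
      · rintro ⟨h2, h3⟩
        exact ⟨h3, by rw [← h2]; exact hPQ i h3 _ _ _⟩
      · rintro ⟨h2, h3⟩
        exact ⟨by rw [← h3]; exact hPQ i h2 _ _ _, h2⟩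

theorem fc_delta {X : Type} [Fintype X] (φ : X → ℝ) :
    ∃ δ : ℝ, 0 < δ ∧ ∀ p, 0 < φ p → δ < φ p := by
  classical
  rcases (univ.filter (fun p => 0 < φ p)).eq_empty_or_nonempty with he | hne
  · refine ⟨1, one_pos, fun p hp => ?_⟩
    have : p ∈ univ.filter (fun p => 0 < φ p) := mem_filter.2 ⟨mem_univ _, hp⟩
    rw [he] at this
    exact absurd this (notMem_empty _)
  · obtain ⟨p0, hp0, hmin⟩ := exists_min_image _ φ hne
    have h0 := (mem_filter.1 hp0).2
    refine ⟨φ p0 / 2, by linarith, fun p hp => ?_⟩
    have := hmin p (mem_filter.2 ⟨mem_univ _, hp⟩)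
    linarith

theorem t_FC (h : T_FB) : T_FC := by
  classical
  intro m s hthr
  obtain ⟨r, hr, w, t, g, hg, hx⟩ := hthr
  choose α β σ hα hσ using fun i => fc_sym (g i) (hg i)
  -- the weighted sum
  let S : (Fin m → Bool) → (Fin m → Bool) → ℝ := fun x y =>
    ∑ i, if g i (fcpt x y) = true then w i else 0
  obtain ⟨δ, hδ, hδ2⟩ := fc_delta (fun p : (Fin m → Bool) × (Fin m → Bool) => t - S p.1 p.2)
  let I := Option (Fin r × Fin (s + 1))
  let d := Fintype.card I
  have hd : d = r * (s + 1) + 1 := by
    simp [d, I]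
  let e : Fin d ≃ I := (Fintype.equivFin I).symm
  let UU : (Fin m → Bool) → I → ℝ := fun x k => match k with
    | none => δ - t
    | some p => if α p.1 x = p.2.1 then w p.1 else 0
  let VV : (Fin m → Bool) → I → ℝ := fun y k => match k with
    | none => -1
    | some p => if σ p.1 (p.2.1 + β p.1 y) = true then -1 else 0
  have hS : ∀ x y, ∑ k : I, UU x k * VV y k = -(S x y - t + δ) := by
    intro x y
    rw [Fintype.sum_option]
    have h1 : ∑ p : Fin r × Fin (s + 1), UU x (some p) * VV y (some p) = - S x y := by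
      rw [Fintype.sum_prod_type, ← sum_neg_distrib]
      refine sum_congr rfl fun i _ => ?_
      have h2 : ∀ c : Fin (s + 1), UU x (some (i, c)) * VV y (some (i, c))
          = if c = ⟨α i x, Nat.lt_succ_of_le (hα i x)⟩ then
            -(if g i (fcpt x y) = true then w i else 0) else 0 := by
        intro c
        simp only [UU, VV]
        by_cases hc : c = ⟨α i x, Nat.lt_succ_of_le (hα i x)⟩
        · have hc' : α i x = c.1 := by rw [hc]
          rw [if_pos hc', if_pos hc, ← hc', hσ]
          by_cases h3 : σ i (α i x + β i y) = true <;> simp [h3]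
        · have hc' : ¬ α i x = c.1 := fun h3 => hc (Fin.ext h3.symm)
          rw [if_neg hc', if_neg hc, zero_mul]
      rw [sum_congr rfl fun c _ => h2 c]
      simp
    rw [h1]
    simp only [UU, VV]
    ring
  have key := h m d (fun x => WithLp.toLp 2 (fun k => UU x (e k)))
    (fun y => WithLp.toLp 2 (fun k => VV y (e k))) (by
      intro x y
      have h1 : inner ℝ (WithLp.toLp 2 (fun k => UU x (e k)) : EuclideanSpace ℝ (Fin d))
          (WithLp.toLp 2 (fun k => VV y (e k))) = -(S x y - t + δ) := by
        rw [← hS x y, PiLp.inner_apply]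
        rw [← Equiv.sum_comp e (fun k => UU x k * VV y k)]
        refine sum_congr rfl fun k _ => ?_
        simp [mul_comm]
      rw [h1]
      have h2 := hx (fcpt x y)
      rw [fc_gip] at h2
      by_cases h3 : ip x y = true
      · have h4 := h2.1 h3
        rw [h3]
        simp only [sg, if_true]
        have : t ≤ S x y := h4
        linarith
      · have h4 : S x y < t := lt_of_not_ge fun h5 => h3 (h2.2 h5)
        have h5 := hδ2 (x, y) (by simp only; linarith)
        simp only at h5
        have h6 : sg (ip x y) = 1 := by simp [sg, h3]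
        rw [h6]
        linarith)
  refine key.trans (Nat.pow_le_pow_left ?_ 2)
  rw [hd]
  exact Nat.add_le_add_right (Nat.mul_le_mul_right _ hr) 1

end Pool.Agent.Helper99.TH
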