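import Pool.Agent.Helper99.TH.St

/-!
# Project TH, module ISO: isolation by nested random subsets, derandomized
-/

set_option autoImplicit false

namespace Pool.Agent.Helper99.TH

open Finset

namespace ISO

/-- the potential -/
noncomputable def phi (J m : ℕ) : ℝ := if m = 0 then 0 else if m = 1 then 1 else 2 / 3 - m / 2 ^ J

theorem phi_zero (J : ℕ) : phi J 0 = 0 := by simp [phi]
theorem phi_one (J : ℕ) : phi J 1 = 1 := by simp [phi]
theorem phi_ge_two (J m : ℕ) (h : 2 ≤ m) : phi J m = 2 / 3 - m / 2 ^ J := by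
  unfold phi
  rw [if_neg (by omega), if_neg (by omega)]

theorem phi_lower (J m : ℕ) : (2 / 3 : ℝ) - m / 2 ^ J - 2 / 3 * (if m = 0 then 1 else 0)
    + 1 / 3 * (if m = 1 then 1 else 0) ≤ phi J m := by
  have hp : (0 : ℝ) < 2 ^ J := by positivity
  rcases Nat.lt_or_ge m 2 with h | h
  · interval_cases m
    · simp [phi]
    · simp only [phi, one_ne_zero, if_false, if_true, Nat.cast_one]
      have : 0 ≤ (1 : ℝ) / 2 ^ J := by positivity
      linarith
  · rw [phi_ge_two J m h, if_neg (by omega), if_neg (by omega)]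
    linarith

theorem sum_card {k : ℕ} (A : Finset (Fin k)) :
    2 * ∑ R : Finset (Fin k), ((A ∩ R).card : ℝ) = 2 ^ k * A.card := by
  have h1 : ∑ R : Finset (Fin k), ((A ∩ R).card : ℝ)
      = ∑ R : Finset (Fin k), ((A ∩ Rᶜ).card : ℝ) := by
    have := Equiv.sum_comp (⟨fun R : Finset (Fin k) => Rᶜ, fun R => Rᶜ, fun R => compl_compl R,
      fun R => compl_compl R⟩ : Finset (Fin k) ≃ Finset (Fin k)) (fun R => ((A ∩ R).card : ℝ))
    exact this.symm
  have h2 : ∀ R : Finset (Fin k), ((A ∩ R).card : ℝ) + ((A ∩ Rᶜ).card : ℝ) = A.card := by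
    intro R
    rw [← Finset.sdiff_eq_inter_compl]
    exact_mod_cast Finset.card_inter_add_card_sdiff A R
  have h3 : ∑ R : Finset (Fin k), (((A ∩ R).card : ℝ) + ((A ∩ Rᶜ).card : ℝ))
      = 2 ^ k * A.card := by
    simp_rw [h2]
    rw [Finset.sum_const, Finset.card_univ, Fintype.card_finset, Fintype.card_fin, nsmul_eq_mul]
    push_cast
    rfl
  rw [Finset.sum_add_distrib, ← h1] at h3
  linarith

theorem card_one_ge {k : ℕ} (A : Finset (Fin k)) (hA : 2 ≤ A.card) :
    2 * (univ.filter fun R : Finset (Fin k) => (A ∩ R).card = 0).card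
      ≤ (univ.filter fun R : Finset (Fin k) => (A ∩ R).card = 1).card := by
  classical
  obtain ⟨a, ha, b, hb, hab⟩ := Finset.one_lt_card.1 (show 1 < A.card by omega)
  set Z := univ.filter fun R : Finset (Fin k) => (A ∩ R).card = 0 with hZ
  have hZm : ∀ R ∈ Z, ∀ c ∈ A, c ∉ R := by
    intro R hR c hc hcR
    rw [hZ, mem_filter] at hR
    have := Finset.card_eq_zero.1 hR.2
    have h2 : c ∈ A ∩ R := mem_inter.2 ⟨hc, hcR⟩
    rw [this] at h2
    exact absurd h2 (notMem_empty c)
  have hinj : ∀ c ∈ A, Set.InjOn (fun R : Finset (Fin k) => insert c R) Z := by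
    intro c hc R hR R' hR' he
    have h1 := hZm R hR c hc
    have h2 := hZm R' hR' c hc
    have h3 : (insert c R).erase c = (insert c R').erase c := by
      have he' : insert c R = insert c R' := he
      rw [he']
    rwa [erase_insert h1, erase_insert h2] at h3
  have hsub : ∀ c ∈ A, Z.image (fun R : Finset (Fin k) => insert c R)
      ⊆ univ.filter fun R : Finset (Fin k) => (A ∩ R).card = 1 := by
    intro c hc S hS
    obtain ⟨R, hR, rfl⟩ := mem_image.1 hS
    rw [mem_filter]
    refine ⟨mem_univ _, ?_⟩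
    rw [Finset.card_eq_one]
    refine ⟨c, ?_⟩
    ext d
    rw [mem_inter, mem_insert, mem_singleton]
    constructor
    · rintro ⟨hd, h | h⟩
      · exact h
      · exact absurd h (hZm R hR d hd)
    · rintro rfl
      exact ⟨hc, Or.inl rfl⟩
  have hdisj : Disjoint (Z.image (fun R : Finset (Fin k) => insert a R))
      (Z.image (fun R : Finset (Fin k) => insert b R)) := by
    rw [Finset.disjoint_left]
    intro S h1 h2
    obtain ⟨R, hR, rfl⟩ := mem_image.1 h1
    obtain ⟨R', hR', he⟩ := mem_image.1 h2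
    have h3 : a ∈ insert b R' := by
      have he' : insert b R' = insert a R := he
      rw [he']
      exact mem_insert_self a R
    rcases mem_insert.1 h3 with h | h
    · exact hab h
    · exact hZm R' hR' a ha h
  have h4 := Finset.card_le_card (union_subset (hsub a ha) (hsub b hb))
  rw [Finset.card_union_of_disjoint hdisj, Finset.card_image_of_injOn (hinj a ha),
    Finset.card_image_of_injOn (hinj b hb)] at h4
  omega

theorem step1 {k : ℕ} (J : ℕ) (A : Finset (Fin k)) (hA : A.card ≠ 1) :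
    2 ^ k * phi (J + 1) A.card ≤ ∑ R : Finset (Fin k), phi J (A ∩ R).card := by
  classical
  rcases Nat.lt_or_ge A.card 2 with h | h
  · have h0 : A.card = 0 := by omega
    rw [h0, phi_zero, mul_zero]
    rw [Finset.card_eq_zero] at h0
    subst h0
    simp [phi_zero]
  · rw [phi_ge_two _ _ h]
    have h1 : ∑ R : Finset (Fin k), ((2 / 3 : ℝ) - ((A ∩ R).card : ℝ) / 2 ^ J
        - 2 / 3 * (if (A ∩ R).card = 0 then 1 else 0)
        + 1 / 3 * (if (A ∩ R).card = 1 then 1 else 0)) ≤ ∑ R : Finset (Fin k), phi J (A ∩ R).card :=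
      Finset.sum_le_sum fun R _ => phi_lower J _
    refine le_trans ?_ h1
    have h6 : ∑ R : Finset (Fin k), ((A ∩ R).card : ℝ) / 2 ^ J
        = (∑ R : Finset (Fin k), ((A ∩ R).card : ℝ)) / 2 ^ J := (Finset.sum_div _ _ _).symm
    rw [Finset.sum_add_distrib, Finset.sum_sub_distrib, Finset.sum_sub_distrib,
      ← Finset.mul_sum, ← Finset.mul_sum, h6, Finset.sum_boole, Finset.sum_boole,
      Finset.sum_const, Finset.card_univ, Fintype.card_finset, Fintype.card_fin, nsmul_eq_mul]
    have h2 := sum_card A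
    have h3 : (2 : ℝ) * ((univ.filter fun R : Finset (Fin k) => (A ∩ R).card = 0).card : ℝ)
        ≤ ((univ.filter fun R : Finset (Fin k) => (A ∩ R).card = 1).card : ℝ) := by
      exact_mod_cast card_one_ge A h
    have h4 : (∑ R : Finset (Fin k), ((A ∩ R).card : ℝ)) = 2 ^ k * A.card / 2 := by linarith
    rw [h4]
    push_cast
    have h5 : (2 : ℝ) ^ k * (2 / 3 - (A.card : ℝ) / 2 ^ (J + 1))
        = 2 ^ k * (2 / 3) - 2 ^ k * A.card / 2 / 2 ^ J := by
      rw [pow_succ]
      field_simp
    rw [h5]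
    linarith

theorem step2 {α : Type} {k : ℕ} (J : ℕ) : ∀ (X : Finset α) (A : α → Finset (Fin k)),
    ∃ S : Fin (J + 1) → Finset (Fin k), ∑ x ∈ X, phi J (A x).card
      ≤ ((X.filter fun x => ∃ j, ((A x) ∩ (S j)).card = 1).card : ℝ) := by
  classical
  induction J with
  | zero =>
    intro X A
    refine ⟨fun _ => univ, ?_⟩
    have h1 : ((X.filter fun x => ∃ _j : Fin (0 + 1), ((A x) ∩ univ).card = 1).card : ℝ)
        = ∑ x ∈ X, if (∃ _j : Fin (0 + 1), ((A x) ∩ univ).card = 1) then (1 : ℝ) else 0 := by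
      rw [Finset.sum_boole]
    rw [h1]
    apply Finset.sum_le_sum
    intro x _
    rw [inter_univ]
    by_cases h : (A x).card = 1
    · rw [if_pos ⟨0, h⟩, h, phi_one]
    · rw [if_neg (by rintro ⟨_, h'⟩; exact h h')]
      rcases Nat.lt_or_ge (A x).card 2 with h2 | h2
      · have h0 : (A x).card = 0 := by omega
        rw [h0, phi_zero]
      · rw [phi_ge_two _ _ h2, pow_zero, div_one]
        have : (2 : ℝ) ≤ (A x).card := by exact_mod_cast h2
        linarith
  | succ J ih =>
    intro X A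
    set X' := X.filter fun x => (A x).card ≠ 1 with hX'
    -- choose R
    have h1 : ∑ _R : Finset (Fin k), (∑ x ∈ X', phi (J + 1) (A x).card)
        ≤ ∑ R : Finset (Fin k), ∑ x ∈ X', phi J (A x ∩ R).card := by
      have hcm : ∑ R : Finset (Fin k), ∑ x ∈ X', phi J (A x ∩ R).card
          = ∑ x ∈ X', ∑ R : Finset (Fin k), phi J (A x ∩ R).card := Finset.sum_comm
      rw [hcm, Finset.sum_const, Finset.card_univ, Fintype.card_finset, Fintype.card_fin, nsmul_eq_mul,
        Finset.mul_sum]
      apply Finset.sum_le_sum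
      intro x hx
      have := step1 J (A x) (mem_filter.1 hx).2
      push_cast
      exact this
    obtain ⟨R, -, hR⟩ := Finset.exists_le_of_sum_le (Finset.univ_nonempty) h1
    obtain ⟨S', hS'⟩ := ih X' (fun x => A x ∩ R)
    refine ⟨Fin.cons univ (fun j => R ∩ S' j), ?_⟩
    have e1 : ∑ x ∈ X, phi (J + 1) (A x).card
        = ((X.filter fun x => (A x).card = 1).card : ℝ) + ∑ x ∈ X', phi (J + 1) (A x).card := by
      rw [← Finset.sum_filter_add_sum_filter_not X (fun x => (A x).card = 1)]
      congr 1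
      rw [Finset.sum_congr rfl (g := fun _ => (1 : ℝ))]
      · simp
      · intro x hx
        rw [(mem_filter.1 hx).2, phi_one]
    rw [e1]
    have h2 : ((X.filter fun x => (A x).card = 1).card : ℝ)
        + ((X'.filter fun x => ∃ j, ((A x ∩ R) ∩ (S' j)).card = 1).card : ℝ)
        ≤ ((X.filter fun x => ∃ j, ((A x) ∩
          ((Fin.cons univ (fun j => R ∩ S' j) : Fin (J + 1 + 1) → Finset (Fin k)) j)).card = 1).card
            : ℝ) := by
      have hd : Disjoint (X.filter fun x => (A x).card = 1)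
          (X'.filter fun x => ∃ j, ((A x ∩ R) ∩ (S' j)).card = 1) := by
        rw [Finset.disjoint_left]
        intro x h3 h4
        exact (mem_filter.1 (mem_filter.1 h4).1).2 (mem_filter.1 h3).2
      have h5 : (X.filter fun x => (A x).card = 1)
          ∪ (X'.filter fun x => ∃ j, ((A x ∩ R) ∩ (S' j)).card = 1)
          ⊆ X.filter fun x => ∃ j, ((A x) ∩
          ((Fin.cons univ (fun j => R ∩ S' j) : Fin (J + 1 + 1) → Finset (Fin k)) j)).card = 1 := by
        apply union_subset
        · intro x hx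
          rw [mem_filter] at hx ⊢
          refine ⟨hx.1, 0, ?_⟩
          rw [Fin.cons_zero, inter_univ]
          exact hx.2
        · intro x hx
          rw [mem_filter] at hx ⊢
          obtain ⟨hx1, j, hj⟩ := hx
          refine ⟨(mem_filter.1 hx1).1, j.succ, ?_⟩
          rw [Fin.cons_succ, ← inter_assoc]
          exact hj
      have h6 := Finset.card_le_card h5
      rw [Finset.card_union_of_disjoint hd] at h6
      exact_mod_cast h6
    linarith

theorem half {α : Type} {k l : ℕ} (hk : k ≤ 2 ^ l) (X : Finset α) (A : α → Finset (Fin k))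
    (hA : ∀ x ∈ X, (A x).Nonempty) : ∃ S : Fin (l + 4) → Finset (Fin k),
      2 * (X.filter fun x => ∀ j, ((A x) ∩ (S j)).card ≠ 1).card ≤ X.card := by
  classical
  obtain ⟨S, hS⟩ := step2 (l + 3) X A
  refine ⟨S, ?_⟩
  have h1 : ∑ _x ∈ X, (1 / 2 : ℝ) ≤ ∑ x ∈ X, phi (l + 3) (A x).card := by
    apply Finset.sum_le_sum
    intro x hx
    have h2 : 1 ≤ (A x).card := Finset.card_pos.2 (hA x hx)
    have h3 : (A x).card ≤ 2 ^ l := by
      have := Finset.card_le_univ (A x)
      rw [Fintype.card_fin] at this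
      exact this.trans hk
    rcases Nat.lt_or_ge (A x).card 2 with h4 | h4
    · have h5 : (A x).card = 1 := by omega
      rw [h5, phi_one]
      norm_num
    · rw [phi_ge_two _ _ h4]
      have h5 : ((A x).card : ℝ) / 2 ^ (l + 3) ≤ 1 / 8 := by
        rw [div_le_iff₀ (by positivity)]
        have h6 : ((A x).card : ℝ) ≤ 2 ^ l := by exact_mod_cast h3
        have h7 : (1 / 8 : ℝ) * 2 ^ (l + 3) = 2 ^ l := by
          rw [pow_add]
          norm_num
          ring
        linarith
      linarith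
  rw [Finset.sum_const, nsmul_eq_mul] at h1
  have h8 : (X.card : ℝ) ≤ 2 * ((X.filter fun x => ∃ j, ((A x) ∩ (S j)).card = 1).card : ℝ) := by
    linarith
  have h9 : X.card ≤ 2 * (X.filter fun x => ∃ j, ((A x) ∩ (S j)).card = 1).card := by
    exact_mod_cast h8
  have h10 := Finset.card_filter_add_card_filter_not (s := X)
    (fun x => ∃ j, ((A x) ∩ (S j)).card = 1)
  have h11 : (X.filter fun x => ∀ j, ((A x) ∩ (S j)).card ≠ 1)
      = X.filter fun x => ¬ ∃ j, ((A x) ∩ (S j)).card = 1 := by
    apply Finset.filter_congr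
    intro x _
    rw [not_exists]
  rw [h11]
  omega

end ISO

open ISO in
theorem t_ISO : T_ISO := by
  intro α k l T hk
  induction T with
  | zero =>
    intro X A _
    refine ⟨fun t => t.elim0, ?_⟩
    rw [pow_zero, one_mul]
    exact Finset.card_filter_le _ _
  | succ T ih =>
    intro X A hA
    obtain ⟨S0, hS0⟩ := half hk X A hA
    set X1 := X.filter fun x => ∀ j, ((A x) ∩ (S0 j)).card ≠ 1 with hX1
    obtain ⟨S', hS'⟩ := ih X1 A (fun x hx => hA x (mem_filter.1 hx).1)
    refine ⟨Fin.cons S0 S', ?_⟩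
    have h1 : (X.filter fun x => ∀ t j, ((A x) ∩
        ((Fin.cons S0 S' : Fin (T + 1) → Fin (l + 4) → Finset (Fin k)) t j)).card ≠ 1)
        = X1.filter fun x => ∀ t j, ((A x) ∩ (S' t j)).card ≠ 1 := by
      ext x
      rw [mem_filter, mem_filter, hX1, mem_filter]
      constructor
      · rintro ⟨hx, h⟩
        exact ⟨⟨hx, fun j => h 0 j⟩, fun t j => h t.succ j⟩
      · rintro ⟨⟨hx, h0⟩, h⟩
        refine ⟨hx, fun t => ?_⟩
        refine Fin.cases ?_ ?_ t
        · exact h0
        · exact h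
    rw [h1]
    calc 2 ^ (T + 1) * (X1.filter fun x => ∀ t j, ((A x) ∩ (S' t j)).card ≠ 1).card
        = 2 * (2 ^ T * (X1.filter fun x => ∀ t j, ((A x) ∩ (S' t j)).card ≠ 1).card) := by
          rw [pow_succ]; ring
      _ ≤ 2 * X1.card := Nat.mul_le_mul_left 2 hS'
      _ ≤ X.card := hS0

end Pool.Agent.Helper99.TH
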