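import Pool.Agent.Helper99.TH.St

/-! Project TH, module MH: the generalized inner product is not a small majority -/

namespace Pool.Agent.Helper99.TH

open Pool.Agent.Helper70.AC Pool.Agent.Helper72 Finset

theorem MH_term {X : Type} (r : ℕ) (g : Fin r → X → Bool) (G : X → Bool)
    (hG : ∀ x, G x = true ↔ r ≤ 2 * (univ.filter (fun i => g i x = true)).card) (x : X) :
    sg (G x) * (2 * ((univ.filter (fun i => g i x = true)).card : ℝ) - r + 1 / 2) ≤ -(1 / 2) := by
  rw [sg]
  by_cases h : G x = true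
  · rw [if_pos h]
    have h1 := (hG x).1 h
    have h2 : (r : ℝ) ≤ 2 * ((univ.filter (fun i => g i x = true)).card : ℝ) := by exact_mod_cast h1
    linarith
  · rw [if_neg h]
    have h1 : ¬ r ≤ 2 * (univ.filter (fun i => g i x = true)).card := fun h2 => h ((hG x).2 h2)
    have h2 : 2 * (univ.filter (fun i => g i x = true)).card + 1 ≤ r := by omega
    have h3 : 2 * ((univ.filter (fun i => g i x = true)).card : ℝ) + 1 ≤ r := by exact_mod_cast h2
    linarith

theorem MH_gen {X : Type} [Fintype X] (r s : ℕ) (hr : r ≤ s) (g : Fin r → X → Bool) (G : X → Bool)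
    (hG : ∀ x, G x = true ↔ r ≤ 2 * (univ.filter (fun i => g i x = true)).card) (E : ℝ)
    (hE0 : 0 ≤ E)
    (hg : ∀ i, |∑ x, sg (G x) * (if g i x = true then 1 else 0)| ≤ E)
    (h1 : |∑ x, sg (G x)| ≤ E) : (Fintype.card X : ℝ) ≤ ((6 * s + 2 : ℕ) : ℝ) * E := by
  have hS : ∑ x, sg (G x) * (2 * ((univ.filter (fun i => g i x = true)).card : ℝ) - r + 1 / 2) ≤
      (Fintype.card X : ℝ) * (-(1 / 2)) := by
    refine (Finset.sum_le_sum fun x _ => MH_term r g G hG x).trans ?_
    rw [Finset.sum_const, Finset.card_univ, nsmul_eq_mul]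
  have hS2 : ∑ x, sg (G x) * (2 * ((univ.filter (fun i => g i x = true)).card : ℝ) - r + 1 / 2) =
      2 * (∑ i, ∑ x, sg (G x) * (if g i x = true then 1 else 0)) +
        (1 / 2 - r) * ∑ x, sg (G x) := by
    rw [Finset.sum_comm, Finset.mul_sum, Finset.mul_sum, ← Finset.sum_add_distrib]
    refine Finset.sum_congr rfl fun x _ => ?_
    rw [← Finset.mul_sum, Finset.sum_boole]
    ring
  have hA : |∑ i, ∑ x, sg (G x) * (if g i x = true then 1 else 0)| ≤ s * E := by
    refine (Finset.abs_sum_le_sum_abs _ _).trans ((Finset.sum_le_sum fun i _ => hg i).trans ?_)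
    rw [Finset.sum_const, Finset.card_univ, Fintype.card_fin, nsmul_eq_mul]
    exact mul_le_mul_of_nonneg_right (by exact_mod_cast hr) hE0
  have hB : |(1 / 2 - (r : ℝ)) * ∑ x, sg (G x)| ≤ (s + 1 / 2) * E := by
    rw [abs_mul]
    refine mul_le_mul ?_ h1 (abs_nonneg _) (by positivity)
    have hr' : (r : ℝ) ≤ s := by exact_mod_cast hr
    have hr0 : (0 : ℝ) ≤ r := Nat.cast_nonneg _
    rw [abs_le]
    constructor <;> linarith
  rw [hS2] at hS
  have e1 := (abs_le.1 hA).1
  have e2 := (abs_le.1 hB).1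
  push_cast
  nlinarith [mul_nonneg (Nat.cast_nonneg s : (0 : ℝ) ≤ s) hE0]

theorem t_MH (h1 : T_BN) (h2 : T_SC) (h3 : T_TC) (h4 : T_CB) : T_MH := by
  intro K m s hK ha hb hmaj
  obtain ⟨r, hr, g, hg, hG⟩ := hmaj
  have hK1 : 1 ≤ K := by omega
  have hc0 : 0 ≤ cc K := (h4 K).2.2 hK1
  have hcm : 0 ≤ cc K ^ m := pow_nonneg hc0 m
  set W : ℝ := 2 ^ (K * m) with hW
  have hW0 : 0 < W := by positivity
  set A : ℝ := (s + 1) ^ K * cc K ^ m with hA
  set B : ℝ := (m + 1) * Real.sqrt ((1 - (1 / 2) ^ (K - 1)) ^ m) with hB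
  have hA0 : 0 ≤ A := by positivity
  set E : ℝ := W * max A B with hE
  have hE0 : 0 ≤ E := mul_nonneg hW0.le (le_trans hA0 (le_max_left _ _))
  have hcard : (Fintype.card (Fin K × Fin m → Bool) : ℝ) = W := by
    rw [Fintype.card_fun, Fintype.card_prod, Fintype.card_fin, Fintype.card_fin, Fintype.card_bool,
      hW]
    push_cast
    rfl
  have hgE : ∀ i, |∑ x, sg (gip x) * (if g i x = true then 1 else 0)| ≤ E := by
    intro i
    rcases hg i with h | h
    · refine (h3 K m hK (g i) h).trans ?_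
      calc (m + 1) * 2 ^ (K * m) * Real.sqrt ((1 - (1 / 2) ^ (K - 1)) ^ m) = W * B := by
            rw [hB, hW]; ring
        _ ≤ E := mul_le_mul_of_nonneg_left (le_max_right _ _) hW0.le
    · refine (h2 K m (K - 1) s (by omega) (g i) h).trans ?_
      calc (s + 1) ^ K * (2 ^ (K * m) * cc K ^ m) = W * A := by
            rw [hA, hW]; ring
        _ ≤ E := mul_le_mul_of_nonneg_left (le_max_left _ _) hW0.le
  have h1E : |∑ x : Fin K × Fin m → Bool, sg (gip x)| ≤ E := by
    have e1 := h1 K m hK1 (fun _ _ => 1) (fun _ _ => by simp) (fun _ _ _ _ => rfl)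
    have e2 : ∑ x : Fin K × Fin m → Bool, sg (gip x) * ∏ _j : Fin K, (1 : ℝ) =
        ∑ x : Fin K × Fin m → Bool, sg (gip x) := by
      refine Finset.sum_congr rfl fun x _ => ?_
      rw [Finset.prod_const_one, mul_one]
    rw [e2] at e1
    refine e1.trans ?_
    calc 2 ^ (K * m) * cc K ^ m ≤ W * A := by
          apply mul_le_mul_of_nonneg_left _ hW0.le
          rw [hA]
          refine le_mul_of_one_le_left hcm (one_le_pow₀ ?_)
          have : (0 : ℝ) ≤ s := Nat.cast_nonneg _
          linarith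
      _ ≤ E := mul_le_mul_of_nonneg_left (le_max_left _ _) hW0.le
  have key := MH_gen r s hr g gip hG E hE0 hgE h1E
  rw [hcard, hE] at key
  have hlt : ((6 * s + 2 : ℕ) : ℝ) * max A B < 1 := by
    rcases le_total A B with h | h
    · rw [max_eq_right h]; exact hb
    · rw [max_eq_left h]; exact ha
  have : W * (((6 * s + 2 : ℕ) : ℝ) * max A B) < W * 1 := mul_lt_mul_of_pos_left hlt hW0
  linarith [mul_left_comm (((6 * s + 2 : ℕ) : ℝ)) W (max A B)]

end Pool.Agent.Helper99.TH
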