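import Pool.Agent.Helper99.TH.St

/-!
# Project TH, module NB
-/

namespace Pool.Agent.Helper99.TH

open Finset

theorem t_NB : T_NB := by
  refine ⟨8, 6, fun h hh N l hN hl => ?_⟩
  have key : 4 * l + 4 < 2 ^ h := by
    by_contra hc
    push Not at hc
    obtain ⟨g, rfl⟩ : ∃ g, h = g + 3 := ⟨h - 3, by omega⟩
    have h1 : 2 ^ g ≤ l := by
      have e : 2 ^ (g + 3) = 8 * 2 ^ g := by rw [pow_add]; norm_num; ring
      have : 8 ≤ 2 ^ g := by
        calc 8 = 2 ^ 3 := by norm_num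
          _ ≤ 2 ^ g := Nat.pow_le_pow_right (by norm_num) (by omega)
      omega
    have h2 : (2 ^ g) ^ 8 ≤ 200 * 2 * 4 ^ (g + 3) :=
      (Nat.pow_le_pow_left h1 8).trans (hl.trans hN)
    have h3 : 200 * 2 * 4 ^ (g + 3) < 2 ^ (2 * g + 15) := by
      have e : 2 ^ (2 * g + 15) = 4 ^ (g + 3) * 2 ^ 9 := by
        have : (4 : ℕ) = 2 ^ 2 := by norm_num
        rw [this, ← pow_mul, ← pow_add]
        have e2 : 2 * g + 15 = 2 * (g + 3) + 9 := by omega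
        rw [e2]
      rw [e]
      have : 0 < 4 ^ (g + 3) := by positivity
      nlinarith
    have h4 : (2 ^ g) ^ 8 = 2 ^ (g * 8) := by rw [← pow_mul]
    rw [h4] at h2
    have h5 : 2 ^ (g * 8) < 2 ^ (2 * g + 15) := lt_of_le_of_lt h2 h3
    have h6 : g * 8 < 2 * g + 15 := (Nat.pow_lt_pow_iff_right (by norm_num)).1 h5
    omega
  have h1 : 2 ^ l * (2 ^ l + 1) + 1 ≤ 2 ^ (2 * l + 2) := by
    have e : 2 ^ (2 * l + 2) = 4 * (2 ^ l * 2 ^ l) := by
      rw [pow_add, two_mul, pow_add]; ring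
    rw [e]
    have : 1 ≤ 2 ^ l := Nat.one_le_two_pow
    nlinarith
  calc (2 ^ l * (2 ^ l + 1) + 1) ^ 2 ≤ (2 ^ (2 * l + 2)) ^ 2 := Nat.pow_le_pow_left h1 2
    _ = 2 ^ (4 * l + 4) := by rw [← pow_mul]; congr 1; ring
    _ < 2 ^ (2 ^ h) := Nat.pow_lt_pow_right (by norm_num) key

end Pool.Agent.Helper99.TH
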