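import Pool.Agent.Helper99.TH.St

/-!
# Project TH: numerical estimates (NC)
-/

namespace Pool.Agent.Helper99.TH

open Real

theorem NC_exp (n : ℕ) : exp (-(n : ℝ)) ≤ (1 / 2) ^ n := by
  have h1 : exp (-1 : ℝ) ≤ 1 / 2 := by
    rw [exp_neg, one_div]
    apply inv_anti₀ (by norm_num)
    have := add_one_le_exp (1 : ℝ)
    linarith
  have h2 : exp (-(n : ℝ)) = exp (-1) ^ n := by
    rw [← exp_nat_mul]; congr 1; ring
  rw [h2]
  exact pow_le_pow_left₀ (exp_pos _).le h1 n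

/-- the power of `cc K` -/
theorem NC_cc (K h e : ℕ) (hh : h = 2 * K + e) (hc : 0 ≤ cc K) (hc2 : cc K ≤ 1 - 2 / 4 ^ K) :
    cc K ^ (2 ^ h) ≤ (1 / 2) ^ (2 * 2 ^ e) := by
  have h1 : cc K ≤ exp (-(2 / 4 ^ K)) := by
    have := add_one_le_exp (-(2 / 4 ^ K) : ℝ)
    linarith
  calc cc K ^ (2 ^ h) ≤ exp (-(2 / 4 ^ K)) ^ (2 ^ h) := pow_le_pow_left₀ hc h1 _
    _ = exp (-((2 * 2 ^ e : ℕ) : ℝ)) := by
        rw [← exp_nat_mul]
        congr 1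
        rw [hh, pow_add, pow_mul]
        push_cast
        norm_num
        field_simp
    _ ≤ _ := NC_exp _

/-- the square root -/
theorem NC_sqrt (K h e : ℕ) (hK : 1 ≤ K) (hh : h = K + e) :
    Real.sqrt ((1 - (1 / 2) ^ (K - 1)) ^ (2 ^ h)) ≤ (1 / 2) ^ (2 ^ e) := by
  apply Real.sqrt_le_iff.2
  refine ⟨by positivity, ?_⟩
  have h0 : (0 : ℝ) ≤ 1 - (1 / 2) ^ (K - 1) :=
    sub_nonneg.2 (pow_le_one₀ (by norm_num) (by norm_num))
  have h1 : (1 : ℝ) - (1 / 2) ^ (K - 1) ≤ exp (-((1 / 2) ^ (K - 1))) := by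
    have := add_one_le_exp (-((1 / 2) ^ (K - 1)) : ℝ)
    linarith
  calc ((1 : ℝ) - (1 / 2) ^ (K - 1)) ^ (2 ^ h) ≤ exp (-((1 / 2) ^ (K - 1))) ^ (2 ^ h) :=
        pow_le_pow_left₀ h0 h1 _
    _ = exp (-((2 * 2 ^ e : ℕ) : ℝ)) := by
        rw [← exp_nat_mul]
        congr 1
        obtain ⟨L, rfl⟩ : ∃ L, K = L + 1 := ⟨K - 1, by omega⟩
        rw [hh]
        have e1 : L + 1 + e = L + (e + 1) := by ring
        rw [e1, pow_add]
        push_cast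
        have : (2 : ℝ) ^ L * (1 / 2) ^ L = 1 := by rw [← mul_pow]; norm_num
        rw [pow_succ (2 : ℝ) e]
        linear_combination -(2 : ℝ) ^ e * 2 * this
    _ ≤ (1 / 2) ^ (2 * 2 ^ e) := NC_exp _
    _ = ((1 / 2) ^ (2 ^ e)) ^ 2 := by rw [← pow_mul]; congr 1; ring

theorem NC_half (a b : ℕ) (h : a < b) : (2 : ℝ) ^ a * (1 / 2) ^ b < 1 := by
  rw [one_div, inv_pow, ← div_eq_mul_inv, div_lt_one (by positivity)]
  exact pow_lt_pow_right₀ (by norm_num) h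

theorem NC_six (l : ℕ) : ((6 * 2 ^ l + 2 : ℕ) : ℝ) ≤ 2 ^ (l + 3) := by
  have : (1 : ℝ) ≤ 2 ^ l := one_le_pow₀ (by norm_num)
  push_cast
  rw [pow_add]
  linarith

/-- the first product -/
theorem NC_prod1 (K h e l : ℕ) (hh : h = 2 * K + e) (hc : 0 ≤ cc K)
    (hc2 : cc K ≤ 1 - 2 / 4 ^ K) (hl : l + 3 + (l + 1) * K < 2 * 2 ^ e) :
    ((6 * 2 ^ l + 2 : ℕ) : ℝ) * (((2 ^ l : ℕ) + 1) ^ K * cc K ^ (2 ^ h)) < 1 := by
  have h1 := NC_cc K h e hh hc hc2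
  have h2 := NC_six l
  have h3 : (((2 ^ l : ℕ) : ℝ) + 1) ^ K ≤ 2 ^ ((l + 1) * K) := by
    rw [pow_mul]
    refine pow_le_pow_left₀ (by positivity) ?_ K
    have : (1 : ℝ) ≤ 2 ^ l := one_le_pow₀ (by norm_num)
    push_cast
    rw [pow_succ]
    linarith
  have hc3 : 0 ≤ cc K ^ (2 ^ h) := pow_nonneg hc _
  calc ((6 * 2 ^ l + 2 : ℕ) : ℝ) * (((2 ^ l : ℕ) + 1) ^ K * cc K ^ (2 ^ h))
      ≤ 2 ^ (l + 3) * (2 ^ ((l + 1) * K) * (1 / 2) ^ (2 * 2 ^ e)) :=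
        mul_le_mul h2 (mul_le_mul h3 h1 hc3 (by positivity)) (by positivity) (by positivity)
    _ = 2 ^ (l + 3 + (l + 1) * K) * (1 / 2) ^ (2 * 2 ^ e) := by rw [pow_add]; ring
    _ < 1 := NC_half _ _ hl

/-- the second product -/
theorem NC_prod2 (K h e l : ℕ) (hK : 1 ≤ K) (hh : h = K + e)
    (hl : l + 3 + (h + 1) < 2 ^ e) :
    ((6 * 2 ^ l + 2 : ℕ) : ℝ) * (((2 ^ h : ℕ) + 1) *
      Real.sqrt ((1 - (1 / 2) ^ (K - 1)) ^ (2 ^ h))) < 1 := by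
  have h1 := NC_sqrt K h e hK hh
  have h2 := NC_six l
  have h3 : (((2 ^ h : ℕ) : ℝ) + 1) ≤ 2 ^ (h + 1) := by
    have : (1 : ℝ) ≤ 2 ^ h := one_le_pow₀ (by norm_num)
    push_cast
    rw [pow_succ]
    linarith
  calc ((6 * 2 ^ l + 2 : ℕ) : ℝ) * (((2 ^ h : ℕ) + 1) *
      Real.sqrt ((1 - (1 / 2) ^ (K - 1)) ^ (2 ^ h)))
      ≤ 2 ^ (l + 3) * (2 ^ (h + 1) * (1 / 2) ^ (2 ^ e)) :=
        mul_le_mul h2 (mul_le_mul h3 h1 (Real.sqrt_nonneg _) (by positivity)) (by positivity)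
          (by positivity)
    _ = 2 ^ (l + 3 + (h + 1)) * (1 / 2) ^ (2 ^ e) := by rw [pow_add 2 (l + 3)]; ring
    _ < 1 := NC_half _ _ hl

theorem NC_lin (u : ℕ) (hu : 13 ≤ u) : 400 * u + 320 ≤ 2 ^ u := by
  induction u, hu using Nat.le_induction with
  | base => norm_num
  | succ u hu ih => rw [pow_succ]; omega

theorem NC_v (v : ℕ) (hv : 3 ≤ v) : 16 * (v + 1) < 2 ^ (3 * v) := by
  induction v, hv using Nat.le_induction with
  | base => norm_num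
  | succ v hv ih =>
    have : 2 ^ (3 * (v + 1)) = 8 * 2 ^ (3 * v) := by rw [mul_add, pow_add]; ring
    rw [this]; omega

theorem t_NC (h : T_CB) : T_NC := by
  refine ⟨44, 100, ?_⟩
  intro h' hh N l hN hl
  set K := 2 * h' / 5 with hKd
  set u := h' / 5 with hud
  have hK1 : 5 * K ≤ 2 * h' := by omega
  have hK2 : 2 * h' ≤ 5 * K + 4 := by omega
  have hu1 : 5 * u ≤ h' := by omega
  have hu2 : h' ≤ 5 * u + 4 := by omega
  have hu20 : 20 ≤ u := by omega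
  have h200 : 200 * K ≤ 2 ^ u := by
    have := NC_lin u (by omega)
    omega
  have hN2 : N ≤ 2 ^ (2 * h' + u) := by
    calc N ≤ 200 * K * 4 ^ h' := hN
      _ ≤ 2 ^ u * 4 ^ h' := Nat.mul_le_mul_right _ h200
      _ = 2 ^ (2 * h' + u) := by
        rw [pow_add, pow_mul]; norm_num; ring
  -- the bound of `l`
  set v := u / 4 with hvd
  have hv1 : u ≤ 4 * v + 3 := by omega
  have hv2 : 4 * v ≤ u := by omega
  have hlv : l < 2 ^ (v + 1) := by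
    by_contra hcon
    have h1 : 2 ^ (v + 1) ≤ l := by omega
    have h2 : 2 ^ ((v + 1) * 44) ≤ l ^ 44 := by
      rw [pow_mul]; exact Nat.pow_le_pow_left h1 44
    have h3 : 2 ^ ((v + 1) * 44) ≤ 2 ^ (2 * h' + u) := h2.trans (hl.trans hN2)
    have h4 := (Nat.pow_le_pow_iff_right (by norm_num : 1 < 2)).1 h3
    omega
  have hcc := h K
  refine ⟨by omega, ?_, ?_, ?_⟩
  · have h1 : Nat.log 2 N ≤ 2 * h' + u := by
      calc Nat.log 2 N ≤ Nat.log 2 (2 ^ (2 * h' + u)) := Nat.log_mono_right hN2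
        _ = 2 * h' + u := Nat.log_pow (by norm_num) _
    omega
  · refine NC_prod1 K h' (h' - 2 * K) l (by omega) (hcc.2.2 (by omega)) hcc.2.1 ?_
    have h1 : u ≤ h' - 2 * K := by omega
    have h2 : 2 ^ u ≤ 2 ^ (h' - 2 * K) := Nat.pow_le_pow_right (by norm_num) h1
    have h3 : 2 ^ (4 * v) ≤ 2 ^ u := Nat.pow_le_pow_right (by norm_num) hv2
    have h4 := NC_v v (by omega)
    have h5 : 2 ^ (4 * v) = 2 ^ v * 2 ^ (3 * v) := by rw [← pow_add]; congr 1; ring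
    have h6 : 2 ^ v * (16 * (v + 1)) < 2 ^ v * 2 ^ (3 * v) :=
      Nat.mul_lt_mul_of_pos_left h4 (by positivity)
    have h7 : 2 ^ (v + 1) = 2 * 2 ^ v := by ring
    have hKu : K ≤ 2 * u + 1 := by omega
    have h8 : l + 3 + (l + 1) * K ≤ (l + 3) * (2 * u + 2) := by nlinarith
    have h9 : (l + 3) * (2 * u + 2) ≤ (2 * 2 ^ v + 2) * (8 * v + 8) := by
      apply Nat.mul_le_mul
      · omega
      · omega
    have h10 : 1 ≤ 2 ^ v := Nat.one_le_two_pow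
    have h11 : (2 * 2 ^ v + 2) * (8 * v + 8) ≤ 2 * (2 ^ v * (16 * (v + 1))) := by nlinarith
    omega
  · refine NC_prod2 K h' (h' - K) l (by omega) (by omega) ?_
    have h1 : 3 * u ≤ h' - K := by omega
    have h2 : 2 ^ (3 * u) ≤ 2 ^ (h' - K) := Nat.pow_le_pow_right (by norm_num) h1
    have h3 : 2 ^ (v + 1) ≤ 2 ^ u := Nat.pow_le_pow_right (by norm_num) (by omega)
    have h4 := NC_lin u (by omega)
    have h5 : 2 ^ (3 * u) = 2 ^ u * (2 ^ u * 2 ^ u) := by ring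
    have h6 : 4 * 2 ^ u ≤ 2 ^ u * (2 ^ u * 2 ^ u) := by
      rw [Nat.mul_comm 4]
      apply Nat.mul_le_mul_left
      nlinarith
    omega

end Pool.Agent.Helper99.TH
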