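import Pool.Agent.Helper99.TH.St

/-!
# Project TH, module ND
-/

namespace Pool.Agent.Helper99.TH

open Finset

private theorem nd_exp {x : ℕ} {y : ℝ} (h : (x : ℝ) < y) : (2 : ℝ) ^ x < Real.exp y := by
  have h1 : (2 : ℝ) ≤ Real.exp 1 := by
    have := Real.add_one_le_exp (1 : ℝ)
    linarith
  calc (2 : ℝ) ^ x ≤ (Real.exp 1) ^ x := pow_le_pow_left₀ (by norm_num) h1 x
    _ = Real.exp x := by rw [← Real.exp_nat_mul, mul_one]
    _ < Real.exp y := Real.exp_lt_exp.2 h

private theorem nd_cube : ∀ e : ℕ, 40 ≤ e → 375 * e ^ 3 ≤ 2 ^ e := by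
  intro e he
  induction e, he using Nat.le_induction with
  | base => norm_num
  | succ e he ih =>
    rw [pow_succ 2 e]
    have h1 : (e + 1) ^ 3 ≤ 2 * e ^ 3 := by
      have : 3 * e ^ 2 + 3 * e + 1 ≤ e ^ 3 := by nlinarith [Nat.pow_le_pow_left he 2]
      nlinarith
    nlinarith

theorem t_ND (hCB : T_CB) : T_ND := by
  refine ⟨1000, 200, fun h hh N l hN hl => ?_⟩
  set K := 2 * h / 5 with hK
  have hK1 : 5 * K ≤ 2 * h := Nat.mul_div_le _ _
  have hK2 : 2 * h < 5 * K + 5 := by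
    have := Nat.lt_mul_div_succ (2 * h) (b := 5) (by norm_num)
    omega
  -- the logarithm
  have hlog : Nat.log 2 N ≤ 5 * h := by
    have h1 : N < 2 ^ (5 * h + 1) := by
      have hKh : 200 * K < 2 ^ h := by
        have h2 : 200 * K ≤ 80 * h := by omega
        have h3 : 80 * h < 2 ^ h := by
          have := nd_cube h (by omega)
          have h4 : h ≤ h ^ 3 := by
            calc h = h ^ 1 := (pow_one h).symm
              _ ≤ h ^ 3 := Nat.pow_le_pow_right (by omega) (by norm_num)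
          omega
        omega
      have h4 : 4 ^ (h + h) = 2 ^ (4 * h) := by
        have : (4 : ℕ) = 2 ^ 2 := by norm_num
        rw [this, ← pow_mul]
        congr 1
        ring
      calc N ≤ 200 * K * 4 ^ (h + h) := hN
        _ < 2 ^ h * 4 ^ (h + h) := Nat.mul_lt_mul_of_pos_right hKh (by positivity)
        _ = 2 ^ (5 * h) := by rw [h4, ← pow_add]; congr 1; ring
        _ ≤ 2 ^ (5 * h + 1) := Nat.pow_le_pow_right (by norm_num) (by omega)
    exact Nat.lt_succ_iff.1 (Nat.log_lt_of_lt_pow' (by omega) h1)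
  have hl1 : 40 * l ≤ h ^ 2 := by
    have h1 : Nat.log 2 N ^ 2 ≤ (5 * h) ^ 2 := Nat.pow_le_pow_left hlog 2
    have h2 : (5 * h) ^ 2 = 25 * h ^ 2 := by ring
    omega
  obtain ⟨c1, c2, c3⟩ := hCB K
  have hc0 : 0 ≤ cc K := c3 (by omega)
  -- the exponent
  obtain ⟨e, he⟩ : ∃ e, h = 2 * K + e := ⟨h - 2 * K, by omega⟩
  have he1 : h ≤ 5 * e := by omega
  have he2 : 40 ≤ e := by omega
  have hcube := nd_cube e he2
  have hh3 : 3 * h ^ 3 ≤ 2 ^ e := by
    have : h ^ 3 ≤ (5 * e) ^ 3 := Nat.pow_le_pow_left he1 3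
    have e2 : (5 * e) ^ 3 = 125 * e ^ 3 := by ring
    omega
  have hlh : l ≤ h ^ 2 := by omega
  have hKh : K ≤ h := by omega
  have hA : l + 3 + (l + 1) * K ≤ 2 ^ e := by
    refine le_trans ?_ hh3
    have h1 : (l + 1) * K ≤ (h ^ 2 + 1) * h := Nat.mul_le_mul (by omega) hKh
    have h2 : h ^ 2 + 3 + (h ^ 2 + 1) * h ≤ 3 * h ^ 3 := by nlinarith
    omega
  have hB : l + 3 + (h + 1) ≤ 2 ^ e := by
    refine le_trans ?_ hh3
    have h2 : h ^ 2 + 3 + (h + 1) ≤ 3 * h ^ 3 := by nlinarith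
    omega
  have hone : (1 : ℝ) ≤ 2 ^ l := one_le_pow₀ (by norm_num)
  have hfac : ((6 * 2 ^ l + 2 : ℕ) : ℝ) ≤ 2 ^ (l + 3) := by
    push_cast
    rw [pow_add]
    norm_num
    linarith
  refine ⟨by omega, ?_, ?_, ?_⟩
  · have hK3 : K - 1 + 1 = K := by omega
    rw [hK3, ← pow_add, ← pow_add, ← pow_mul]
    refine Nat.pow_lt_pow_right (by norm_num) ?_
    have h1 : 5 * (h * K) = h * (5 * K) := by ring
    have h2 : h * (2 * h) < h * (5 * K + 5) := Nat.mul_lt_mul_of_pos_left hK2 (by omega)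
    nlinarith
  · have h1 : cc K ^ (2 ^ h) ≤ Real.exp (-(2 * 2 ^ e)) := by
      have h2 : cc K ≤ Real.exp (-(2 / 4 ^ K)) := by
        have := Real.add_one_le_exp (-(2 / 4 ^ K) : ℝ)
        linarith
      calc cc K ^ (2 ^ h) ≤ (Real.exp (-(2 / 4 ^ K))) ^ (2 ^ h) := pow_le_pow_left₀ hc0 h2 _
        _ = Real.exp (-(2 * 2 ^ e)) := by
          rw [← Real.exp_nat_mul]
          congr 1
          have h3 : ((2 ^ h : ℕ) : ℝ) = 4 ^ K * 2 ^ e := by
            push_cast
            conv_lhs => rw [he]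
            rw [pow_add, pow_mul]
            norm_num
          rw [h3]
          have : (4 : ℝ) ^ K ≠ 0 := by positivity
          field_simp
    have h2 : (((2 ^ l : ℕ) : ℝ) + 1) ^ K ≤ 2 ^ ((l + 1) * K) := by
      rw [pow_mul]
      refine pow_le_pow_left₀ (by positivity) ?_ K
      push_cast
      rw [pow_succ]
      linarith
    have h3 : (2 : ℝ) ^ (l + 3 + (l + 1) * K) < Real.exp (2 * 2 ^ e) := by
      refine nd_exp ?_
      have h4 : ((l + 3 + (l + 1) * K : ℕ) : ℝ) ≤ 2 ^ e := by exact_mod_cast hA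
      have h5 : (0 : ℝ) < 2 ^ e := by positivity
      linarith
    have h0 : 0 ≤ cc K ^ (2 ^ h) := pow_nonneg hc0 _
    calc ((6 * 2 ^ l + 2 : ℕ) : ℝ) * ((((2 ^ l : ℕ) : ℝ) + 1) ^ K * cc K ^ (2 ^ h))
        ≤ 2 ^ (l + 3) * (2 ^ ((l + 1) * K) * Real.exp (-(2 * 2 ^ e))) := by
          refine mul_le_mul hfac (mul_le_mul h2 h1 h0 (by positivity)) (by positivity)
            (by positivity)
      _ = 2 ^ (l + 3 + (l + 1) * K) * Real.exp (-(2 * 2 ^ e)) := by rw [pow_add _ (l + 3)]; ring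
      _ < Real.exp (2 * 2 ^ e) * Real.exp (-(2 * 2 ^ e)) :=
          mul_lt_mul_of_pos_right h3 (Real.exp_pos _)
      _ = 1 := by rw [← Real.exp_add]; simp
  · have hle : (1 / 2 : ℝ) ^ (K - 1) ≤ 1 := pow_le_one₀ (by norm_num) (by norm_num)
    have h1 : Real.sqrt ((1 - (1 / 2) ^ (K - 1)) ^ (2 ^ h)) ≤ Real.exp (-(2 * 2 ^ e)) := by
      have h2 : (1 : ℝ) - (1 / 2) ^ (K - 1) ≤ Real.exp (-((1 / 2) ^ (K - 1))) := by
        have := Real.add_one_le_exp (-((1 / 2) ^ (K - 1)) : ℝ)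
        linarith
      rw [Real.sqrt_le_left (Real.exp_pos _).le]
      calc ((1 : ℝ) - (1 / 2) ^ (K - 1)) ^ (2 ^ h)
          ≤ (Real.exp (-((1 / 2) ^ (K - 1)))) ^ (2 ^ h) :=
            pow_le_pow_left₀ (by linarith) h2 _
        _ = Real.exp (-((2 ^ h : ℕ) * (1 / 2) ^ (K - 1))) := by
            rw [← Real.exp_nat_mul]
            congr 1
            ring
        _ ≤ Real.exp (-(2 * (2 * 2 ^ e))) := by
            rw [Real.exp_le_exp, neg_le_neg_iff]
            obtain ⟨j, hj⟩ : ∃ j, K = j + 2 := ⟨K - 2, by omega⟩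
            have hj1 : K - 1 = j + 1 := by omega
            have hhj : h = e + (j + 3) + (j + 1) := by omega
            rw [hj1]
            push_cast
            rw [hhj, pow_add _ (e + (j + 3)), mul_assoc, ← mul_pow]
            norm_num
            rw [pow_add]
            have h6 : (4 : ℝ) ≤ 2 ^ (j + 3) := by
              rw [pow_add]
              have : (1 : ℝ) ≤ 2 ^ j := one_le_pow₀ (by norm_num)
              nlinarith
            have h7 : (0 : ℝ) < 2 ^ e := by positivity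
            nlinarith
        _ = Real.exp (-(2 * 2 ^ e)) ^ 2 := by
            rw [← Real.exp_nat_mul]
            congr 1
            push_cast
            ring
    have h2 : (((2 ^ h : ℕ) : ℝ) + 1) ≤ 2 ^ (h + 1) := by
      push_cast
      rw [pow_succ]
      have : (1 : ℝ) ≤ 2 ^ h := one_le_pow₀ (by norm_num)
      linarith
    have h3 : (2 : ℝ) ^ (l + 3 + (h + 1)) < Real.exp (2 * 2 ^ e) := by
      refine nd_exp ?_
      have h4 : ((l + 3 + (h + 1) : ℕ) : ℝ) ≤ 2 ^ e := by exact_mod_cast hB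
      have h5 : (0 : ℝ) < 2 ^ e := by positivity
      linarith
    calc ((6 * 2 ^ l + 2 : ℕ) : ℝ) * ((((2 ^ h : ℕ) : ℝ) + 1) *
          Real.sqrt ((1 - (1 / 2) ^ (K - 1)) ^ (2 ^ h)))
        ≤ 2 ^ (l + 3) * (2 ^ (h + 1) * Real.exp (-(2 * 2 ^ e))) := by
          refine mul_le_mul hfac (mul_le_mul h2 h1 (Real.sqrt_nonneg _) (by positivity))
            (by positivity) (by positivity)
      _ = 2 ^ (l + 3 + (h + 1)) * Real.exp (-(2 * 2 ^ e)) := by rw [pow_add _ (l + 3)]; ring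
      _ < Real.exp (2 * 2 ^ e) * Real.exp (-(2 * 2 ^ e)) :=
          mul_lt_mul_of_pos_right h3 (Real.exp_pos _)
      _ = 1 := by rw [← Real.exp_add]; simp

end Pool.Agent.Helper99.TH
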