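import Pool.Agent.Helper99.TH.St
import Pool.Agent.Helper70.AC.B5

/-!
# Project TH, module PH: the parity is hard for type (a)
-/

namespace Pool.Agent.Helper99.TH

open Pool.Agent.Helper70.AC Pool.Agent.Helper72 Finset

/-- the lower half of the binomial coefficients -/
private theorem ph_low {n D e : ℕ} (hD : 1 ≤ D) (h : 64 * (D + 1) ^ 2 ≤ n)
    (he : e = (n - D - 1) / 2) : 2 ^ n ≤ 4 * ∑ i ∈ range (e + 1), n.choose i := by
  have h1 := sum_choose_le h
  have hDn : 4 * D + 4 ≤ n := by nlinarith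
  have h2 : ∑ i ∈ range (n + 1), n.choose i =
      ∑ i ∈ range (n / 2 + D + 1), n.choose i +
        ∑ j ∈ range (n - n / 2 - D), n.choose (n / 2 + D + 1 + j) := by
    have h3 : n + 1 = (n / 2 + D + 1) + (n - n / 2 - D) := by omega
    rw [h3, Finset.sum_range_add]
  have h4 : ∑ j ∈ range (n - n / 2 - D), n.choose (n / 2 + D + 1 + j) =
      ∑ j ∈ range (n - n / 2 - D), n.choose j := by
    rw [← Finset.sum_range_reflect (fun j => n.choose j)]
    refine Finset.sum_congr rfl fun j hj => ?_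
    have hj' := Finset.mem_range.1 hj
    rw [← Nat.choose_symm (by omega : n / 2 + D + 1 + j ≤ n)]
    congr 1
    omega
  have h5 : ∑ j ∈ range (n - n / 2 - D), n.choose j ≤ ∑ i ∈ range (e + 1), n.choose i := by
    refine Finset.sum_le_sum_of_subset fun j hj => ?_
    have hj' := Finset.mem_range.1 hj
    rw [Finset.mem_range]
    omega
  rw [Nat.sum_range_choose, h4] at h2
  omega

theorem t_PH (h1 : T_AP) (h2 : T_SG) : T_PH := by
  intro d
  obtain ⟨k, n0, h0⟩ := b5_num 2 (2 * d)
  refine ⟨k, n0, fun n hn l hl hC => ?_⟩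
  classical
  obtain ⟨r, hr, w, t, g, hg, hx⟩ := hC
  have hnum := h0 n hn l hl
  set D : ℕ := ((2 * l + 3) * (l + 4)) ^ d with hD
  have hD1 : 1 ≤ D := Nat.one_le_pow _ _ (by positivity)
  have hDle : D ≤ (2 * (l + 4)) ^ (2 * d) := by
    rw [hD, pow_mul]
    refine Nat.pow_le_pow_left ?_ _
    nlinarith
  have hDn : 64 * (D + 1) ^ 2 ≤ n :=
    (Nat.mul_le_mul_left _ (Nat.pow_le_pow_left (by omega) _)).trans hnum
  have hDn' : 4 * D + 4 ≤ n := by nlinarith
  have hap := fun i : Fin r => h1 n d (2 ^ l) (g i) (hg i) l (2 * l + 3) le_rfl (by omega)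
  choose P hP hE using hap
  -- the set of errors
  set B : Finset (Fin n → Bool) :=
    univ.biUnion fun i : Fin r => univ.filter (fun x => P i x ≠ B3.be ℝ (g i x)) with hB
  have hBcard : 8 * B.card ≤ 2 ^ n := by
    have h3 : 2 ^ (2 * l + 3) * B.card ≤ 2 ^ l * (2 ^ l * 2 ^ n) := by
      calc 2 ^ (2 * l + 3) * B.card ≤ 2 ^ (2 * l + 3) *
            ∑ i : Fin r, (univ.filter (fun x => P i x ≠ B3.be ℝ (g i x))).card :=
            Nat.mul_le_mul_left _ card_biUnion_le
        _ = ∑ i : Fin r, 2 ^ (2 * l + 3) *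
            (univ.filter (fun x => P i x ≠ B3.be ℝ (g i x))).card := Finset.mul_sum _ _ _
        _ ≤ ∑ _i : Fin r, 2 ^ l * 2 ^ n := Finset.sum_le_sum fun i _ => hE i
        _ = r * (2 ^ l * 2 ^ n) := by simp
        _ ≤ 2 ^ l * (2 ^ l * 2 ^ n) := Nat.mul_le_mul_right _ hr
    have h4 : 2 ^ l * 2 ^ l * (8 * B.card) ≤ 2 ^ l * 2 ^ l * 2 ^ n := by
      calc 2 ^ l * 2 ^ l * (8 * B.card) = 2 ^ (2 * l + 3) * B.card := by
            rw [pow_add, two_mul, pow_add]; ring
        _ ≤ 2 ^ l * (2 ^ l * 2 ^ n) := h3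
        _ = 2 ^ l * 2 ^ l * 2 ^ n := by ring
    exact Nat.le_of_mul_le_mul_left h4 (by positivity)
  -- the margin
  have hdel : ∀ᶠ δ : ℝ in nhdsWithin 0 (Set.Ioi 0), ∀ x : Fin n → Bool, par x = false →
      (∑ i, if g i x = true then w i else 0) + δ < t := by
    rw [Filter.eventually_all]
    intro x
    by_cases hpx : par x = false
    · have h3 : (∑ i, if g i x = true then w i else 0) < t := by
        by_contra hcon
        have h4 := (hx x).2 (not_lt.1 hcon)
        rw [hpx] at h4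
        exact Bool.false_ne_true h4
      have h4 : ∀ᶠ δ : ℝ in nhds 0, (∑ i, if g i x = true then w i else 0) + δ < t := by
        have h5 : Filter.Tendsto (fun δ : ℝ => (∑ i, if g i x = true then w i else 0) + δ)
            (nhds 0) (nhds ((∑ i, if g i x = true then w i else 0) + 0)) :=
          tendsto_const_nhds.add Filter.tendsto_id
        rw [add_zero] at h5
        exact h5.eventually_lt_const h3
      exact (h4.filter_mono nhdsWithin_le_nhds).mono fun δ hδ _ => hδ
    · exact Filter.Eventually.of_forall fun δ hp => absurd hp hpx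
  obtain ⟨δ, hδ, hδ0⟩ := (hdel.and self_mem_nhdsWithin).exists
  have hδ0' : (0 : ℝ) < δ := hδ0
  -- the function
  set Q : (Fin n → Bool) → ℝ := (∑ i, w i • P i) + (fun _ => δ - t) with hQ
  have hQmem : Q ∈ B3.LF ℝ n D :=
    Submodule.add_mem _ (Submodule.sum_mem _ fun i _ => Submodule.smul_mem _ _ (hP i))
      (B3.LF_const D (δ - t))
  have hQval : ∀ x, x ∉ B → Q x = (∑ i, if g i x = true then w i else 0) + (δ - t) := by
    intro x hxB
    have h3 : ∀ i, P i x = B3.be ℝ (g i x) := by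
      intro i
      by_contra hne
      exact hxB (mem_biUnion.2 ⟨i, mem_univ _, mem_filter.2 ⟨mem_univ _, hne⟩⟩)
    rw [hQ, Pi.add_apply, Finset.sum_apply]
    congr 1
    refine Finset.sum_congr rfl fun i _ => ?_
    rw [Pi.smul_apply, h3 i, smul_eq_mul]
    unfold B3.be
    split_ifs
    · rw [mul_one]
    · rw [mul_zero]
  refine h2 n D ((n - D - 1) / 2) Q hQmem (by omega) B ?_ ?_ ?_
  · have h3 := ph_low hD1 hDn (e := (n - D - 1) / 2) rfl
    have h4 : 0 < 2 ^ n := by positivity
    omega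
  · intro x hxB hpx
    rw [hQval x hxB]
    have h3 := (hx x).1 hpx
    linarith
  · intro x hxB hpx
    rw [hQval x hxB]
    have h3 := hδ x hpx
    linarith

end Pool.Agent.Helper99.TH
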