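import Pool.Agent.Helper99.TH.St

/-! Project TH, module PR: projections. -/

namespace Pool.Agent.Helper99.TH

open Pool.Agent.Helper70.AC Pool.Agent.Helper72 Finset

namespace PR

/-- value of a code -/
def ev {ι : Type} (x : ι → Bool) : Bool ⊕ (ι × Bool) → Bool
  | Sum.inl b => b
  | Sum.inr (i, s) => xor (x i) s

theorem code {ι κ : Type} {π : (ι → Bool) → κ → Bool} (hπ : IsPr π) :
    ∃ c : κ → Bool ⊕ (ι × Bool), ∀ j x, π x j = ev x (c j) := by
  have h : ∀ j, ∃ c : Bool ⊕ (ι × Bool), ∀ x, π x j = ev x c := by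
    intro j
    rcases hπ j with ⟨b, hb⟩ | ⟨i, hi⟩ | ⟨i, hi⟩
    · exact ⟨Sum.inl b, fun x => hb x⟩
    · exact ⟨Sum.inr (i, false), fun x => by rw [hi x]; simp [ev]⟩
    · exact ⟨Sum.inr (i, true), fun x => by rw [hi x]; simp [ev]⟩
  choose c hc using h
  exact ⟨c, hc⟩

/-- the literal of a code -/
def lit {ι : Type} (c : Bool ⊕ (ι × Bool)) (s : Bool) : Finset ι :=
  match c with
  | Sum.inl _ => ∅
  | Sum.inr (i, s') => if s' = s then {i} else ∅

theorem ev_true {ι : Type} (x : ι → Bool) (c : Bool ⊕ (ι × Bool)) :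
    ev x c = true ↔ c ≠ Sum.inl false ∧ (∀ i ∈ lit c false, x i = true) ∧
      ∀ i ∈ lit c true, x i = false := by
  rcases c with b | ⟨i, s⟩
  · cases b <;> simp [ev, lit]
  · cases s <;> simp [ev, lit]

theorem ev_false {ι : Type} (x : ι → Bool) (c : Bool ⊕ (ι × Bool)) :
    ev x c = false ↔ c ≠ Sum.inl true ∧ (∀ i ∈ lit c true, x i = true) ∧
      ∀ i ∈ lit c false, x i = false := by
  rcases c with b | ⟨i, s⟩
  · cases b <;> simp [ev, lit]
  · cases s <;> simp [ev, lit]

theorem ac (n m : ℕ) (π : (Fin n → Bool) → Fin m → Bool) (hπ : IsPr π) (d s : ℕ)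
    (f : (Fin m → Bool) → Bool) (h : AC m d s f) : AC n d s (fun x => f (π x)) := by
  induction h with
  | const b => exact AC.const b
  | input i =>
    rcases hπ i with ⟨b, hb⟩ | ⟨j, hj⟩ | ⟨j, hj⟩
    · have h1 : (fun x => π x i) = fun _ => b := funext hb
      rw [h1]
      exact AC.const b
    · have h1 : (fun x => π x i) = fun x => x j := funext hj
      rw [h1]
      exact AC.input j
    · have h1 : (fun x => π x i) = fun x => !(x j) := funext hj
      rw [h1]
      exact AC.neg (AC.input j)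
  | neg _ ih => exact AC.neg ih
  | conj s f _ ih => exact AC.conj s (fun i x => f i (π x)) ih
  | disj s f _ ih => exact AC.disj s (fun i x => f i (π x)) ih
  | weaken d' s' hd hs _ ih => exact AC.weaken d' s' hd hs ih

theorem junta (ι κ : Type) (π : (ι → Bool) → κ → Bool) (hπ : IsPr π) (k : ℕ)
    (h : (κ → Bool) → Bool) (hh : Junta k h) : Junta k (fun x => h (π x)) := by
  classical
  obtain ⟨T, hT, hag⟩ := hh
  obtain ⟨c, hc⟩ := code hπ
  have hS : ∀ j, ∃ S : Finset ι, S.card ≤ 1 ∧ ∀ x y : ι → Bool, (∀ i ∈ S, x i = y i) →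
      π x j = π y j := by
    intro j
    rcases hcj : c j with b | ⟨i, s⟩
    · refine ⟨∅, by simp, fun x y _ => ?_⟩
      rw [hc j x, hc j y, hcj]
      rfl
    · refine ⟨{i}, by simp, fun x y hxy => ?_⟩
      rw [hc j x, hc j y, hcj]
      show xor (x i) s = xor (y i) s
      rw [hxy i (by simp)]
  choose S hS1 hS2 using hS
  refine ⟨T.biUnion S, ?_, ?_⟩
  · calc (T.biUnion S).card ≤ ∑ j ∈ T, (S j).card := Finset.card_biUnion_le
      _ ≤ ∑ _j ∈ T, 1 := Finset.sum_le_sum fun j _ => hS1 j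
      _ = T.card := by simp
      _ ≤ k := hT
  · intro x y hxy
    refine hag _ _ fun j hj => hS2 j x y fun i hi => hxy i ?_
    exact Finset.mem_biUnion.2 ⟨j, hj, hi⟩

theorem isAnd (ι κ : Type) (π : (ι → Bool) → κ → Bool) (hπ : IsPr π)
    (h : (κ → Bool) → Bool) (hh : IsAnd h) : IsAnd (fun x => h (π x)) := by
  classical
  obtain ⟨b, P, N, hbPN⟩ := hh
  obtain ⟨c, hc⟩ := code hπ
  refine ⟨decide (b = true ∧ (∀ j ∈ P, c j ≠ Sum.inl false) ∧ ∀ j ∈ N, c j ≠ Sum.inl true),
    P.biUnion (fun j => lit (c j) false) ∪ N.biUnion (fun j => lit (c j) true),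
    P.biUnion (fun j => lit (c j) true) ∪ N.biUnion (fun j => lit (c j) false), ?_⟩
  intro x
  show h (π x) = true ↔ _
  rw [hbPN]
  have hP : (∀ j ∈ P, π x j = true) ↔ (∀ j ∈ P, c j ≠ Sum.inl false) ∧
      (∀ j ∈ P, ∀ i ∈ lit (c j) false, x i = true) ∧
      ∀ j ∈ P, ∀ i ∈ lit (c j) true, x i = false := by
    constructor
    · intro hx
      have h1 := fun j hj => (ev_true x (c j)).1 (by rw [← hc j x]; exact hx j hj)
      exact ⟨fun j hj => (h1 j hj).1, fun j hj => (h1 j hj).2.1, fun j hj => (h1 j hj).2.2⟩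
    · rintro ⟨h1, h2, h3⟩ j hj
      rw [hc j x]
      exact (ev_true x (c j)).2 ⟨h1 j hj, h2 j hj, h3 j hj⟩
  have hN : (∀ j ∈ N, π x j = false) ↔ (∀ j ∈ N, c j ≠ Sum.inl true) ∧
      (∀ j ∈ N, ∀ i ∈ lit (c j) true, x i = true) ∧
      ∀ j ∈ N, ∀ i ∈ lit (c j) false, x i = false := by
    constructor
    · intro hx
      have h1 := fun j hj => (ev_false x (c j)).1 (by rw [← hc j x]; exact hx j hj)
      exact ⟨fun j hj => (h1 j hj).1, fun j hj => (h1 j hj).2.1, fun j hj => (h1 j hj).2.2⟩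
    · rintro ⟨h1, h2, h3⟩ j hj
      rw [hc j x]
      exact (ev_false x (c j)).2 ⟨h1 j hj, h2 j hj, h3 j hj⟩
  rw [hP, hN]
  constructor
  · rintro ⟨h0, ⟨h1, h2, h3⟩, h4, h5, h6⟩
    refine ⟨by rw [decide_eq_true_eq]; exact ⟨h0, h1, h4⟩, ?_, ?_⟩
    · intro i hi
      rcases Finset.mem_union.1 hi with hi | hi
      · obtain ⟨j, hj, hij⟩ := Finset.mem_biUnion.1 hi
        exact h2 j hj i hij
      · obtain ⟨j, hj, hij⟩ := Finset.mem_biUnion.1 hi
        exact h5 j hj i hij
    · intro i hi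
      rcases Finset.mem_union.1 hi with hi | hi
      · obtain ⟨j, hj, hij⟩ := Finset.mem_biUnion.1 hi
        exact h3 j hj i hij
      · obtain ⟨j, hj, hij⟩ := Finset.mem_biUnion.1 hi
        exact h6 j hj i hij
  · rintro ⟨h0, h1, h2⟩
    rw [decide_eq_true_eq] at h0
    refine ⟨h0.1, ⟨h0.2.1, ?_, ?_⟩, h0.2.2, ?_, ?_⟩
    · exact fun j hj i hi => h1 i (Finset.mem_union_left _ (Finset.mem_biUnion.2 ⟨j, hj, hi⟩))
    · exact fun j hj i hi => h2 i (Finset.mem_union_left _ (Finset.mem_biUnion.2 ⟨j, hj, hi⟩))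
    · exact fun j hj i hi => h1 i (Finset.mem_union_right _ (Finset.mem_biUnion.2 ⟨j, hj, hi⟩))
    · exact fun j hj i hi => h2 i (Finset.mem_union_right _ (Finset.mem_biUnion.2 ⟨j, hj, hi⟩))

theorem thr (ι κ : Type) [Fintype ι] [Fintype κ] (π : (ι → Bool) → κ → Bool) (hπ : IsPr π)
    (h : (κ → Bool) → Bool) (hh : ThrGate h) : ThrGate (fun x => h (π x)) := by
  classical
  obtain ⟨w, t, hwt⟩ := hh
  obtain ⟨c, hc⟩ := code hπ
  have key : ∀ j, ∃ (a : ℝ) (e : ι → ℝ), ∀ x : ι → Bool,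
      (if π x j = true then w j else 0) = a + ∑ i, if x i = true then e i else 0 := by
    intro j
    rcases hcj : c j with b | ⟨i, s⟩
    · refine ⟨if b = true then w j else 0, fun _ => 0, fun x => ?_⟩
      rw [hc j x, hcj]
      cases b <;> simp [ev]
    · cases s
      · refine ⟨0, fun i' => if i' = i then w j else 0, fun x => ?_⟩
        rw [hc j x, hcj]
        have h1 : ev x (Sum.inr (i, false)) = x i := by simp [ev]
        rw [h1, zero_add, Finset.sum_eq_single i]
        · simp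
        · intro i' _ hi'
          simp [hi']
        · simp
      · refine ⟨w j, fun i' => if i' = i then -w j else 0, fun x => ?_⟩
        rw [hc j x, hcj]
        have h1 : ev x (Sum.inr (i, true)) = !(x i) := by simp [ev]
        rw [h1, Finset.sum_eq_single i]
        · cases x i <;> simp
        · intro i' _ hi'
          simp [hi']
        · simp
  choose a e hae using key
  refine ⟨fun i => ∑ j, e j i, t - ∑ j, a j, fun x => ?_⟩
  show h (π x) = true ↔ _
  rw [hwt]
  have h1 : (∑ j, if π x j = true then w j else 0) =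
      (∑ j, a j) + ∑ i, if x i = true then ∑ j, e j i else 0 := by
    rw [Finset.sum_congr rfl fun j _ => hae j x, Finset.sum_add_distrib, Finset.sum_comm]
    congr 1
    refine Finset.sum_congr rfl fun i _ => ?_
    split_ifs <;> simp
  rw [h1]
  constructor <;> intro h2 <;> linarith

end PR

theorem t_PR : T_PR := by
  refine ⟨fun n m π hπ d s f h => PR.ac n m π hπ d s f h,
    fun ι κ π hπ k h hh => PR.junta ι κ π hπ k h hh,
    fun ι κ π hπ h hh => PR.isAnd ι κ π hπ h hh,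
    fun ι κ _ _ π hπ h hh => PR.thr ι κ π hπ h hh, ?_⟩
  intro ι κ π C C' hC s f
  refine ⟨?_, ?_, ?_⟩
  · rintro ⟨r, hr, σ, h, hh, hf⟩
    exact ⟨r, hr, σ, fun i x => h i (π x), fun i => hC _ (hh i), fun x => hf (π x)⟩
  · rintro ⟨r, hr, g, hg, hf⟩
    exact ⟨r, hr, fun i x => g i (π x), fun i => hC _ (hg i), fun x => hf (π x)⟩
  · rintro ⟨r, hr, w, t, g, hg, hf⟩
    exact ⟨r, hr, w, t, fun i x => g i (π x), fun i => hC _ (hg i), fun x => hf (π x)⟩

end Pool.Agent.Helper99.TH
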