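import Mathlib
import Pool.Agent.Helper99.TH.St

set_option autoImplicit false

/-! # RC: rectangles of the generalized inner product -/

namespace Pool.Agent.Helper99.TH

open Pool.Agent.Helper70.AC Pool.Agent.Helper72 Finset

namespace RC

/-- column factor -/
noncomputable def g {K : ℕ} (b : Bool) (c : Fin K → Bool) : ℝ :=
  if b = true ∧ ∀ j, c j = true then -1 else 1

lemma sg_odd {α : Type*} (s : Finset α) : sg (decide (Odd s.card)) = (-1) ^ s.card := by
  unfold sg
  by_cases h : Odd s.card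
  · simp [h, h.neg_one_pow]
  · have h' : Even s.card := Nat.not_odd_iff_even.1 h
    simp [h, h'.neg_one_pow]

lemma M_eq {K m : ℕ} (u : Fin m → Bool) (v : Fin K × Fin m → Bool) :
    sg (decide (Odd (univ.filter
      (fun i : Fin m => u i = true ∧ ∀ j : Fin K, v (j, i) = true)).card))
      = ∏ i, g (u i) (fun j => v (j, i)) := by
  rw [sg_odd]
  unfold g
  rw [prod_ite, prod_const, prod_const, one_pow, mul_one]

/-- columns -/
def cols (K m : ℕ) : (Fin K × Fin m → Bool) ≃ (Fin m → Fin K → Bool) where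
  toFun v := fun i j => v (j, i)
  invFun w := fun p => w p.2 p.1
  left_inv v := by funext p; rfl
  right_inv w := by funext i j; rfl

/-- correlation of two column factors -/
noncomputable def h (K : ℕ) (b b' : Bool) : ℝ := if b = b' then 2 ^ K else 2 ^ K - 2

lemma sum_g {K : ℕ} (b b' : Bool) : ∑ c : Fin K → Bool, g b c * g b' c = h K b b' := by
  have hT : ∑ c : Fin K → Bool, g true c = (2 : ℝ) ^ K - 2 := by
    have e : ∀ c : Fin K → Bool, g true c = 1 - (if c = (fun _ => true) then (2 : ℝ) else 0) := by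
      intro c
      unfold g
      by_cases hc : c = fun _ => true
      · subst hc; norm_num
      · have : ¬ (true = true ∧ ∀ j, c j = true) := fun h' => hc (funext h'.2)
        rw [if_neg this, if_neg hc, sub_zero]
    rw [sum_congr rfl fun c _ => e c, sum_sub_distrib, sum_ite_eq']
    simp
  have hF : ∀ c : Fin K → Bool, g false c = 1 := fun c => by simp [g]
  have hsq : ∀ (b : Bool) (c : Fin K → Bool), g b c * g b c = 1 := by
    intro b c
    unfold g
    split_ifs <;> norm_num
  unfold h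
  by_cases hb : b = b'
  · subst hb
    rw [if_pos rfl, sum_congr rfl fun c _ => hsq b c]
    simp
  · rw [if_neg hb]
    cases b <;> cases b'
    · exact absurd rfl hb
    · rw [← hT]; exact sum_congr rfl fun c _ => by rw [hF, one_mul]
    · rw [← hT]; exact sum_congr rfl fun c _ => by rw [hF, mul_one]
    · exact absurd rfl hb

lemma h_nonneg {K : ℕ} (hK : 1 ≤ K) (b b' : Bool) : 0 ≤ h K b b' := by
  have : (2 : ℝ) ^ 1 ≤ 2 ^ K := pow_le_pow_right₀ (by norm_num) hK
  unfold h
  split_ifs
  · positivity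
  · linarith

lemma corr {K m : ℕ} (u u' : Fin m → Bool) :
    ∑ v : Fin K × Fin m → Bool, (∏ i, g (u i) (fun j => v (j, i))) *
      (∏ i, g (u' i) (fun j => v (j, i))) = ∏ i, h K (u i) (u' i) := by
  have h1 : ∑ v : Fin K × Fin m → Bool, (∏ i, g (u i) (fun j => v (j, i))) *
      (∏ i, g (u' i) (fun j => v (j, i)))
      = ∑ w : Fin m → Fin K → Bool, ∏ i, (g (u i) (w i) * g (u' i) (w i)) := by
    refine Fintype.sum_equiv (cols K m) _ _ fun v => ?_
    rw [prod_mul_distrib]
    rfl
  rw [h1]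
  have h2 := Finset.prod_univ_sum (fun _ : Fin m => (univ : Finset (Fin K → Bool)))
    (fun i c => g (u i) c * g (u' i) c)
  rw [Fintype.piFinset_univ] at h2
  rw [← h2]
  exact prod_congr rfl fun i _ => sum_g _ _

lemma sum_h {K m : ℕ} (u : Fin m → Bool) :
    ∑ u' : Fin m → Bool, ∏ i, h K (u i) (u' i) = (2 * (2 ^ K - 1)) ^ m := by
  have h2 := Finset.prod_univ_sum (fun _ : Fin m => (univ : Finset Bool))
    (fun i b => h K (u i) b)
  rw [Fintype.piFinset_univ] at h2
  rw [← h2]
  have e : ∀ b : Bool, ∑ b' : Bool, h K b b' = 2 * (2 ^ K - 1) := by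
    intro b
    rw [Fintype.sum_bool]
    unfold h
    cases b
    · simp; ring
    · simp; ring
  rw [prod_congr rfl fun i _ => e (u i), prod_const, card_univ, Fintype.card_fin]

end RC

open RC in
theorem t_RC : T_RC := by
  intro K m hK R C
  have e : ∑ u ∈ R, ∑ v ∈ C, sg (decide (Odd (univ.filter
      (fun i : Fin m => u i = true ∧ ∀ j : Fin K, v (j, i) = true)).card))
      = ∑ v ∈ C, ∑ u ∈ R, ∏ i, g (u i) (fun j => v (j, i)) := by
    rw [sum_comm]
    exact sum_congr rfl fun v _ => sum_congr rfl fun u _ => M_eq u v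
  rw [e]
  set N : ℝ := 2 ^ m * (2 ^ K - 1) ^ m with hN
  have h2K : (1 : ℝ) ≤ 2 ^ K := one_le_pow₀ (by norm_num)
  have hN0 : 0 ≤ N := mul_nonneg (by positivity) (pow_nonneg (by linarith) _)
  rw [← Real.sqrt_mul hN0]
  refine Real.abs_le_sqrt ?_
  calc (∑ v ∈ C, ∑ u ∈ R, ∏ i, g (u i) (fun j => v (j, i))) ^ 2
      ≤ (C.card : ℝ) * ∑ v ∈ C, (∑ u ∈ R, ∏ i, g (u i) (fun j => v (j, i))) ^ 2 :=
        sq_sum_le_card_mul_sum_sq
    _ ≤ (C.card : ℝ) * ∑ v : Fin K × Fin m → Bool,
          (∑ u ∈ R, ∏ i, g (u i) (fun j => v (j, i))) ^ 2 := by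
        refine mul_le_mul_of_nonneg_left ?_ (Nat.cast_nonneg _)
        exact sum_le_sum_of_subset_of_nonneg (subset_univ _) fun v _ _ => sq_nonneg _
    _ = (C.card : ℝ) * ∑ u ∈ R, ∑ u' ∈ R, ∏ i, h K (u i) (u' i) := by
        congr 1
        have e1 : ∀ v : Fin K × Fin m → Bool,
            (∑ u ∈ R, ∏ i, g (u i) (fun j => v (j, i))) ^ 2
              = ∑ u ∈ R, ∑ u' ∈ R, (∏ i, g (u i) (fun j => v (j, i))) *
                (∏ i, g (u' i) (fun j => v (j, i))) := by
          intro v
          rw [pow_two, sum_mul_sum]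
        rw [sum_congr rfl fun v _ => e1 v, sum_comm]
        refine sum_congr rfl fun u _ => ?_
        rw [sum_comm]
        exact sum_congr rfl fun u' _ => corr u u'
    _ ≤ (C.card : ℝ) * ∑ u ∈ R, ∑ u' : Fin m → Bool, ∏ i, h K (u i) (u' i) := by
        refine mul_le_mul_of_nonneg_left ?_ (Nat.cast_nonneg _)
        refine sum_le_sum fun u _ => ?_
        exact sum_le_sum_of_subset_of_nonneg (subset_univ _) fun u' _ _ =>
          prod_nonneg fun i _ => h_nonneg hK _ _
    _ = (C.card : ℝ) * ∑ u ∈ R, (2 * (2 ^ K - 1)) ^ m := by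
        congr 1
        exact sum_congr rfl fun u _ => sum_h u
    _ = N * (R.card * C.card) := by
        rw [sum_const, nsmul_eq_mul, mul_pow, ← hN]; ring

end Pool.Agent.Helper99.TH
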