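import Pool.Agent.Helper99.TH.St

/-!
# Project TH, module SC (helper40): correlation of the generalized inner product with symmetric
gates of gates of small fan-in
-/

set_option autoImplicit false

namespace Pool.Agent.Helper99.TH

open Pool.Agent.Helper70.AC Pool.Agent.Helper72 Finset

theorem t_SC (hBN : T_BN) : T_SC := by
  intro K m k s hkK g hg
  obtain ⟨r, hr, σ, h, hJ, hgx⟩ := hg
  choose T hT1 hT2 using hJ
  -- a row without bits of `T i`
  have hrow : ∀ i : Fin r, ∃ ρ : Fin K, ∀ p ∈ T i, p.1 ≠ ρ := by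
    intro i
    have h1 : ((T i).image Prod.fst).card < (univ : Finset (Fin K)).card := by
      rw [Finset.card_univ, Fintype.card_fin]
      exact lt_of_le_of_lt (le_trans Finset.card_image_le (hT1 i)) hkK
    obtain ⟨ρ, _, hρ⟩ := Finset.exists_mem_notMem_of_card_lt_card h1
    refine ⟨ρ, fun p hp he => hρ ?_⟩
    rw [← he]
    exact Finset.mem_image_of_mem _ hp
  choose ρ hρ using hrow
  let a : Fin K → (Fin K × Fin m → Bool) → ℕ :=
    fun j x => (univ.filter fun i => ρ i = j ∧ h i x = true).card
  have ha : ∀ j x, a j x < s + 1 := by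
    intro j x
    have h1 : a j x ≤ r := by
      have := Finset.card_le_univ (univ.filter fun i => ρ i = j ∧ h i x = true)
      rwa [Fintype.card_fin] at this
    omega
  have hsum : ∀ x, (univ.filter fun i => h i x = true).card = ∑ j, a j x := by
    intro x
    rw [Finset.card_eq_sum_card_fiberwise (f := ρ) (t := univ) (fun i _ => by simp)]
    refine Finset.sum_congr rfl fun j _ => ?_
    show _ = (univ.filter fun i => ρ i = j ∧ h i x = true).card
    rw [Finset.filter_filter]
    congr 1
    ext i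
    simp only [Finset.mem_filter, and_comm]
  let φ : (Fin K → Fin (s + 1)) → Fin K → (Fin K × Fin m → Bool) → ℝ :=
    fun c j x => if a j x = (c j : ℕ) then 1 else 0
  have hφ1 : ∀ c j x, |φ c j x| ≤ 1 := by
    intro c j x
    show |(if a j x = (c j : ℕ) then (1 : ℝ) else 0)| ≤ 1
    split_ifs <;> simp
  have hφ2 : ∀ c j x y, (∀ p : Fin K × Fin m, p.1 ≠ j → x p = y p) → φ c j x = φ c j y := by
    intro c j x y hxy
    have : a j x = a j y := by
      show (univ.filter fun i => ρ i = j ∧ h i x = true).card =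
        (univ.filter fun i => ρ i = j ∧ h i y = true).card
      congr 1
      ext i
      simp only [Finset.mem_filter, Finset.mem_univ, true_and]
      constructor
      · rintro ⟨h1, h2⟩
        refine ⟨h1, ?_⟩
        rw [← hT2 i x y (fun p hp => hxy p (by rw [← h1]; exact hρ i p hp))]; exact h2
      · rintro ⟨h1, h2⟩
        refine ⟨h1, ?_⟩
        rw [hT2 i x y (fun p hp => hxy p (by rw [← h1]; exact hρ i p hp))]; exact h2
    show (if a j x = (c j : ℕ) then (1 : ℝ) else 0) = if a j y = (c j : ℕ) then (1 : ℝ) else 0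
    rw [this]
  let w : (Fin K → Fin (s + 1)) → ℝ := fun c => if σ (∑ j, (c j : ℕ)) = true then 1 else 0
  have hexp : ∀ x, (if g x = true then (1 : ℝ) else 0) = ∑ c, w c * ∏ j, φ c j x := by
    intro x
    rw [Finset.sum_eq_single (fun j => (⟨a j x, ha j x⟩ : Fin (s + 1)))]
    · have h1 : ∏ j, φ (fun j => (⟨a j x, ha j x⟩ : Fin (s + 1))) j x = 1 := by
        apply Finset.prod_eq_one
        intro j _
        show (if a j x = a j x then (1 : ℝ) else 0) = 1
        rw [if_pos rfl]
      rw [h1, mul_one]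
      show _ = if σ (∑ j, a j x) = true then (1 : ℝ) else 0
      rw [hgx, hsum]
    · intro c _ hc
      have : ∃ j, a j x ≠ (c j : ℕ) := by
        by_contra hcon
        push Not at hcon
        apply hc
        funext j
        apply Fin.ext
        exact (hcon j).symm
      obtain ⟨j, hj⟩ := this
      have h1 : ∏ j, φ c j x = 0 := by
        apply Finset.prod_eq_zero (Finset.mem_univ j)
        show (if a j x = (c j : ℕ) then (1 : ℝ) else 0) = 0
        rw [if_neg hj]
      rw [h1, mul_zero]
    · intro hc; exact absurd (Finset.mem_univ _) hc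
  have hmain : ∑ x, sg (gip x) * (if g x = true then (1 : ℝ) else 0) =
      ∑ c, w c * ∑ x, sg (gip x) * ∏ j, φ c j x := by
    simp_rw [hexp, Finset.mul_sum]
    rw [Finset.sum_comm]
    refine Finset.sum_congr rfl fun c _ => Finset.sum_congr rfl fun x _ => ?_
    ring
  rw [hmain]
  have hK : 1 ≤ K := by omega
  have hb : ∀ c, |w c * ∑ x, sg (gip x) * ∏ j, φ c j x| ≤ 2 ^ (K * m) * cc K ^ m := by
    intro c
    have h1 := hBN K m hK (φ c) (hφ1 c) (hφ2 c)
    rw [abs_mul]
    have h2 : |w c| ≤ 1 := by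
      show |(if σ (∑ j, (c j : ℕ)) = true then (1 : ℝ) else 0)| ≤ 1
      split_ifs <;> simp
    calc |w c| * |∑ x, sg (gip x) * ∏ j, φ c j x| ≤ 1 * |∑ x, sg (gip x) * ∏ j, φ c j x| :=
          mul_le_mul_of_nonneg_right h2 (abs_nonneg _)
      _ = |∑ x, sg (gip x) * ∏ j, φ c j x| := one_mul _
      _ ≤ _ := h1
  calc |∑ c, w c * ∑ x, sg (gip x) * ∏ j, φ c j x|
      ≤ ∑ c, |w c * ∑ x, sg (gip x) * ∏ j, φ c j x| := Finset.abs_sum_le_sum_abs _ _
    _ ≤ ∑ _c : Fin K → Fin (s + 1), 2 ^ (K * m) * cc K ^ m := Finset.sum_le_sum fun c _ => hb c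
    _ = (s + 1) ^ K * (2 ^ (K * m) * cc K ^ m) := by
      rw [Finset.sum_const, Finset.card_univ, Fintype.card_fun, Fintype.card_fin,
        Fintype.card_fin, nsmul_eq_mul]
      push_cast
      ring

end Pool.Agent.Helper99.TH
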