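import Pool.Agent.Helper99.TH.St

/-!
Module SG: sign representations of the parity.
-/

namespace Pool.Agent.Helper99.TH

open Pool.Agent.Helper70.AC Pool.Agent.Helper72 Finset

namespace SG

variable {n : ℕ}

/-- the sign character -/
def del (x : Fin n → Bool) : ℝ := ∏ i, (if x i = true then (-1 : ℝ) else 1)

theorem del_eq (x : Fin n → Bool) : del x = if par x = true then (-1 : ℝ) else 1 := by
  unfold del
  rw [Finset.prod_ite, Finset.prod_const_one, mul_one, Finset.prod_const]
  unfold par
  simp only [decide_eq_true_eq]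
  split_ifs with h
  · exact h.neg_one_pow
  · exact (Nat.not_odd_iff_even.1 h).neg_one_pow

/-- flip of a bit -/
def flip (i : Fin n) (x : Fin n → Bool) : Fin n → Bool := fun j => if j = i then !(x j) else x j

theorem flip_flip (i : Fin n) (x : Fin n → Bool) : flip i (flip i x) = x := by
  funext j
  unfold flip
  split_ifs <;> simp

theorem del_flip (i : Fin n) (x : Fin n → Bool) : del (flip i x) = -del x := by
  unfold del
  rw [← Finset.mul_prod_erase univ _ (mem_univ i), ← Finset.mul_prod_erase univ _ (mem_univ i)]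
  have h1 : ∏ j ∈ univ.erase i, (if flip i x j = true then (-1 : ℝ) else 1) =
      ∏ j ∈ univ.erase i, (if x j = true then (-1 : ℝ) else 1) := by
    refine Finset.prod_congr rfl fun j hj => ?_
    have : flip i x j = x j := by
      unfold flip
      rw [if_neg (Finset.ne_of_mem_erase hj)]
    rw [this]
  rw [h1]
  have h2 : flip i x i = !(x i) := by
    unfold flip
    rw [if_pos rfl]
  rw [h2]
  cases x i <;> simp

theorem mf_flip (i : Fin n) (A : Finset (Fin n)) (hi : i ∉ A) (x : Fin n → Bool) :
    B3.mf ℝ A (flip i x) = B3.mf ℝ A x := by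
  unfold B3.mf
  refine Finset.prod_congr rfl fun j hj => ?_
  have : flip i x j = x j := by
    unfold flip
    rw [if_neg]
    rintro rfl
    exact hi hj
  rw [this]

theorem sum_mf (A : Finset (Fin n)) (hA : A.card < n) :
    ∑ x : Fin n → Bool, del x * B3.mf ℝ A x = 0 := by
  have : ∃ i, i ∉ A := by
    by_contra hcon
    push Not at hcon
    have : A = univ := Finset.eq_univ_iff_forall.2 hcon
    rw [this, Finset.card_univ, Fintype.card_fin] at hA
    exact lt_irrefl _ hA
  obtain ⟨i, hi⟩ := this
  have h1 : ∑ x : Fin n → Bool, del x * B3.mf ℝ A x =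
      ∑ x : Fin n → Bool, del (flip i x) * B3.mf ℝ A (flip i x) := by
    refine Finset.sum_bij' (fun x _ => flip i x) (fun x _ => flip i x) (fun _ _ => mem_univ _)
      (fun _ _ => mem_univ _) (fun x _ => flip_flip i x) (fun x _ => flip_flip i x) ?_
    intro x _
    rw [flip_flip]
  have h2 : ∑ x : Fin n → Bool, del (flip i x) * B3.mf ℝ A (flip i x) =
      -∑ x : Fin n → Bool, del x * B3.mf ℝ A x := by
    rw [← Finset.sum_neg_distrib]
    refine Finset.sum_congr rfl fun x _ => ?_
    rw [del_flip, mf_flip i A hi, neg_mul]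
  rw [h2] at h1
  linarith

theorem sum_LF {D : ℕ} (hD : D < n) {g : (Fin n → Bool) → ℝ} (hg : g ∈ B3.LF ℝ n D) :
    ∑ x : Fin n → Bool, del x * g x = 0 := by
  unfold B3.LF at hg
  induction hg using Submodule.span_induction with
  | mem f hf =>
    obtain ⟨A, hA, rfl⟩ := hf
    exact sum_mf A (lt_of_le_of_lt hA hD)
  | zero => simp
  | add f g _ _ hf hg =>
    simp only [Pi.add_apply, mul_add, Finset.sum_add_distrib, hf, hg, add_zero]
  | smul a f _ hf =>
    have : ∀ x : Fin n → Bool, del x * (a • f) x = a * (del x * f x) := by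
      intro x
      rw [Pi.smul_apply, smul_eq_mul]
      ring
    simp only [this, ← Finset.mul_sum, hf, mul_zero]

open Classical in
theorem exists_q (e : ℕ) (B : Finset (Fin n → Bool))
    (hB : B.card < ∑ i ∈ range (e + 1), n.choose i) :
    ∃ q ∈ B3.LF ℝ n e, (∀ x ∈ B, q x = 0) ∧ ∃ x, q x ≠ 0 := by
  obtain ⟨S, hS⟩ : ∃ S : Finset (Finset (Fin n)), ∀ A, A ∈ S ↔ A.card ≤ e :=
    ⟨univ.filter fun A => A.card ≤ e, fun A => by simp⟩
  have hcard : S.card = ∑ i ∈ range (e + 1), n.choose i := by
    have h1 : S = (range (e + 1)).biUnion fun i => powersetCard i univ := by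
      ext A
      rw [hS, mem_biUnion]
      constructor
      · intro h
        exact ⟨A.card, by rw [mem_range]; omega, by rw [mem_powersetCard]; exact ⟨subset_univ _, rfl⟩⟩
      · rintro ⟨i, hi, hA⟩
        rw [mem_powersetCard] at hA
        rw [mem_range] at hi
        omega
    rw [h1, card_biUnion]
    · refine Finset.sum_congr rfl fun i _ => ?_
      rw [card_powersetCard, card_univ, Fintype.card_fin]
    · intro i _ j _ hij
      rw [Function.onFun, Finset.disjoint_left]
      intro A h1 h2
      rw [mem_powersetCard] at h1 h2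
      exact hij (h1.2.symm.trans h2.2)
  let L : (S → ℝ) →ₗ[ℝ] (B → ℝ) :=
    { toFun := fun c x => ∑ A : S, c A * B3.mf ℝ A.1 x.1
      map_add' := by
        intro c c'
        funext x
        simp only [Pi.add_apply, add_mul, Finset.sum_add_distrib]
      map_smul' := by
        intro a c
        funext x
        simp only [Pi.smul_apply, smul_eq_mul, RingHom.id_apply, Finset.mul_sum, mul_assoc] }
  have hlt : Module.finrank ℝ (B → ℝ) < Module.finrank ℝ (S → ℝ) := by
    rw [Module.finrank_fintype_fun_eq_card, Module.finrank_fintype_fun_eq_card, Fintype.card_coe,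
      Fintype.card_coe, hcard]
    exact hB
  have hker : LinearMap.ker L ≠ ⊥ := LinearMap.ker_ne_bot_of_finrank_lt hlt
  obtain ⟨c, hc, hc0⟩ := (Submodule.ne_bot_iff _).1 hker
  refine ⟨fun x => ∑ A : S, c A * B3.mf ℝ A.1 x, ?_, ?_, ?_⟩
  · have : (fun x => ∑ A : S, c A * B3.mf ℝ A.1 x) = ∑ A : S, c A • B3.mf ℝ A.1 := by
      funext x
      simp [Finset.sum_apply]
    rw [this]
    exact Submodule.sum_mem _ fun A _ => Submodule.smul_mem _ _ (B3.mf_mem ((hS A.1).1 A.2))
  · intro x hx
    have := congrFun (LinearMap.mem_ker.1 hc) ⟨x, hx⟩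
    exact this
  · have hne : ∃ A : S, c A ≠ 0 := by
      by_contra hcon
      push Not at hcon
      exact hc0 (funext hcon)
    obtain ⟨A0, hA0⟩ := hne
    obtain ⟨A, hA, hmin⟩ := (univ.filter fun A : S => c A ≠ 0).exists_min_image
      (fun A => A.1.card) ⟨A0, by simpa using hA0⟩
    simp only [mem_filter, mem_univ, true_and] at hA hmin
    refine ⟨fun i => decide (i ∈ A.1), ?_⟩
    have : ∑ A' : S, c A' * B3.mf ℝ A'.1 (fun i => decide (i ∈ A.1)) = c A := by
      rw [Finset.sum_eq_single A]
      · rw [B3.mf_eq, if_pos, mul_one]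
        intro i hi
        simpa using hi
      · intro A' _ hne
        by_cases h0 : c A' = 0
        · rw [h0, zero_mul]
        · rw [B3.mf_eq, if_neg, mul_zero]
          intro hsub
          have hsub' : A'.1 ⊆ A.1 := by
            intro i hi
            simpa using hsub i hi
          have := Finset.eq_of_subset_of_card_le hsub' (hmin A' h0)
          exact hne (Subtype.ext this)
      · intro h
        exact absurd (mem_univ A) h
    show ∑ A' : S, c A' * B3.mf ℝ A'.1 (fun i => decide (i ∈ A.1)) ≠ 0
    rw [this]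
    exact hA

end SG

theorem t_SG : T_SG := by
  intro n D e P hP hn B hB hpos hneg
  obtain ⟨q, hq, hqB, x0, hx0⟩ := SG.exists_q e B hB
  have hg : (fun x => (q x * q x) * P x) ∈ B3.LF ℝ n (e + e + D) :=
    B3.LF_mul (B3.LF_mul hq hq) hP
  have hsum := SG.sum_LF (by omega) hg
  have hle : ∀ x ∈ (univ : Finset (Fin n → Bool)), SG.del x * ((q x * q x) * P x) ≤ 0 := by
    intro x _
    by_cases hx : x ∈ B
    · rw [hqB x hx]; simp
    · have hqq : 0 ≤ q x * q x := mul_self_nonneg _
      rw [SG.del_eq]
      by_cases hp : par x = true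
      · rw [if_pos hp]
        have := mul_nonneg hqq (hpos x hx hp).le
        linarith
      · rw [if_neg hp, one_mul]
        exact mul_nonpos_of_nonneg_of_nonpos hqq (hneg x hx (by simpa using hp)).le
  have h0 := (Finset.sum_eq_zero_iff_of_nonpos hle).1 hsum x0 (mem_univ x0)
  have hx0B : x0 ∉ B := fun h => hx0 (hqB x0 h)
  have hdel : SG.del x0 ≠ 0 := by
    rw [SG.del_eq]; split_ifs <;> norm_num
  have hP0 : P x0 ≠ 0 := by
    by_cases hp : par x0 = true
    · exact (hpos x0 hx0B hp).ne'
    · exact (hneg x0 hx0B (by simpa using hp)).ne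
  exact (mul_ne_zero hdel (mul_ne_zero (mul_ne_zero hx0 hx0) hP0)) h0

end Pool.Agent.Helper99.TH
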