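import Mathlib
import Pool.Agent.Helper99.TH.St

set_option autoImplicit false

/-! # Module ST: staircases -/

namespace Pool.Agent.Helper99.TH

open Finset

theorem st_split {U : Type} (a : U → ℝ) (R : Finset U) :
    ∀ n : ℕ, n ≤ R.card → ∃ R1 ⊆ R, R1.card = n ∧ ∀ u ∈ R1, ∀ w ∈ R, w ∉ R1 → a u ≤ a w := by
  classical
  intro n
  induction n with
  | zero => intro _; exact ⟨∅, empty_subset _, rfl, by simp⟩
  | succ n ih =>
    intro hn
    obtain ⟨R1, h1, h2, h3⟩ := ih (by omega)
    have hne : (R \ R1).Nonempty := by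
      rw [← card_pos, card_sdiff_of_subset h1]; omega
    obtain ⟨w0, hw0, hmin⟩ := exists_min_image (R \ R1) a hne
    obtain ⟨hw1, hw2⟩ := mem_sdiff.1 hw0
    refine ⟨insert w0 R1, insert_subset hw1 h1, by rw [card_insert_of_notMem hw2, h2], ?_⟩
    intro u hu w hw hw'
    have hw3 : w ∉ R1 := fun h => hw' (mem_insert_of_mem h)
    rcases mem_insert.1 hu with rfl | hu
    · exact hmin w (mem_sdiff.2 ⟨hw, hw3⟩)
    · exact h3 u hu w hw hw3

theorem st_sqrt (a b c d : ℝ) (ha : 0 ≤ a) (hb : 0 ≤ b) (hc : 0 ≤ c) (hd : 0 ≤ d) :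
    Real.sqrt (a * b) + Real.sqrt (c * d) ≤ Real.sqrt ((a + c) * (b + d)) := by
  apply Real.le_sqrt_of_sq_le
  rw [add_sq, Real.sq_sqrt (by positivity), Real.sq_sqrt (by positivity)]
  have h1 : Real.sqrt (a * b) * Real.sqrt (c * d) = Real.sqrt (a * d) * Real.sqrt (c * b) := by
    rw [← Real.sqrt_mul (by positivity), ← Real.sqrt_mul (by positivity)]
    congr 1; ring
  have h2 : 2 * (Real.sqrt (a * d) * Real.sqrt (c * b)) ≤ a * d + c * b := by
    have := sq_nonneg (Real.sqrt (a * d) - Real.sqrt (c * b))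
    rw [sub_sq, Real.sq_sqrt (by positivity), Real.sq_sqrt (by positivity)] at this
    linarith
  have h3 : 2 * Real.sqrt (a * b) * Real.sqrt (c * d)
      = 2 * (Real.sqrt (a * d) * Real.sqrt (c * b)) := by rw [mul_assoc, h1]
  rw [h3]
  nlinarith

theorem t_ST : T_ST := by
  classical
  intro U V _ _ M lam hlam hM a b p
  have hrect : ∀ (R : Finset U) (C C' : Finset V), C' ⊆ C →
      |∑ u ∈ R, ∑ v ∈ C', M u v| ≤ lam * Real.sqrt (R.card * C.card) := by
    intro R C C' h
    refine (hM R C').trans (mul_le_mul_of_nonneg_left (Real.sqrt_le_sqrt ?_) hlam)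
    exact mul_le_mul_of_nonneg_left (by exact_mod_cast card_le_card h) (Nat.cast_nonneg _)
  induction p with
  | zero =>
    intro R C hR
    rw [pow_zero] at hR
    rcases R.eq_empty_or_nonempty with rfl | hne
    · simp
    · obtain ⟨u, rfl⟩ := card_eq_one.1 (le_antisymm hR (card_pos.2 hne))
      have h1 := hrect {u} C (C.filter (fun v => 0 ≤ a u + b v)) (filter_subset _ _)
      rw [sum_singleton, sum_filter] at h1
      rw [sum_singleton]
      simpa using h1
  | succ p ih =>
    intro R C hR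
    have hs0 : 0 ≤ Real.sqrt ((R.card : ℝ) * C.card) := Real.sqrt_nonneg _
    rcases le_or_gt R.card (2 ^ p) with hle | hgt
    · refine (ih R C hle).trans ?_
      push_cast
      have : 0 ≤ lam * Real.sqrt ((R.card : ℝ) * C.card) := mul_nonneg hlam hs0
      nlinarith
    · obtain ⟨R1, h1, h2, h3⟩ := st_split a R (2 ^ p) hgt.le
      have hne : R1.Nonempty := by rw [← card_pos, h2]; positivity
      obtain ⟨u1, hu1, hmax⟩ := exists_max_image R1 a hne
      set R2 := R \ R1 with hR2
      set C1 := C.filter (fun v => 0 ≤ a u1 + b v) with hC1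
      set C2 := C.filter (fun v => ¬ 0 ≤ a u1 + b v) with hC2
      have hcR : (R.card : ℝ) = R1.card + R2.card := by
        rw [hR2]
        have := card_sdiff_add_card_eq_card h1
        rw [← this]; push_cast; ring
      have hcC : (C.card : ℝ) = C1.card + C2.card := by
        have := card_filter_add_card_filter_not (s := C) (fun v => 0 ≤ a u1 + b v)
        rw [← this]; push_cast; ring
      have hR2c : R2.card ≤ 2 ^ p := by
        have : R2.card + R1.card = R.card := card_sdiff_add_card_eq_card h1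
        rw [pow_succ] at hR
        omega
      have e0 : ∑ u ∈ R, ∑ v ∈ C, (if 0 ≤ a u + b v then M u v else 0)
          = (∑ u ∈ R2, ∑ v ∈ C, (if 0 ≤ a u + b v then M u v else 0))
            + ∑ u ∈ R1, ∑ v ∈ C, (if 0 ≤ a u + b v then M u v else 0) :=
        (sum_sdiff h1).symm
      have e1 : ∑ u ∈ R1, ∑ v ∈ C, (if 0 ≤ a u + b v then M u v else 0)
          = ∑ u ∈ R1, ∑ v ∈ C1, (if 0 ≤ a u + b v then M u v else 0) := by
        refine sum_congr rfl fun u hu => ?_
        rw [hC1, sum_filter]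
        refine sum_congr rfl fun v _ => ?_
        by_cases h : 0 ≤ a u + b v
        · have : 0 ≤ a u1 + b v := by linarith [hmax u hu]
          simp [h, this]
        · simp [h]
      have e2 : ∑ u ∈ R2, ∑ v ∈ C, (if 0 ≤ a u + b v then M u v else 0)
          = (∑ u ∈ R2, ∑ v ∈ C1, M u v)
            + ∑ u ∈ R2, ∑ v ∈ C2, (if 0 ≤ a u + b v then M u v else 0) := by
        rw [← sum_add_distrib]
        refine sum_congr rfl fun u hu => ?_
        rw [← sum_filter_add_sum_filter_not C (fun v => 0 ≤ a u1 + b v)]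
        congr 1
        refine sum_congr rfl fun v hv => ?_
        have hv' := (mem_filter.1 hv).2
        obtain ⟨hu2, hu3⟩ := mem_sdiff.1 hu
        have : a u1 ≤ a u := h3 u1 hu1 u hu2 hu3
        rw [if_pos (by linarith)]
      have b1 := ih R1 C1 h2.le
      have b2 := ih R2 C2 hR2c
      have b3 : |∑ u ∈ R2, ∑ v ∈ C1, M u v| ≤ lam * Real.sqrt (R.card * C.card) := by
        refine (hM R2 C1).trans (mul_le_mul_of_nonneg_left (Real.sqrt_le_sqrt ?_) hlam)
        rw [hcR, hcC]
        have : (0:ℝ) ≤ R1.card := Nat.cast_nonneg _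
        have : (0:ℝ) ≤ C2.card := Nat.cast_nonneg _
        exact mul_le_mul (by linarith) (by linarith) (Nat.cast_nonneg _) (by positivity)
      have b4 : Real.sqrt ((R1.card : ℝ) * C1.card) + Real.sqrt ((R2.card : ℝ) * C2.card)
          ≤ Real.sqrt (R.card * C.card) := by
        rw [hcR, hcC]
        exact st_sqrt _ _ _ _ (Nat.cast_nonneg _) (Nat.cast_nonneg _) (Nat.cast_nonneg _)
          (Nat.cast_nonneg _)
      rw [e0, e2, e1]
      have t1 := abs_add_le ((∑ u ∈ R2, ∑ v ∈ C1, M u v)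
            + ∑ u ∈ R2, ∑ v ∈ C2, (if 0 ≤ a u + b v then M u v else 0))
          (∑ u ∈ R1, ∑ v ∈ C1, (if 0 ≤ a u + b v then M u v else 0))
      have t2 := abs_add_le (∑ u ∈ R2, ∑ v ∈ C1, M u v)
          (∑ u ∈ R2, ∑ v ∈ C2, (if 0 ≤ a u + b v then M u v else 0))
      have t3 : ((p : ℝ) + 1) * lam * (Real.sqrt ((R1.card : ℝ) * C1.card)
          + Real.sqrt ((R2.card : ℝ) * C2.card)) ≤ ((p : ℝ) + 1) * lam * Real.sqrt (R.card * C.card) :=
        mul_le_mul_of_nonneg_left b4 (by positivity)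
      push_cast
      nlinarith

end Pool.Agent.Helper99.TH
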