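import Mathlib
import Pool.Agent.Helper99.TH.St

/-!
# Module TC: correlation of the generalized inner product with threshold gates
-/

namespace Pool.Agent.Helper99.TH

open Finset

/-- the point with first row `u` and other rows `v` -/
def tcJoin {K m : ℕ} (p : (Fin m → Bool) × (Fin K × Fin m → Bool)) :
    Fin (K + 1) × Fin m → Bool :=
  fun q => Fin.cases (p.1 q.2) (fun j => p.2 (j, q.2)) q.1

/-- points are pairs of a first row and other rows -/
def tcEquiv (K m : ℕ) :
    ((Fin m → Bool) × (Fin K × Fin m → Bool)) ≃ (Fin (K + 1) × Fin m → Bool) where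
  toFun := tcJoin
  invFun x := (fun i => x (0, i), fun p => x (p.1.succ, p.2))
  left_inv := by
    rintro ⟨u, v⟩
    rfl
  right_inv := by
    intro x
    funext ⟨j, i⟩
    refine Fin.cases ?_ (fun j' => ?_) j
    · rfl
    · rfl

theorem tc_gip {K m : ℕ} (u : Fin m → Bool) (v : Fin K × Fin m → Bool) :
    gip (tcJoin (u, v)) = decide (Odd (univ.filter
      (fun i : Fin m => u i = true ∧ ∀ j : Fin K, v (j, i) = true)).card) := by
  unfold gip
  have h : (univ.filter (fun i : Fin m => ∀ j : Fin (K + 1), tcJoin (u, v) (j, i) = true))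
      = univ.filter (fun i : Fin m => u i = true ∧ ∀ j : Fin K, v (j, i) = true) := by
    apply Finset.filter_congr
    intro i _
    rw [Fin.forall_fin_succ]
    rfl
  rw [h]

theorem t_TC (h1 : T_ST) (h2 : T_RC) : T_TC := by
  intro K m hK g hg
  obtain ⟨K', rfl⟩ : ∃ K', K = K' + 1 := ⟨K - 1, by omega⟩
  have hK' : 1 ≤ K' := by omega
  obtain ⟨w, t, hw⟩ := hg
  set M : (Fin m → Bool) → (Fin K' × Fin m → Bool) → ℝ := fun u v =>
    sg (decide (Odd (univ.filter
      (fun i : Fin m => u i = true ∧ ∀ j : Fin K', v (j, i) = true)).card)) with hM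
  set lam : ℝ := Real.sqrt (2 ^ m * (2 ^ K' - 1) ^ m) with hlam
  set a : (Fin m → Bool) → ℝ := fun u => ∑ i, if u i = true then w (0, i) else 0 with ha
  set b : (Fin K' × Fin m → Bool) → ℝ := fun v =>
    (∑ p, if v p = true then w (p.1.succ, p.2) else 0) - t with hb
  have key := h1 (Fin m → Bool) (Fin K' × Fin m → Bool) M lam (Real.sqrt_nonneg _)
    (fun R C => h2 K' m hK' R C) a b m univ univ (by simp)
  have hsum : ∑ x : Fin (K' + 1) × Fin m → Bool, sg (gip x) * (if g x = true then (1 : ℝ) else 0)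
      = ∑ u : Fin m → Bool, ∑ v : Fin K' × Fin m → Bool,
        (if 0 ≤ a u + b v then M u v else 0) := by
    rw [← Equiv.sum_comp (tcEquiv K' m), Fintype.sum_prod_type]
    apply Finset.sum_congr rfl
    intro u _
    apply Finset.sum_congr rfl
    intro v _
    change sg (gip (tcJoin (u, v))) * (if g (tcJoin (u, v)) = true then (1 : ℝ) else 0) = _
    rw [tc_gip]
    have hiff : g (tcJoin (u, v)) = true ↔ 0 ≤ a u + b v := by
      rw [hw]
      have e1 : (∑ p : Fin (K' + 1) × Fin m, if tcJoin (u, v) p = true then w p else 0)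
          = a u + ∑ p : Fin K' × Fin m, (if v p = true then w (p.1.succ, p.2) else 0) := by
        rw [Fintype.sum_prod_type, Fin.sum_univ_succ, Fintype.sum_prod_type]
        rfl
      rw [e1]
      simp only [hb]
      constructor
      · intro h; linarith
      · intro h; linarith
    by_cases hh : g (tcJoin (u, v)) = true
    · rw [if_pos hh, if_pos (hiff.mp hh), mul_one]
    · rw [if_neg hh, if_neg (fun h => hh (hiff.mpr h)), mul_zero]
  rw [hsum]
  refine key.trans (le_of_eq ?_)
  have hc1 : ((univ : Finset (Fin m → Bool)).card : ℝ) = 2 ^ m := by simp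
  have hc2 : ((univ : Finset (Fin K' × Fin m → Bool)).card : ℝ) = 2 ^ (K' * m) := by
    simp
  rw [hc1, hc2, mul_assoc, mul_assoc, hlam, ← Real.sqrt_mul (by
    have : (1 : ℝ) ≤ 2 ^ K' := one_le_pow₀ (by norm_num)
    have h3 : (0 : ℝ) ≤ (2 ^ K' - 1) ^ m := pow_nonneg (by linarith) _
    positivity)]
  congr 1
  have e2 : (2 : ℝ) ^ m * (2 ^ K' - 1) ^ m * (2 ^ m * 2 ^ (K' * m))
      = (2 ^ ((K' + 1) * m)) ^ 2 * ((1 - (1 / 2) ^ (K' + 1 - 1)) ^ m) := by
    have e3 : (2 : ℝ) ^ (K' * m) = (2 ^ K') ^ m := pow_mul _ _ _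
    have e4 : (2 : ℝ) ^ ((K' + 1) * m) = 2 ^ m * (2 ^ K') ^ m := by
      rw [add_mul, one_mul, pow_add, pow_mul, mul_comm]
    have e5 : ((2 : ℝ) ^ K' - 1) ^ m = (2 ^ K') ^ m * (1 - (1 / 2) ^ (K' + 1 - 1)) ^ m := by
      rw [← mul_pow]
      congr 1
      rw [Nat.add_sub_cancel, mul_sub, mul_one, ← mul_pow]
      norm_num
    rw [e3, e4, e5]
    ring
  rw [e2, Real.sqrt_mul (by positivity), Real.sqrt_sq (by positivity)]

end Pool.Agent.Helper99.TH
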