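import Mathlib
import Pool.Agent.Helper99.TH.Fin
import Pool.Agent.Helper99.TH.M_PR
import Pool.Agent.Helper99.TH.M_ISO
import Pool.Agent.Helper99.TH.M_AP
import Pool.Agent.Helper99.TH.M_SG
import Pool.Agent.Helper99.TH.M_PH
import Pool.Agent.Helper99.TH.M_BN
import Pool.Agent.Helper99.TH.M_SC
import Pool.Agent.Helper99.TH.M_ST
import Pool.Agent.Helper99.TH.M_RC
import Pool.Agent.Helper99.TH.M_TC
import Pool.Agent.Helper99.TH.M_MH
import Pool.Agent.Helper99.TH.M_RR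
import Pool.Agent.Helper99.TH.M_EN
import Pool.Agent.Helper99.TH.M_FA
import Pool.Agent.Helper99.TH.M_FB
import Pool.Agent.Helper99.TH.M_FC
import Pool.Agent.Helper99.TH.M_CB
import Pool.Agent.Helper99.TH.M_NC
import Pool.Agent.Helper99.TH.M_ND
import Pool.Agent.Helper99.TH.M_NB

/-!
# Project TH: conclusion
-/

namespace Pool.Agent.Helper99.TH

open Pool.Agent.Helper70.AC Pool.Agent.Helper72

theorem no_threshold {S : Set (List Bool)} {n0 : ℕ}
    (hS : ∀ z : List Bool, n0 ≤ z.length → (z ∈ S ↔ z ∈ SAT)) : ¬ SmallThreshold S := by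
  have hPH : T_PH := t_PH (t_AP t_ISO) t_SG
  have hTC : T_TC := t_TC t_ST t_RC
  have hMH : T_MH := t_MH t_BN (t_SC t_BN) hTC t_CB
  have hFC : T_FC := t_FC (t_FB t_FA)
  rintro (⟨d, h⟩ | h | h | h)
  · exact typeA_hard t_PR hPH hS d h
  · exact typeB_hard t_PR t_EN hFC t_NB hS h
  · exact typeC_hard t_PR t_EN hMH (t_NC t_CB) hS h
  · exact typeD_hard t_PR t_EN hMH (t_RR t_PR) (t_ND t_CB) hS h

end Pool.Agent.Helper99.TH
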