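import Mathlib
import Pool.Agent.Helper99.TH.St

/-!
# Module RR: random restrictions
-/

namespace Pool.Agent.Helper99.TH

open Finset

/-- parameters of a restriction: for every block the surviving bit and the values of the bits -/
abbrev RRho (I : Type) (b : ℕ) : Type := I → Fin b × (Fin b → Bool)

/-- the restriction as a projection -/
def rrPi {I : Type} {b : ℕ} (ρ : RRho I b) (y : I → Bool) : I × Fin b → Bool :=
  fun z => if z.2 = (ρ z.1).1 then
      xor (y z.1) (decide (Odd (univ.filter (fun q => q ≠ (ρ z.1).1 ∧ (ρ z.1).2 q = true)).card))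
    else (ρ z.1).2 z.2

theorem rr_isPr {I : Type} {b : ℕ} (ρ : RRho I b) : IsPr (rrPi ρ) := by
  rintro ⟨p, q⟩
  by_cases h : q = (ρ p).1
  · right
    by_cases h2 : Odd (univ.filter (fun q => q ≠ (ρ p).1 ∧ (ρ p).2 q = true)).card
    · right
      refine ⟨p, fun x => ?_⟩
      simp only [rrPi, if_pos h, decide_eq_true h2, Bool.xor_true]
    · left
      refine ⟨p, fun x => ?_⟩
      simp only [rrPi, if_pos h, decide_eq_false h2, Bool.xor_false]
  · left
    refine ⟨(ρ p).2 q, fun x => ?_⟩
    simp only [rrPi, if_neg h]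

theorem rr_par {I : Type} {b : ℕ} (ρ : RRho I b) (y : I → Bool) (p : I) :
    decide (Odd (univ.filter (fun q : Fin b => rrPi ρ y (p, q) = true)).card) = y p := by
  set n := (univ.filter (fun q => q ≠ (ρ p).1 ∧ (ρ p).2 q = true)).card with hn
  have hF : (univ.filter (fun q : Fin b => rrPi ρ y (p, q) = true)).card
      = n + (if xor (y p) (decide (Odd n)) = true then 1 else 0) := by
    rw [hn, Finset.card_filter, Finset.card_filter]
    have e : ∀ q : Fin b, (if rrPi ρ y (p, q) = true then 1 else 0)
        = (if q ≠ (ρ p).1 ∧ (ρ p).2 q = true then 1 else 0)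
          + (if q = (ρ p).1 then (if xor (y p) (decide (Odd n)) = true then 1 else 0) else 0) := by
      intro q
      by_cases h : q = (ρ p).1
      · simp only [rrPi, ne_eq, h, not_true_eq_false, false_and, if_false, zero_add,
          if_true]
        rfl
      · simp only [rrPi, ne_eq, h, not_false_eq_true, true_and, if_false, add_zero]
    rw [Finset.sum_congr rfl (fun q _ => e q), Finset.sum_add_distrib, Finset.sum_ite_eq']
    simp only [mem_univ, if_true]
    rw [hn, Finset.card_filter]
  rw [hF]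
  by_cases h2 : Odd n
  · cases hy : y p
    · simp only [decide_eq_true h2, Bool.xor_true, Bool.not_false, if_true, decide_eq_false_iff_not]
      intro h3
      exact (Nat.not_odd_iff_even.mpr (h2.add_odd odd_one)) h3
    · simp only [decide_eq_true h2, Bool.xor_true, Bool.not_true, decide_eq_true_eq]
      simpa using h2
  · cases hy : y p
    · simp only [decide_eq_false h2, Bool.xor_false, decide_eq_false_iff_not]
      simpa using h2
    · simp only [decide_eq_false h2, Bool.xor_false, if_true, decide_eq_true_eq]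
      exact (Nat.not_odd_iff_even.mp h2).add_odd odd_one

/-- the number of words with prescribed values on a set -/
theorem rr_count (b : ℕ) (A : Finset (Fin b)) (β : Fin b → Bool) :
    (univ.filter (fun α : Fin b → Bool => ∀ q ∈ A, α q = β q)).card * 2 ^ A.card = 2 ^ b := by
  have h1 : (univ.filter (fun α : Fin b → Bool => ∀ q ∈ A, α q = β q))
      = Fintype.piFinset (fun q => if q ∈ A then ({β q} : Finset Bool) else univ) := by
    ext α
    simp only [mem_filter, mem_univ, true_and, Fintype.mem_piFinset]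
    apply forall_congr'
    intro q
    by_cases h : q ∈ A
    · simp [h]
    · simp [h]
  rw [h1, Fintype.card_piFinset]
  have h2 : (2 : ℕ) ^ A.card = ∏ q : Fin b, (if q ∈ A then 2 else 1) := by
    rw [Finset.prod_ite_mem, Finset.univ_inter, Finset.prod_const]
  rw [h2, ← Finset.prod_mul_distrib]
  have h3 : ∀ q ∈ (univ : Finset (Fin b)),
      (if q ∈ A then ({β q} : Finset Bool) else univ).card * (if q ∈ A then 2 else 1) = 2 := by
    intro q _
    by_cases h : q ∈ A
    · simp [h]
    · simp [h]
  rw [Finset.prod_congr rfl h3, Finset.prod_const]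
  simp

/-- the local weight -/
noncomputable def rrW (b : ℕ) (P N : Finset (Fin b)) (z : Fin b × (Fin b → Bool)) : ℝ :=
  if (∀ q ∈ P ∪ N, q ≠ z.1 → z.2 q = decide (q ∈ P)) then
    (if z.1 ∈ P ∪ N then (b : ℝ) / 2 else 1) else 0

theorem rrW_nonneg (b : ℕ) (P N : Finset (Fin b)) (z : Fin b × (Fin b → Bool)) :
    0 ≤ rrW b P N z := by
  unfold rrW
  split_ifs
  · positivity
  · norm_num
  · norm_num

theorem rr_local (b : ℕ) (P N : Finset (Fin b)) :
    ∑ z : Fin b × (Fin b → Bool), rrW b P N z ≤ (b : ℝ) * 2 ^ b := by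
  set S := P ∪ N with hS
  set t := S.card with ht
  have htb : t ≤ b := by
    have := Finset.card_le_univ S
    simpa using this
  have hc : ∀ c : Fin b, (∑ α : Fin b → Bool, rrW b P N (c, α)) * 2 ^ t
      = (2 : ℝ) ^ b * (if c ∈ S then (b : ℝ) else 1) := by
    intro c
    have e1 : (∑ α : Fin b → Bool, rrW b P N (c, α))
        = ((univ.filter (fun α : Fin b → Bool => ∀ q ∈ S.erase c, α q = decide (q ∈ P))).card : ℝ)
          * (if c ∈ S then (b : ℝ) / 2 else 1) := by
      rw [Finset.card_filter, Nat.cast_sum, Finset.sum_mul]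
      apply Finset.sum_congr rfl
      intro α _
      unfold rrW
      have hiff : (∀ q ∈ P ∪ N, q ≠ (c, α).1 → (c, α).2 q = decide (q ∈ P)) ↔
          (∀ q ∈ S.erase c, α q = decide (q ∈ P)) := by
        constructor
        · intro h q hq
          rw [Finset.mem_erase] at hq
          exact h q hq.2 hq.1
        · intro h q hq hqc
          exact h q (Finset.mem_erase.mpr ⟨hqc, hq⟩)
      by_cases hh : (∀ q ∈ S.erase c, α q = decide (q ∈ P))
      · rw [if_pos (hiff.mpr hh), if_pos hh]
        simp [hS]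
      · rw [if_neg (fun h => hh (hiff.mp h)), if_neg hh]
        simp
    have e2 := rr_count b (S.erase c) (fun q => decide (q ∈ P))
    have e3 : ((univ.filter (fun α : Fin b → Bool =>
        ∀ q ∈ S.erase c, α q = decide (q ∈ P))).card : ℝ) * 2 ^ (S.erase c).card = 2 ^ b := by
      exact_mod_cast e2
    rw [e1]
    by_cases hcS : c ∈ S
    · rw [if_pos hcS, if_pos hcS]
      have e4 : (2 : ℝ) ^ t = 2 ^ (S.erase c).card * 2 := by
        rw [← pow_succ, Finset.card_erase_of_mem hcS]
        congr 1
        have : 0 < S.card := Finset.card_pos.mpr ⟨c, hcS⟩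
        omega
      rw [e4, ← e3]
      ring
    · rw [if_neg hcS, if_neg hcS]
      rw [Finset.erase_eq_of_notMem hcS] at e3 ⊢
      rw [mul_one, mul_one, ← e3]
  have hsum : (∑ z : Fin b × (Fin b → Bool), rrW b P N z) * 2 ^ t
      = (2 : ℝ) ^ b * (t * b + (b - t)) := by
    rw [Fintype.sum_prod_type, Finset.sum_mul, Finset.sum_congr rfl (fun c _ => hc c),
      ← Finset.mul_sum]
    congr 1
    rw [Finset.sum_ite, Finset.sum_const, Finset.sum_const]
    have e5 : (univ.filter (fun c => c ∈ S)).card = t := by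
      rw [Finset.filter_mem_eq_inter, Finset.univ_inter]
    have e6 : (univ.filter (fun c => ¬ c ∈ S)).card = b - t := by
      have h7 := Finset.card_filter_add_card_filter_not (s := (univ : Finset (Fin b)))
        (fun c => c ∈ S)
      rw [e5] at h7
      simp only [Finset.card_univ, Fintype.card_fin] at h7
      omega
    rw [e5, e6, nsmul_eq_mul, nsmul_eq_mul, Nat.cast_sub htb, mul_one]
  have hpow : ((t : ℝ) + 1) ≤ 2 ^ t := by
    have : t + 1 ≤ 2 ^ t := Nat.lt_two_pow_self
    exact_mod_cast this
  have hbound : (∑ z : Fin b × (Fin b → Bool), rrW b P N z) * 2 ^ t ≤ ((b : ℝ) * 2 ^ b) * 2 ^ t := by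
    rw [hsum]
    have h8 : (t : ℝ) * b + (b - t) ≤ b * 2 ^ t := by
      have hb0 : (0 : ℝ) ≤ b := Nat.cast_nonneg b
      have ht0 : (0 : ℝ) ≤ t := Nat.cast_nonneg t
      nlinarith [mul_le_mul_of_nonneg_left hpow hb0]
    have h9 : (0 : ℝ) ≤ 2 ^ b := by positivity
    nlinarith [mul_le_mul_of_nonneg_left h8 h9]
  exact le_of_mul_le_mul_right hbound (by positivity)

section
variable {I : Type} [Fintype I] [DecidableEq I]

theorem rr_total (b : ℕ) (P N : I → Finset (Fin b)) :
    ∑ ρ : RRho I b, ∏ p, rrW b (P p) (N p) (ρ p) ≤ (Fintype.card (RRho I b) : ℝ) := by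
  have h1 : ∑ ρ : RRho I b, ∏ p, rrW b (P p) (N p) (ρ p)
      = ∏ p, ∑ z : Fin b × (Fin b → Bool), rrW b (P p) (N p) z := by
    rw [Finset.prod_univ_sum, Fintype.piFinset_univ]
  rw [h1]
  calc ∏ p, ∑ z : Fin b × (Fin b → Bool), rrW b (P p) (N p) z
      ≤ ∏ _p : I, ((b : ℝ) * 2 ^ b) :=
        Finset.prod_le_prod (fun p _ => Finset.sum_nonneg (fun z _ => rrW_nonneg _ _ _ _))
          (fun p _ => rr_local b (P p) (N p))
    _ = (Fintype.card (RRho I b) : ℝ) := by
        rw [Finset.prod_const]
        simp [RRho]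

/-- One AND gate: few restrictions are bad. -/
theorem rr_and (b k : ℕ) (hb : 2 ≤ b) (h : (I × Fin b → Bool) → Bool) (hh : IsAnd h) :
    ∃ B : Finset (RRho I b), B.card * b ^ (k + 1) ≤ Fintype.card (RRho I b) * 2 ^ (k + 1) ∧
      ∀ ρ, ρ ∉ B → Junta k (fun y => h (rrPi ρ y)) := by
  classical
  obtain ⟨β, P, N, hPN⟩ := hh
  set Pp : I → Finset (Fin b) := fun p => univ.filter (fun q => (p, q) ∈ P) with hPp
  set Np : I → Finset (Fin b) := fun p => univ.filter (fun q => (p, q) ∈ N) with hNp
  set B : Finset (RRho I b) := univ.filter (fun ρ =>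
    (∀ p, ∀ q ∈ Pp p ∪ Np p, q ≠ (ρ p).1 → (ρ p).2 q = decide (q ∈ Pp p)) ∧
      k + 1 ≤ (univ.filter (fun p => (ρ p).1 ∈ Pp p ∪ Np p)).card) with hB
  refine ⟨B, ?_, ?_⟩
  · have hb2 : (1 : ℝ) ≤ (b : ℝ) / 2 := by
      have : (2 : ℝ) ≤ b := by exact_mod_cast hb
      linarith
    have h1 : (B.card : ℝ) * ((b : ℝ) / 2) ^ (k + 1) ≤ (Fintype.card (RRho I b) : ℝ) := by
      refine le_trans ?_ (rr_total b Pp Np)
      calc (B.card : ℝ) * ((b : ℝ) / 2) ^ (k + 1) = ∑ _ρ ∈ B, ((b : ℝ) / 2) ^ (k + 1) := by
            rw [Finset.sum_const, nsmul_eq_mul]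
        _ ≤ ∑ ρ ∈ B, ∏ p, rrW b (Pp p) (Np p) (ρ p) := by
            apply Finset.sum_le_sum
            intro ρ hρ
            rw [hB, Finset.mem_filter] at hρ
            have h2 : ∏ p, rrW b (Pp p) (Np p) (ρ p)
                = ((b : ℝ) / 2) ^ (univ.filter (fun p => (ρ p).1 ∈ Pp p ∪ Np p)).card := by
              have h3 : ∀ p ∈ (univ : Finset I), rrW b (Pp p) (Np p) (ρ p)
                  = if (ρ p).1 ∈ Pp p ∪ Np p then (b : ℝ) / 2 else 1 := by
                intro p _
                unfold rrW
                rw [if_pos (hρ.2.1 p)]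
              rw [Finset.prod_congr rfl h3, Finset.prod_ite, Finset.prod_const, Finset.prod_const,
                one_pow, mul_one]
            rw [h2]
            exact pow_le_pow_right₀ hb2 hρ.2.2
        _ ≤ ∑ ρ : RRho I b, ∏ p, rrW b (Pp p) (Np p) (ρ p) :=
            Finset.sum_le_sum_of_subset_of_nonneg (Finset.subset_univ _)
              (fun ρ _ _ => Finset.prod_nonneg (fun p _ => rrW_nonneg _ _ _ _))
    have h4 : (B.card : ℝ) * (b : ℝ) ^ (k + 1)
        ≤ (Fintype.card (RRho I b) : ℝ) * 2 ^ (k + 1) := by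
      have h5 : (b : ℝ) ^ (k + 1) = ((b : ℝ) / 2) ^ (k + 1) * 2 ^ (k + 1) := by
        rw [← mul_pow, div_mul_cancel₀ _ (by norm_num)]
      rw [h5, ← mul_assoc]
      exact mul_le_mul_of_nonneg_right h1 (by positivity)
    exact_mod_cast h4
  · intro ρ hρ
    by_cases hal : ∀ p, ∀ q ∈ Pp p ∪ Np p, q ≠ (ρ p).1 → (ρ p).2 q = decide (q ∈ Pp p)
    · -- alive
      refine ⟨univ.filter (fun p => (ρ p).1 ∈ Pp p ∪ Np p), ?_, ?_⟩
      · by_contra hcon
        apply hρ
        rw [hB, Finset.mem_filter]
        exact ⟨mem_univ _, hal, by omega⟩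
      · intro x y hxy
        have key : ∀ z : I × Fin b, (z ∈ P ∨ z ∈ N) → rrPi ρ x z = rrPi ρ y z := by
          rintro ⟨p, q⟩ hz
          by_cases hq : q = (ρ p).1
          · have hp : p ∈ univ.filter (fun p => (ρ p).1 ∈ Pp p ∪ Np p) := by
              rw [Finset.mem_filter]
              refine ⟨mem_univ _, ?_⟩
              rw [← hq, Finset.mem_union, hPp, hNp]
              simp only [Finset.mem_filter, mem_univ, true_and]
              exact hz
            simp only [rrPi, if_pos hq, hxy p hp]
          · simp only [rrPi, if_neg hq]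
        have h6 : h (rrPi ρ x) = true ↔ h (rrPi ρ y) = true := by
          rw [hPN, hPN]
          constructor
          · rintro ⟨h7, h8, h9⟩
            exact ⟨h7, fun i hi => by rw [← key i (Or.inl hi)]; exact h8 i hi,
              fun i hi => by rw [← key i (Or.inr hi)]; exact h9 i hi⟩
          · rintro ⟨h7, h8, h9⟩
            exact ⟨h7, fun i hi => by rw [key i (Or.inl hi)]; exact h8 i hi,
              fun i hi => by rw [key i (Or.inr hi)]; exact h9 i hi⟩
        exact Bool.eq_iff_iff.mpr h6
    · -- the gate is constantly false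
      push Not at hal
      obtain ⟨p, q, hq, hqc, hne⟩ := hal
      have hfalse : ∀ x, h (rrPi ρ x) = false := by
        intro x
        rw [← Bool.not_eq_true]
        intro ht
        rw [hPN] at ht
        obtain ⟨_, h8, h9⟩ := ht
        have hval : rrPi ρ x (p, q) = (ρ p).2 q := by
          simp only [rrPi, if_neg hqc]
        by_cases hqP : (p, q) ∈ P
        · have h10 := h8 _ hqP
          rw [hval] at h10
          apply hne
          rw [h10]
          symm
          apply decide_eq_true
          rw [hPp]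
          simp only [Finset.mem_filter, mem_univ, true_and]
          exact hqP
        · have hqN : (p, q) ∈ N := by
            rw [Finset.mem_union, hPp, hNp] at hq
            simp only [Finset.mem_filter, mem_univ, true_and] at hq
            exact hq.resolve_left hqP
          have h10 := h9 _ hqN
          rw [hval] at h10
          apply hne
          rw [h10]
          symm
          apply decide_eq_false
          rw [hPp]
          simp only [Finset.mem_filter, mem_univ, true_and]
          exact hqP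
      exact ⟨∅, by simp, fun x y _ => (hfalse x).trans (hfalse y).symm⟩

/-- One gate of the middle level. -/
theorem rr_gate (hPR : T_PR) (b k s : ℕ) (hb : 2 ≤ b) (g : (I × Fin b → Bool) → Bool)
    (hg : ThrGate g ∨ SymOf IsAnd s g) :
    ∃ B : Finset (RRho I b), B.card * b ^ (k + 1) ≤
        s * (Fintype.card (RRho I b) * 2 ^ (k + 1)) ∧
      ∀ ρ, ρ ∉ B → (ThrGate (fun y => g (rrPi ρ y)) ∨ SymOf (Junta k) s (fun y => g (rrPi ρ y))) := by
  classical
  rcases hg with hg | ⟨r, hr, σ, h, hA, hx⟩
  · refine ⟨∅, by simp, fun ρ _ => Or.inl ?_⟩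
    exact hPR.2.2.2.1 I (I × Fin b) (rrPi ρ) (rr_isPr ρ) g hg
  · choose B hB1 hB2 using fun i => rr_and b k hb (h i) (hA i)
    refine ⟨univ.biUnion B, ?_, ?_⟩
    · calc (univ.biUnion B).card * b ^ (k + 1)
          ≤ (∑ i, (B i).card) * b ^ (k + 1) := Nat.mul_le_mul_right _ Finset.card_biUnion_le
        _ = ∑ i, (B i).card * b ^ (k + 1) := by rw [Finset.sum_mul]
        _ ≤ ∑ _i : Fin r, Fintype.card (RRho I b) * 2 ^ (k + 1) :=
            Finset.sum_le_sum (fun i _ => hB1 i)
        _ = r * (Fintype.card (RRho I b) * 2 ^ (k + 1)) := by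
            rw [Finset.sum_const, smul_eq_mul]
            simp
        _ ≤ s * (Fintype.card (RRho I b) * 2 ^ (k + 1)) := Nat.mul_le_mul_right _ hr
    · intro ρ hρ
      right
      refine ⟨r, hr, σ, fun i y => h i (rrPi ρ y), fun i => hB2 i ρ ?_, fun y => hx _⟩
      intro hc
      exact hρ (Finset.mem_biUnion.mpr ⟨i, mem_univ _, hc⟩)

end

theorem t_RR (h : T_PR) : T_RR := by
  classical
  intro K m b k s hb hs hmaj
  obtain ⟨r, hr, g, hg, hx⟩ := hmaj
  have hex : ∃ ρ : RRho (Fin K × Fin m) b, ∀ i : Fin r,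
      (ThrGate (fun y => g i (rrPi ρ y)) ∨ SymOf (Junta k) s (fun y => g i (rrPi ρ y))) := by
    have hne : Nonempty (RRho (Fin K × Fin m) b) :=
      ⟨fun _ => (⟨0, by omega⟩, fun _ => false)⟩
    rcases Nat.eq_zero_or_pos r with hr0 | hr0
    · subst hr0
      obtain ⟨ρ⟩ := hne
      exact ⟨ρ, fun i => i.elim0⟩
    · have hs1 : 1 ≤ s := le_trans hr0 hr
      have hb2 : 2 ≤ b := by
        by_contra hcon
        have hb1 : b = 1 := by omega
        subst hb1
        have : 1 ≤ s * s * 2 ^ (k + 1) := Nat.one_le_iff_ne_zero.mpr (by positivity)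
        rw [one_pow] at hs
        omega
      choose B hB1 hB2 using fun i => rr_gate h b k s hb2 (g i) (hg i)
      by_contra hcon
      push Not at hcon
      have hcover : (univ : Finset (RRho (Fin K × Fin m) b)) ⊆ univ.biUnion B := by
        intro ρ _
        obtain ⟨i, hi⟩ := hcon ρ
        rw [Finset.mem_biUnion]
        refine ⟨i, mem_univ _, ?_⟩
        by_contra hc
        rcases hB2 i ρ hc with h1 | h1
        · exact hi.1 h1
        · exact hi.2 h1
      have hpos : 0 < Fintype.card (RRho (Fin K × Fin m) b) := Fintype.card_pos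
      have hcard : Fintype.card (RRho (Fin K × Fin m) b) * b ^ (k + 1)
          ≤ s * (s * (Fintype.card (RRho (Fin K × Fin m) b) * 2 ^ (k + 1))) := by
        calc Fintype.card (RRho (Fin K × Fin m) b) * b ^ (k + 1)
            = (univ : Finset (RRho (Fin K × Fin m) b)).card * b ^ (k + 1) := rfl
          _ ≤ (univ.biUnion B).card * b ^ (k + 1) :=
              Nat.mul_le_mul_right _ (Finset.card_le_card hcover)
          _ ≤ (∑ i, (B i).card) * b ^ (k + 1) := Nat.mul_le_mul_right _ Finset.card_biUnion_le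
          _ = ∑ i, (B i).card * b ^ (k + 1) := by rw [Finset.sum_mul]
          _ ≤ ∑ _i : Fin r, s * (Fintype.card (RRho (Fin K × Fin m) b) * 2 ^ (k + 1)) :=
              Finset.sum_le_sum (fun i _ => hB1 i)
          _ = r * (s * (Fintype.card (RRho (Fin K × Fin m) b) * 2 ^ (k + 1))) := by
              rw [Finset.sum_const, smul_eq_mul]
              simp
          _ ≤ s * (s * (Fintype.card (RRho (Fin K × Fin m) b) * 2 ^ (k + 1))) :=
              Nat.mul_le_mul_right _ hr
      have hlt : Fintype.card (RRho (Fin K × Fin m) b) * (s * s * 2 ^ (k + 1))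
          < Fintype.card (RRho (Fin K × Fin m) b) * b ^ (k + 1) :=
        Nat.mul_lt_mul_of_pos_left hs hpos
      have heq : s * (s * (Fintype.card (RRho (Fin K × Fin m) b) * 2 ^ (k + 1)))
          = Fintype.card (RRho (Fin K × Fin m) b) * (s * s * 2 ^ (k + 1)) := by ring
      omega
  obtain ⟨ρ, hρ⟩ := hex
  refine ⟨r, hr, fun i y => g i (rrPi ρ y), hρ, ?_⟩
  intro y
  have e : gip y = gpar (rrPi ρ y) := by
    unfold gpar
    congr 1
    funext p
    exact (rr_par ρ y p).symm
  rw [e]
  exact hx _

end Pool.Agent.Helper99.TH
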